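import Mathlib

namespace Pool.Agent.V11310.Reg

/-- The `k`-kernel of an integer sequence. -/
def kKernel (k : ℕ) (u : ℕ → ℤ) : Set (ℕ → ℤ) :=
  {v | ∃ i j : ℕ, j < k ^ i ∧ v = fun n => u (k ^ i * n + j)}

/-- `u` is `k`-regular: the `ℤ`-module generated by its `k`-kernel is finitely generated. -/
def IsRegular (k : ℕ) (u : ℕ → ℤ) : Prop := (Submodule.span ℤ (kKernel k u)).FG

/-- Pigeonhole on prefixes: for a `k`-regular sequence modulo `M`, two of the prefixes `k^i`
are equivalent. -/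
lemma exists_period {k M : ℕ} [NeZero M] {u : ℕ → ℤ} (hreg : IsRegular k u) :
    ∃ i p : ℕ, 0 < p ∧ ∀ l s : ℕ, s < k ^ l →
      ((u (k ^ (i + l) + s) : ℤ) : ZMod M) = ((u (k ^ (i + p + l) + s) : ℤ) : ZMod M) := by
  classical
  obtain ⟨S, hS⟩ := hreg
  -- evaluation vector
  let e : ℕ → (S → ZMod M) := fun w s => ((s.1 w : ℤ) : ZMod M)
  have key : ∀ w w' : ℕ, e w = e w' → ∀ κ ∈ Submodule.span ℤ (kKernel k u),
      ((κ w : ℤ) : ZMod M) = ((κ w' : ℤ) : ZMod M) := by
    intro w w' hww κ hκ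
    rw [← hS] at hκ
    induction hκ using Submodule.span_induction with
    | mem x hx =>
      exact congrFun hww ⟨x, hx⟩
    | zero => simp
    | add x y _ _ hx hy => simp [hx, hy]
    | smul a x _ hx => simp [hx]
  obtain ⟨i, i', hne, heq⟩ := Finite.exists_ne_map_eq_of_infinite (fun i => e (k ^ i))
  have main : ∀ a b : ℕ, e (k ^ a) = e (k ^ b) → ∀ l s : ℕ, s < k ^ l →
      ((u (k ^ (a + l) + s) : ℤ) : ZMod M) = ((u (k ^ (b + l) + s) : ℤ) : ZMod M) := by
    intro a b hab l s hs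
    have hmem : (fun n => u (k ^ l * n + s)) ∈ Submodule.span ℤ (kKernel k u) :=
      Submodule.subset_span ⟨l, s, hs, rfl⟩
    have := key _ _ hab _ hmem
    rw [← pow_add, ← pow_add, add_comm l a, add_comm l b] at this
    exact this
  rcases lt_or_gt_of_ne hne with h | h
  · refine ⟨i, i' - i, by omega, fun l s hs => ?_⟩
    have := main i i' heq l s hs
    rwa [show i + (i' - i) = i' by omega]
  · refine ⟨i', i - i', by omega, fun l s hs => ?_⟩
    have := main i' i heq.symm l s hs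
    rwa [show i' + (i - i') = i by omega]

/-- the iterated version -/
lemma exists_period_iter {k M : ℕ} [NeZero M] (hk : 1 ≤ k) {u : ℕ → ℤ} (hreg : IsRegular k u) :
    ∃ i p : ℕ, 0 < p ∧ ∀ q l s : ℕ, s < k ^ l →
      ((u (k ^ (i + l) + s) : ℤ) : ZMod M) = ((u (k ^ (i + q * p + l) + s) : ℤ) : ZMod M) := by
  obtain ⟨i, p, hp, h⟩ := exists_period (M := M) hreg
  refine ⟨i, p, hp, fun q => ?_⟩
  induction q with
  | zero => intro l s _; simp
  | succ q ih =>
    intro l s hs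
    rw [ih l s hs]
    have := h (q * p + l) s (hs.trans_le (Nat.pow_le_pow_right hk (by omega)))
    rw [show i + (q * p + l) = i + q * p + l by ring,
      show i + p + (q * p + l) = i + (q + 1) * p + l by ring] at this
    exact this

/-! ### Density of `x + q θ` modulo one -/

lemma dense_seq {θ : ℝ} (hθ : Irrational θ) (x u v : ℝ) (huv : u < v) (N : ℕ) :
    ∃ q : ℕ, N ≤ q ∧ ∃ j : ℤ, u < x + q * θ - j ∧ x + q * θ - j < v := by
  have hd : Dense (AddSubgroup.closure {θ, 1} : Set ℝ) := by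
    rw [dense_addSubgroupClosure_pair_iff]
    simpa using hθ
  have hopen : IsOpen (Set.Ioo (0 : ℝ) (min (v - u) 1)) := isOpen_Ioo
  have hne : (Set.Ioo (0 : ℝ) (min (v - u) 1)).Nonempty := by
    rw [Set.nonempty_Ioo]
    exact lt_min (by linarith) one_pos
  obtain ⟨g, hg1, hg2⟩ := hd.exists_mem_open hopen hne
  rw [SetLike.mem_coe, AddSubgroup.mem_closure_pair] at hg1
  obtain ⟨m, n, hmn⟩ := hg1
  have hg0 : 0 < g := hg2.1
  have hgv : g < v - u := lt_of_lt_of_le hg2.2 (min_le_left _ _)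
  have hg1' : g < 1 := lt_of_lt_of_le hg2.2 (min_le_right _ _)
  simp only [zsmul_eq_mul, mul_one] at hmn
  have hm : m ≠ 0 := by
    rintro rfl
    simp at hmn
    rw [← hmn] at hg0 hg1'
    have h1 : (0 : ℤ) < n := by exact_mod_cast hg0
    have h2 : n < 1 := by exact_mod_cast hg1'
    omega
  rcases lt_or_gt_of_ne hm with hneg | hpos
  · -- `m < 0`
    set J : ℤ := ⌊x + N * θ - v⌋ - 1 with hJ
    have hJ1 : v < x + N * θ - J := by
      have := Int.floor_le (x + N * θ - v)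
      push_cast [hJ]
      linarith
    set s : ℕ := ⌊((x + N * θ - J) - v) / g⌋₊ + 1 with hs
    have hs1 : ((x + N * θ - J) - v) / g < s := by
      have := Nat.lt_floor_add_one (((x + N * θ - J) - v) / g)
      push_cast [hs]
      exact this
    have hs2 : (s : ℝ) - 1 ≤ ((x + N * θ - J) - v) / g := by
      have := Nat.floor_le (a := ((x + N * θ - J) - v) / g)
        (div_nonneg (by linarith) hg0.le)
      push_cast [hs]
      linarith
    rw [div_lt_iff₀ hg0] at hs1
    rw [le_div_iff₀ hg0] at hs2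
    refine ⟨N + s * (-m).toNat, by omega, J + s * n, ?_⟩
    have hmc : (((-m).toNat : ℕ) : ℝ) = -(m : ℝ) := by
      have : (((-m).toNat : ℕ) : ℤ) = -m := Int.toNat_of_nonneg (by omega)
      exact_mod_cast this
    have e1 : x + ((N + s * (-m).toNat : ℕ) : ℝ) * θ - ((J + s * n : ℤ) : ℝ) =
        x + N * θ - J - s * g := by
      push_cast
      rw [hmc, ← hmn]
      ring
    rw [e1]
    constructor <;> nlinarith
  · set J : ℤ := ⌈x + N * θ - u⌉ + 1 with hJ
    have hJ1 : x + N * θ - J < u := by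
      have := Int.le_ceil (x + N * θ - u)
      push_cast [hJ]
      linarith
    set s : ℕ := ⌊(u - (x + N * θ - J)) / g⌋₊ + 1 with hs
    have hs1 : (u - (x + N * θ - J)) / g < s := by
      have := Nat.lt_floor_add_one ((u - (x + N * θ - J)) / g)
      push_cast [hs]
      exact this
    have hs2 : (s : ℝ) - 1 ≤ (u - (x + N * θ - J)) / g := by
      have := Nat.floor_le (a := (u - (x + N * θ - J)) / g)
        (div_nonneg (by linarith) hg0.le)
      push_cast [hs]
      linarith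
    rw [div_lt_iff₀ hg0] at hs1
    rw [le_div_iff₀ hg0] at hs2
    refine ⟨N + s * m.toNat, by omega, J - s * n, ?_⟩
    have hmc : ((m.toNat : ℕ) : ℝ) = (m : ℝ) := by
      have : ((m.toNat : ℕ) : ℤ) = m := Int.toNat_of_nonneg (by omega)
      exact_mod_cast this
    have e1 : x + ((N + s * m.toNat : ℕ) : ℝ) * θ - ((J - s * n : ℤ) : ℝ) =
        x + N * θ - J + s * g := by
      push_cast
      rw [hmc, ← hmn]
      ring
    rw [e1]
    constructor <;> nlinarith

lemma irrational_mul_logb {k : ℕ} (hk : 2 ≤ k) (hpow : ∀ e : ℕ, k ≠ 2 ^ e) {p : ℕ} (hp : 0 < p) :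
    Irrational (p * Real.logb 2 k) := by
  rintro ⟨r, hr⟩
  have hlog2 : 0 < Real.log 2 := Real.log_pos (by norm_num)
  have hlogk : 0 < Real.log k := Real.log_pos (by exact_mod_cast hk)
  have hpos : 0 < (p : ℝ) * Real.logb 2 k := by
    unfold Real.logb
    positivity
  have hr0 : 0 < r := by
    rw [← hr] at hpos
    exact_mod_cast hpos
  have hnum : 0 < r.num := Rat.num_pos.2 hr0
  obtain ⟨a, ha⟩ : ∃ a : ℕ, r.num = a := ⟨r.num.toNat, (Int.toNat_of_nonneg hnum.le).symm⟩
  have hrr : (r : ℝ) = (a : ℝ) / r.den := by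
    rw [Rat.cast_def, ha]; simp
  have hden : (0 : ℝ) < r.den := by exact_mod_cast r.pos
  rw [hrr] at hr
  unfold Real.logb at hr
  have h1 : (a : ℝ) * Real.log 2 = (p * r.den : ℕ) * Real.log k := by
    push_cast
    field_simp at hr
    linarith
  have h2 : Real.log ((2 : ℝ) ^ a) = Real.log ((k : ℝ) ^ (p * r.den)) := by
    rw [Real.log_pow, Real.log_pow]
    exact h1
  have h3 : (2 : ℝ) ^ a = (k : ℝ) ^ (p * r.den) := by
    apply Real.log_injOn_pos _ _ h2
    · exact Set.mem_Ioi.2 (by positivity)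
    · have : (0 : ℝ) < k := by exact_mod_cast (by omega : 0 < k)
      exact Set.mem_Ioi.2 (by positivity)
  have h4 : 2 ^ a = k ^ (p * r.den) := by exact_mod_cast h3
  have h5 : k ∣ 2 ^ a := by
    rw [h4]
    exact dvd_pow_self k (Nat.mul_ne_zero (by omega) r.den_nz)
  obtain ⟨e, -, he⟩ := (Nat.dvd_prime_pow Nat.prime_two).1 h5
  exact hpow e he

/-- Powers of `k` (not a power of `2`) are dense in the binary scale. -/
lemma dense_pow {k : ℕ} (hk : 2 ≤ k) (hpow : ∀ e : ℕ, k ≠ 2 ^ e) {p : ℕ} (hp : 0 < p)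
    {c α β : ℝ} (hc : 0 < c) (hα : 0 < α) (hαβ : α < β) (N : ℕ) :
    ∃ q : ℕ, N ≤ q ∧ ∃ t : ℕ, N ≤ t ∧ α * 2 ^ t < c * k ^ (q * p) ∧ c * k ^ (q * p) < β * 2 ^ t := by
  have hβ : 0 < β := hα.trans hαβ
  have hk0 : (1 : ℝ) < k := by exact_mod_cast hk
  have hk00 : (0 : ℝ) < k := by linarith
  -- lower bound for `q` making `t ≥ N`
  obtain ⟨N1, hN1⟩ : ∃ N1 : ℕ, β * 2 ^ N / c < (k : ℝ) ^ N1 :=
    pow_unbounded_of_one_lt _ hk0
  obtain ⟨q, hq, j, h1, h2⟩ := dense_seq (irrational_mul_logb hk hpow hp)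
    (Real.logb 2 c) (Real.logb 2 α) (Real.logb 2 β)
    (Real.logb_lt_logb (by norm_num) hα hαβ) (N + N1)
  have hX : (2 : ℝ) ^ (Real.logb 2 c + q * (p * Real.logb 2 k) - j) =
      c * k ^ (q * p) / 2 ^ j := by
    rw [Real.rpow_sub (by norm_num), Real.rpow_add (by norm_num), Real.rpow_logb (by norm_num)
      (by norm_num) hc, Real.rpow_intCast]
    congr 2
    rw [show (q : ℝ) * (p * Real.logb 2 k) = Real.logb 2 k * (q * p : ℕ) by push_cast; ring,
      Real.rpow_mul (by norm_num), Real.rpow_logb (by norm_num) (by norm_num) hk00,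
      Real.rpow_natCast]
  have h3 : α < c * k ^ (q * p) / 2 ^ j := by
    rw [← hX]
    calc α = 2 ^ (Real.logb 2 α) := (Real.rpow_logb (by norm_num) (by norm_num) hα).symm
      _ < _ := Real.rpow_lt_rpow_of_exponent_lt (by norm_num) h1
  have h4 : c * k ^ (q * p) / 2 ^ j < β := by
    rw [← hX]
    calc _ < (2 : ℝ) ^ (Real.logb 2 β) := Real.rpow_lt_rpow_of_exponent_lt (by norm_num) h2
      _ = β := Real.rpow_logb (by norm_num) (by norm_num) hβ
  have h2j : (0 : ℝ) < (2 : ℝ) ^ j := by positivity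
  rw [lt_div_iff₀ h2j] at h3
  rw [div_lt_iff₀ h2j] at h4
  have hjN : (N : ℤ) ≤ j := by
    by_contra hcon
    push Not at hcon
    have h5 : (2 : ℝ) ^ j ≤ 2 ^ (N : ℤ) := zpow_le_zpow_right₀ (by norm_num) hcon.le
    rw [zpow_natCast] at h5
    have h6 : (k : ℝ) ^ N1 ≤ k ^ (q * p) := pow_le_pow_right₀ hk0.le (by nlinarith)
    rw [div_lt_iff₀ hc] at hN1
    have h7 : c * k ^ (q * p) < β * 2 ^ N := lt_of_lt_of_le h4 (mul_le_mul_of_nonneg_left h5 hβ.le)
    nlinarith
  obtain ⟨t, rfl⟩ : ∃ t : ℕ, j = t := ⟨j.toNat, (Int.toNat_of_nonneg (by omega)).symm⟩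
  refine ⟨q, by omega, t, by exact_mod_cast hjN, ?_, ?_⟩
  · simpa [zpow_natCast] using h3
  · simpa [zpow_natCast] using h4

end Pool.Agent.V11310.Reg
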