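import Mathlib
import Pool.Agent.V11310.Reg

namespace Pool.Agent.V11310.BaumSweet

open Pool.Agent.V11310.Reg

/-- `i, l` describe a maximal block of zeros of length `l` in the binary expansion of `m`
(written without leading zeros), occupying the positions `i, i+1, …, i+l-1`. -/
def IsZeroBlock (m i l : ℕ) : Prop :=
  0 < l ∧ (∀ j, i ≤ j → j < i + l → m.testBit j = false) ∧ m.testBit (i + l) = true ∧
    (i = 0 ∨ m.testBit (i - 1) = true)

/-- `b^{(r)}_m = 1`. -/
def B (r m : ℕ) : Prop := ∀ i l, IsZeroBlock m i l → r ∣ l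

open Classical in
/-- number of `m < x` with `B r m` -/
noncomputable def A (r x : ℕ) : ℕ := Nat.count (B r) x

open Classical in
/-- number of `m < x` with `¬ B r m` -/
noncomputable def C (r x : ℕ) : ℕ := Nat.count (fun m => ¬ B r m) x

lemma C_add_A (r x : ℕ) : C r x + A r x = x := by
  classical
  unfold C A
  induction x with
  | zero => simp
  | succ x ih =>
    rw [Nat.count_succ, Nat.count_succ]
    by_cases h : B r x
    · simp only [h, not_true_eq_false, if_false, if_true]; omega
    · simp only [h, not_false_eq_true, if_false, if_true]; omega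

lemma A_mono (r : ℕ) {x y : ℕ} (h : x ≤ y) : A r x ≤ A r y := by
  classical
  exact Nat.count_monotone _ h

lemma C_mono (r : ℕ) {x y : ℕ} (h : x ≤ y) : C r x ≤ C r y := by
  classical
  exact Nat.count_monotone _ h

lemma C_succ_of_not {r x : ℕ} (h : ¬ B r x) : C r (x + 1) = C r x + 1 := by
  classical
  unfold C
  rw [Nat.count_succ]
  simp [h]

lemma C_succ_of {r x : ℕ} (h : B r x) : C r (x + 1) = C r x := by
  classical
  unfold C
  rw [Nat.count_succ]
  simp [h]

lemma C_run {r a L : ℕ} (h : ∀ s < L, ¬ B r (a + s)) : ∀ s ≤ L, C r (a + s) = C r a + s := by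
  intro s
  induction s with
  | zero => intro _; simp
  | succ s ih =>
    intro hs
    rw [← add_assoc, C_succ_of_not (h s (by omega)), ih (by omega)]
    ring

/-! ### bits -/

lemma not_B_run {r t m : ℕ} (hr : 2 ≤ r) (ht : r ≤ t) (hm : m.testBit t = true)
    (h1 : 2 ^ (t - r) ≤ m % 2 ^ t) (h2 : m % 2 ^ t < 2 ^ (t - 1)) : ¬ B r m := by
  intro hB
  set z := m % 2 ^ t with hz
  have hz0 : z ≠ 0 := by
    have := Nat.two_pow_pos (t - r)
    omega
  obtain ⟨hu1, hu2⟩ : 2 ^ z.log2 ≤ z ∧ z < 2 ^ (z.log2 + 1) :=
    ⟨Nat.log2_self_le hz0, Nat.lt_log2_self⟩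
  set u := z.log2 with hu
  have hbit : z.testBit u = true := by rw [hu]; exact Nat.testBit_log2 hz0
  have hu3 : u < t - 1 := by
    have : 2 ^ u < 2 ^ (t - 1) := lt_of_le_of_lt hu1 h2
    exact (Nat.pow_lt_pow_iff_right (by norm_num)).1 this
  have hu4 : t - r < u + 1 := by
    have : 2 ^ (t - r) < 2 ^ (u + 1) := lt_of_le_of_lt h1 hu2
    exact (Nat.pow_lt_pow_iff_right (by norm_num)).1 this
  have hlow : ∀ j, j < t → m.testBit j = z.testBit j := by
    intro j hj
    rw [hz, Nat.testBit_mod_two_pow]
    simp [hj]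
  have := hB (u + 1) (t - 1 - u) ⟨by omega, ?_, ?_, ?_⟩
  · have := Nat.le_of_dvd (by omega) this
    omega
  · intro j hj1 hj2
    rw [hlow j (by omega)]
    exact Nat.testBit_lt_two_pow (lt_of_lt_of_le hu2 (Nat.pow_le_pow_right (by norm_num) hj1))
  · rw [show u + 1 + (t - 1 - u) = t by omega]
    exact hm
  · right
    rw [Nat.add_sub_cancel, hlow u (by omega)]
    exact hbit

lemma not_B_mod_four {r m : ℕ} (hr : 2 ≤ r) (hm : m % 4 = 2) : ¬ B r m := by
  intro hB
  have := hB 0 1 ⟨one_pos, ?_, ?_, Or.inl rfl⟩
  · have := Nat.le_of_dvd one_pos this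
    omega
  · intro j _ hj
    have : j = 0 := by omega
    subst this
    rw [Nat.testBit_zero]
    simp
    omega
  · rw [Nat.testBit_eq_decide_div_mod_eq]
    simp
    omega

lemma testBit_two_pow_add_of_lt {j y : ℕ} (hy : y < 2 ^ j) (x : ℕ) :
    (2 ^ j + y).testBit x = if x < j then y.testBit x else decide (x = j) := by
  rcases lt_trichotomy x j with h | h | h
  · rw [if_pos h]
    exact Nat.testBit_two_pow_add_gt h y
  · subst h
    rw [if_neg (lt_irrefl _), Nat.testBit_two_pow_add_eq, Nat.testBit_lt_two_pow hy]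
    simp
  · rw [if_neg (by omega)]
    have : (2 ^ j + y).testBit x = false := by
      apply Nat.testBit_lt_two_pow
      calc 2 ^ j + y < 2 ^ j + 2 ^ j := by omega
        _ = 2 ^ (j + 1) := by ring
        _ ≤ 2 ^ x := Nat.pow_le_pow_right (by norm_num) h
    rw [this]
    simp
    omega

lemma B_base {r t : ℕ} (ht : r ≤ t) : B r (2 ^ t + (2 ^ (t - r) - 1)) := by
  have hlt : 2 ^ (t - r) - 1 < 2 ^ t := by
    have h1 : 2 ^ (t - r) ≤ 2 ^ t := Nat.pow_le_pow_right (by norm_num) (by omega)
    have h2 := Nat.two_pow_pos (t - r)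
    omega
  rintro i l ⟨hl, hz, ho, hb⟩
  have h0 := hz i le_rfl (by omega)
  rw [testBit_two_pow_add_of_lt hlt, Nat.testBit_two_pow_sub_one] at h0 ho
  rw [testBit_two_pow_add_of_lt hlt, Nat.testBit_two_pow_sub_one] at hb
  have e1 : i + l = t := by
    by_contra hne
    split_ifs at h0 ho <;> simp at h0 ho <;> omega
  have e2 : i = t - r := by
    rw [if_pos (by omega)] at h0
    simp at h0
    rcases hb with hb | hb
    · omega
    · rw [if_pos (by omega)] at hb
      simp at hb
      omega
  have : l = r := by omega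
  rw [this]

lemma B_base' {r t j : ℕ} (ht : r ≤ t) (hj : t < j) (hd : r ∣ j - 1 - t) :
    B r (2 ^ j + (2 ^ t + (2 ^ (t - r) - 1))) := by
  have hlt : 2 ^ (t - r) - 1 < 2 ^ t := by
    have h1 : 2 ^ (t - r) ≤ 2 ^ t := Nat.pow_le_pow_right (by norm_num) (by omega)
    have h2 := Nat.two_pow_pos (t - r)
    omega
  have hlt' : 2 ^ t + (2 ^ (t - r) - 1) < 2 ^ j := by
    calc 2 ^ t + (2 ^ (t - r) - 1) < 2 ^ t + 2 ^ t := by omega
      _ = 2 ^ (t + 1) := by ring
      _ ≤ 2 ^ j := Nat.pow_le_pow_right (by norm_num) hj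
  have hbit : ∀ x, (2 ^ j + (2 ^ t + (2 ^ (t - r) - 1))).testBit x = true ↔
      x < t - r ∨ x = t ∨ x = j := by
    intro x
    rw [testBit_two_pow_add_of_lt hlt', testBit_two_pow_add_of_lt hlt, Nat.testBit_two_pow_sub_one]
    split_ifs <;> simp <;> omega
  rintro i l ⟨hl, hz, ho, hb⟩
  have h0 := hz i le_rfl (by omega)
  have h0' : ¬ (i < t - r ∨ i = t ∨ i = j) := by
    rw [← hbit]; simp [h0]
  rw [hbit] at ho hb
  by_cases e1 : i + l = t
  · have : l = r := by omega
    rw [this]
  · have e2 : i + l = j := by omega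
    have e3 : t < i := by
      by_contra hcon
      have := hz t (by omega) (by omega)
      have h3 := (hbit t).2 (by omega)
      rw [this] at h3
      exact absurd h3 (by simp)
    have : l = j - 1 - t := by omega
    rw [this]
    exact hd

lemma B_shift {r j j' y : ℕ} (hy : y < 2 ^ j) (hjj : j ≤ j') (hd : r ∣ j' - j) :
    B r (2 ^ j + y) ↔ B r (2 ^ j' + y) := by
  have hy' : y < 2 ^ j' := lt_of_lt_of_le hy (Nat.pow_le_pow_right (by norm_num) hjj)
  have hyz : ∀ x, j ≤ x → y.testBit x = false := fun x hx =>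
    Nat.testBit_lt_two_pow (lt_of_lt_of_le hy (Nat.pow_le_pow_right (by norm_num) hx))
  have hbit : ∀ x, (2 ^ j + y).testBit x = true ↔ (x < j ∧ y.testBit x = true) ∨ x = j := by
    intro x
    rw [testBit_two_pow_add_of_lt hy]
    split_ifs with h
    · constructor
      · intro h'; exact Or.inl ⟨h, h'⟩
      · rintro (h' | h')
        · exact h'.2
        · omega
    · simp; omega
  have hbit' : ∀ x, (2 ^ j' + y).testBit x = true ↔ (x < j ∧ y.testBit x = true) ∨ x = j' := by
    intro x
    rw [testBit_two_pow_add_of_lt hy']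
    split_ifs with h
    · constructor
      · intro h'
        rcases lt_or_ge x j with h2 | h2
        · exact Or.inl ⟨h2, h'⟩
        · rw [hyz x h2] at h'; exact absurd h' (by simp)
      · rintro (h' | h')
        · exact h'.2
        · omega
    · simp; omega
  have hf : ∀ x, (2 ^ j + y).testBit x = false ↔ ¬ ((x < j ∧ y.testBit x = true) ∨ x = j) := by
    intro x
    rw [← hbit]; simp
  have hf' : ∀ x, (2 ^ j' + y).testBit x = false ↔ ¬ ((x < j ∧ y.testBit x = true) ∨ x = j') := by
    intro x
    rw [← hbit']; simp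
  constructor
  · rintro hB i l ⟨hl, hz, ho, hb⟩
    rw [hbit'] at ho hb
    by_cases hil : i + l < j
    · -- same block
      apply hB i l
      refine ⟨hl, ?_, ?_, ?_⟩
      · intro x hx1 hx2
        have := hz x hx1 hx2
        rw [hf'] at this
        rw [hf]
        intro hcon
        rcases hcon with hcon | hcon
        · exact this (Or.inl hcon)
        · omega
      · rw [hbit]
        rcases ho with ho | ho
        · exact Or.inl ho
        · omega
      · rcases hb with hb | hb | hb
        · exact Or.inl hb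
        · exact Or.inr ((hbit _).2 (Or.inl hb))
        · omega
    · have e1 : i + l = j' := by
        rcases ho with ho | ho
        · omega
        · exact ho
      have e2 : i ≤ j := by
        by_contra hcon
        rcases hb with hb | hb | hb
        · omega
        · omega
        · omega
      rcases eq_or_lt_of_le e2 with e3 | e3
      · have : l = j' - j := by omega
        rw [this]; exact hd
      · have h4 := hB i (j - i) ⟨by omega, ?_, ?_, ?_⟩
        · have : l = (j - i) + (j' - j) := by omega
          rw [this]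
          exact dvd_add h4 hd
        · intro x hx1 hx2
          have := hz x hx1 (by omega)
          rw [hf'] at this
          rw [hf]
          intro hcon
          rcases hcon with hcon | hcon
          · exact this (Or.inl hcon)
          · omega
        · rw [hbit]; right; omega
        · rcases hb with hb | hb | hb
          · exact Or.inl hb
          · exact Or.inr ((hbit _).2 (Or.inl hb))
          · omega
  · rintro hB i l ⟨hl, hz, ho, hb⟩
    rw [hbit] at ho hb
    by_cases hil : i + l < j
    · apply hB i l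
      refine ⟨hl, ?_, ?_, ?_⟩
      · intro x hx1 hx2
        have := hz x hx1 hx2
        rw [hf] at this
        rw [hf']
        intro hcon
        rcases hcon with hcon | hcon
        · exact this (Or.inl hcon)
        · omega
      · rw [hbit']
        rcases ho with ho | ho
        · exact Or.inl ho
        · omega
      · rcases hb with hb | hb | hb
        · exact Or.inl hb
        · exact Or.inr ((hbit' _).2 (Or.inl hb))
        · omega
    · have e1 : i + l = j := by
        rcases ho with ho | ho
        · omega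
        · exact ho
      have h4 := hB i (j' - i) ⟨by omega, ?_, ?_, ?_⟩
      · have : j' - i = l + (j' - j) := by omega
        rw [this] at h4
        exact (Nat.dvd_add_left hd).1 h4
      · intro x hx1 hx2
        rw [hf']
        intro hcon
        rcases hcon with hcon | hcon
        · have := hz x hx1 (by omega)
          rw [hf] at this
          exact this (Or.inl hcon)
        · omega
      · rw [hbit']; right; omega
      · rcases hb with hb | hb | hb
        · exact Or.inl hb
        · exact Or.inr ((hbit' _).2 (Or.inl hb))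
        · omega

lemma C_shift {r j j' y : ℕ} (hy : y ≤ 2 ^ j) (hjj : j ≤ j') (hd : r ∣ j' - j) :
    C r (2 ^ j' + y) + C r (2 ^ j) = C r (2 ^ j + y) + C r (2 ^ j') := by
  classical
  induction y with
  | zero => simp; ring
  | succ y ih =>
    have ih := ih (by omega)
    have hsh := B_shift (r := r) (y := y) (by omega) hjj hd
    rw [← add_assoc, ← add_assoc]
    by_cases h : B r (2 ^ j + y)
    · rw [C_succ_of h, C_succ_of (hsh.1 h)]
      exact ih
    · rw [C_succ_of_not h, C_succ_of_not (fun h' => h (hsh.2 h'))]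
      omega

/-! ### density zero -/

/-- the first `s` base-8 digits of `m` are different from `5` -/
def Dig (s m : ℕ) : Prop := ∀ i < s, (m / 8 ^ i) % 8 ≠ 5

instance (s m : ℕ) : Decidable (Dig s m) := by unfold Dig; infer_instance

lemma Dig_succ (s m : ℕ) : Dig (s + 1) m ↔ m % 8 ≠ 5 ∧ Dig s (m / 8) := by
  unfold Dig
  constructor
  · intro h
    refine ⟨by simpa using h 0 (by omega), fun i hi => ?_⟩
    have := h (i + 1) (by omega)
    rw [pow_succ', ← Nat.div_div_eq_div_mul] at this
    exact this
  · rintro ⟨h0, h1⟩ i hi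
    rcases Nat.eq_zero_or_pos i with rfl | hpos
    · simpa using h0
    · obtain ⟨i', rfl⟩ : ∃ i', i = i' + 1 := ⟨i - 1, by omega⟩
      rw [pow_succ', ← Nat.div_div_eq_div_mul]
      exact h1 i' (by omega)

lemma count_Dig_succ (s x : ℕ) :
    Nat.count (Dig (s + 1)) (8 * x) = 7 * Nat.count (Dig s) x := by
  induction x with
  | zero => simp
  | succ x ih =>
    have key : ∀ c < 8, (Dig (s + 1) (8 * x + c) ↔ c ≠ 5 ∧ Dig s x) := by
      intro c hc
      rw [Dig_succ, show (8 * x + c) % 8 = c by omega, show (8 * x + c) / 8 = x by omega]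
    have k0 := key 0 (by omega)
    have k1 := key 1 (by omega)
    have k2 := key 2 (by omega)
    have k3 := key 3 (by omega)
    have k4 := key 4 (by omega)
    have k5 := key 5 (by omega)
    have k6 := key 6 (by omega)
    have k7 := key 7 (by omega)
    rw [show 8 * (x + 1) = 8 * x + 0 + 1 + 1 + 1 + 1 + 1 + 1 + 1 + 1 by ring]
    simp only [Nat.count_succ]
    simp only [add_zero, add_assoc] at *
    norm_num at *
    by_cases h : Dig s x
    · simp only [k0, k1, k2, k3, k4, k5, k6, k7, h, if_true, if_false]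
      rw [ih]
      omega
    · simp only [k0, k1, k2, k3, k4, k5, k6, k7, h, if_false]
      rw [ih]
      omega

lemma count_Dig (s x : ℕ) : Nat.count (Dig s) (8 ^ s * x) = 7 ^ s * x := by
  induction s generalizing x with
  | zero =>
    simp only [pow_zero, one_mul]
    have : ∀ x, Nat.count (Dig 0) x = x := by
      intro x
      induction x with
      | zero => simp
      | succ x ih =>
        rw [Nat.count_succ, ih]
        simp [Dig]
    exact this x
  | succ s ih =>
    rw [pow_succ', mul_assoc, count_Dig_succ, ih]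
    ring

lemma B_imp_Dig {r : ℕ} (hr : 2 ≤ r) (s m : ℕ) (h : B r m) : Dig s m := by
  intro i _ hcon
  have hb : ∀ c < 3, m.testBit (3 * i + c) = Nat.testBit 5 c := by
    intro c hc
    have : m.testBit (3 * i + c) = ((m / 8 ^ i) % 8).testBit c := by
      rw [show (8 : ℕ) = 2 ^ 3 by norm_num, ← pow_mul, Nat.testBit_mod_two_pow,
        Nat.testBit_div_two_pow]
      simp [hc, add_comm]
    rw [this, hcon]
  have h0 := hb 0 (by omega)
  have h1 := hb 1 (by omega)
  have h2 := hb 2 (by omega)
  have e0 : Nat.testBit 5 0 = true := by decide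
  have e1 : Nat.testBit 5 1 = false := by decide
  have e2 : Nat.testBit 5 2 = true := by decide
  rw [e0] at h0
  rw [e1] at h1
  rw [e2] at h2
  have := h (3 * i + 1) 1 ⟨one_pos, ?_, ?_, ?_⟩
  · have := Nat.le_of_dvd one_pos this
    omega
  · intro x hx1 hx2
    rw [show x = 3 * i + 1 by omega]
    exact h1
  · rw [show 3 * i + 1 + 1 = 3 * i + 2 by ring]; exact h2
  · right
    simpa using h0

lemma A_le {r : ℕ} (hr : 2 ≤ r) (s x : ℕ) : (A r x : ℝ) ≤ (7 / 8) ^ s * x + 7 ^ s := by
  classical
  have h1 : A r x ≤ A r (8 ^ s * (x / 8 ^ s + 1)) := by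
    apply A_mono
    have := Nat.lt_mul_div_succ x (show 0 < 8 ^ s by positivity)
    exact this.le
  have h2 : A r (8 ^ s * (x / 8 ^ s + 1)) ≤ 7 ^ s * (x / 8 ^ s + 1) := by
    rw [← count_Dig]
    unfold A
    have : ∀ n, Nat.count (B r) n ≤ Nat.count (Dig s) n := by
      intro n
      induction n with
      | zero => simp
      | succ n ih =>
        rw [Nat.count_succ, Nat.count_succ]
        by_cases hB : B r n
        · simp only [hB, B_imp_Dig hr s n hB, if_true]; omega
        · simp only [hB, if_false]; omega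
    exact this _
  have h3 : (A r x : ℝ) ≤ 7 ^ s * ((x / 8 ^ s : ℕ) + 1) := by exact_mod_cast h1.trans h2
  have h4 : ((x / 8 ^ s : ℕ) : ℝ) ≤ x / 8 ^ s := by
    have := Nat.cast_div_le (m := x) (n := 8 ^ s) (α := ℝ)
    push_cast at this
    exact this
  calc (A r x : ℝ) ≤ 7 ^ s * ((x / 8 ^ s : ℕ) + 1) := h3
    _ ≤ 7 ^ s * (x / 8 ^ s + 1) := by
        apply mul_le_mul_of_nonneg_left _ (by positivity)
        linarith
    _ = (7 / 8) ^ s * x + 7 ^ s := by
        rw [div_pow]
        ring

lemma A_small {r : ℕ} (hr : 2 ≤ r) {ε : ℝ} (hε : 0 < ε) :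
    ∃ X : ℕ, ∀ x ≥ X, (A r x : ℝ) ≤ ε * x := by
  obtain ⟨s, hs⟩ := exists_pow_lt_of_lt_one (half_pos hε) (show (7 / 8 : ℝ) < 1 by norm_num)
  obtain ⟨X, hX⟩ := exists_nat_gt (7 ^ s / (ε / 2))
  refine ⟨X, fun x hx => ?_⟩
  have h1 := A_le hr s x
  have h2 : (X : ℝ) ≤ x := by exact_mod_cast hx
  rw [div_lt_iff₀ (half_pos hε)] at hX
  have hx0 : (0 : ℝ) ≤ x := by positivity
  nlinarith

end Pool.Agent.V11310.BaumSweet
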