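import Mathlib
import Pool.Agent.V11310.Reg
import Pool.Agent.V11310.BaumSweet

namespace Pool.Agent.V11310.BaumSweet

open Pool.Agent.V11310.Reg

open Classical in
/-- enumeration of the zero positions -/
noncomputable def hh (r n : ℕ) : ℕ := Nat.nth (fun m => ¬ B r m) n

lemma hh_C {r m : ℕ} (h : ¬ B r m) : hh r (C r m) = m := by
  classical
  unfold hh C
  exact Nat.nth_count (p := fun m => ¬ B r m) h

lemma gap_one {r m : ℕ} (h : ¬ B r m) (h' : ¬ B r (m + 1)) :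
    hh r (C r m + 1) = hh r (C r m) + 1 := by
  rw [← C_succ_of_not h, hh_C h', hh_C h]

lemma gap_two {r m : ℕ} (h : ¬ B r m) (h' : B r (m + 1)) (h'' : ¬ B r (m + 2)) :
    hh r (C r m + 1) = hh r (C r m) + 2 := by
  have : C r (m + 2) = C r m + 1 := by
    rw [show m + 2 = m + 1 + 1 by ring, C_succ_of h', C_succ_of_not h]
  rw [← this, hh_C h'', hh_C h]

/-- in a run of zeros, the enumeration has gap one. -/
lemma gap_run {r a L n : ℕ} (h : ∀ s < L, ¬ B r (a + s)) (h1 : C r a ≤ n)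
    (h2 : n + 1 < C r a + L) : hh r (n + 1) = hh r n + 1 := by
  obtain ⟨s, rfl⟩ := Nat.exists_eq_add_of_le h1
  rw [← C_run h s (by omega)]
  exact gap_one (h s (by omega)) (by rw [add_assoc]; exact h (s + 1) (by omega))

/-- The run after `2^t + 2^(t-r)`. -/
lemma run {r t : ℕ} (hr : 2 ≤ r) (ht : r ≤ t) :
    ∀ s < 2 ^ (t - 1) - 2 ^ (t - r), ¬ B r (2 ^ t + 2 ^ (t - r) + s) := by
  intro s hs
  have h3 : 2 ^ (t - 1) < 2 ^ t := Nat.pow_lt_pow_right (by norm_num) (by omega)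
  have h4 : (2 ^ t + 2 ^ (t - r) + s) % 2 ^ t = 2 ^ (t - r) + s := by
    rw [add_assoc, Nat.add_mod_left]
    exact Nat.mod_eq_of_lt (by omega)
  apply not_B_run hr ht
  · rw [add_assoc, testBit_two_pow_add_of_lt (by omega)]
    simp
  · rw [h4]; omega
  · rw [h4]; omega

/-- The run after `2^j + (2^t + 2^(t-r))`. -/
lemma run' {r t j : ℕ} (hr : 2 ≤ r) (ht : r ≤ t) (hj : t < j) :
    ∀ s < 2 ^ (t - 1) - 2 ^ (t - r), ¬ B r (2 ^ j + (2 ^ t + 2 ^ (t - r)) + s) := by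
  intro s hs
  have h3 : 2 ^ (t - 1) < 2 ^ t := Nat.pow_lt_pow_right (by norm_num) (by omega)
  have h5 : 2 ^ j = 2 ^ t * 2 ^ (j - t) := by rw [← pow_add]; congr 1; omega
  have h6 : 2 ^ t + 2 ^ t ≤ 2 ^ j := by
    calc 2 ^ t + 2 ^ t = 2 ^ (t + 1) := by ring
      _ ≤ 2 ^ j := Nat.pow_le_pow_right (by norm_num) hj
  have h4 : (2 ^ j + (2 ^ t + 2 ^ (t - r)) + s) % 2 ^ t = 2 ^ (t - r) + s := by
    rw [h5, show 2 ^ t * 2 ^ (j - t) + (2 ^ t + 2 ^ (t - r)) + s =
      (2 ^ (t - r) + s) + 2 ^ t * (2 ^ (j - t) + 1) by ring, Nat.add_mul_mod_self_left]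
    exact Nat.mod_eq_of_lt (by omega)
  apply not_B_run hr ht
  · rw [add_assoc, testBit_two_pow_add_of_lt (by omega), if_pos hj, add_assoc,
      testBit_two_pow_add_of_lt (by omega)]
    simp
  · rw [h4]; omega
  · rw [h4]; omega

/-- Case where `k` is not a power of two. -/
theorem not_regular_of_not_pow {r k : ℕ} (hr : 2 ≤ r) (hk : 2 ≤ k) (hpow : ∀ e : ℕ, k ≠ 2 ^ e) :
    ¬ IsRegular k (fun n => (hh r n : ℤ)) := by
  intro hreg
  obtain ⟨i, p, hp, h⟩ := exists_period_iter (M := 2) (by omega) hreg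
  -- notation
  set K : ℝ := (k : ℝ) ^ i with hK
  have hk1 : (1 : ℝ) ≤ k := by exact_mod_cast (by omega : 1 ≤ k)
  have hK1 : 1 ≤ K := one_le_pow₀ hk1
  set ρ : ℝ := 1 / K with hρ
  have hρ0 : 0 < ρ := by positivity
  have hρ1 : ρ ≤ 1 := by rw [hρ, div_le_one (by linarith)]; exact hK1
  have hρK : ρ * K = 1 := by rw [hρ]; field_simp
  set lam : ℝ := 1 + (1 / 2) ^ r with hlam
  have hlam1 : 1 < lam := by
    have : (0 : ℝ) < (1 / 2) ^ r := by positivity
    linarith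
  have hlam2 : lam ≤ 5 / 4 := by
    have : ((1 : ℝ) / 2) ^ r ≤ (1 / 2) ^ 2 := pow_le_pow_of_le_one (by norm_num) (by norm_num) hr
    norm_num at this
    linarith
  have hpow2 : ∀ t, r ≤ t → ((2 : ℝ) ^ (t - r)) = 2 ^ t * (1 / 2) ^ r := by
    intro t ht
    rw [pow_sub₀ _ (by norm_num) ht, one_div, inv_pow]
  obtain ⟨X1, hX1⟩ := A_small hr (show 0 < ρ / 8 by positivity)
  obtain ⟨X2, hX2⟩ := A_small hr (show (0 : ℝ) < 1 / 24 by norm_num)
  obtain ⟨N0, hN0⟩ := exists_nat_gt (16 / ρ)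
  -- first choice
  obtain ⟨l, -, t, ht, hl1, hl2⟩ := dense_pow hk hpow one_pos (c := K)
    (α := lam * (1 - ρ / 2)) (β := lam * (1 - ρ / 4)) (by linarith)
    (by apply mul_pos <;> linarith) (by nlinarith) (X1 + N0 + r + 2)
  rw [mul_one, hK, ← pow_add] at hl1 hl2
  set T : ℝ := (2 : ℝ) ^ t with hT
  have hTX' : X1 + N0 + r + 2 ≤ 2 ^ t := by
    have h1 : t < 2 ^ t := Nat.lt_two_pow_self
    omega
  have hTX : (X1 + N0 + r + 2 : ℝ) ≤ T := by
    rw [hT]
    exact_mod_cast hTX'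
  have hTpos : 0 < T := by positivity
  -- `m = m0 - 1`
  set w : ℕ := 2 ^ (t - r) with hw
  have hw4 : 4 ≤ w := by
    calc 4 = 2 ^ 2 := by norm_num
      _ ≤ 2 ^ (t - r) := Nat.pow_le_pow_right (by norm_num) (by omega)
  have hwd : 4 ∣ w := by
    have : 2 ^ 2 ∣ 2 ^ (t - r) := pow_dvd_pow 2 (by omega)
    simpa using this
  have htd : 4 ∣ 2 ^ t := by
    have : 2 ^ 2 ∣ 2 ^ t := pow_dvd_pow 2 (by omega)
    simpa using this
  set m : ℕ := 2 ^ t + (w - 2) with hm
  have hmlam : (m : ℝ) = lam * T - 2 := by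
    rw [hm]
    push_cast [Nat.cast_sub (show 2 ≤ w by omega)]
    rw [hw]
    push_cast
    rw [hpow2 t (by omega), hlam]
    ring
  have hB0 : ¬ B r m := not_B_mod_four hr (by omega)
  have hB1 : B r (m + 1) := by
    have := B_base (r := r) (t := t) (by omega)
    rw [show m + 1 = 2 ^ t + (2 ^ (t - r) - 1) by omega]
    exact this
  have hB2 : ¬ B r (m + 2) := by
    have := run (r := r) (t := t) hr (by omega) 0 (by
      have : 2 ^ (t - r) < 2 ^ (t - 1) := Nat.pow_lt_pow_right (by norm_num) (by omega)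
      omega)
    rw [show m + 2 = 2 ^ t + 2 ^ (t - r) + 0 by omega]
    exact this
  have hgap2 := gap_two hB0 hB1 hB2
  set n := C r m with hn
  have hnA : n + A r m = m := C_add_A r m
  have hAm : (A r m : ℝ) ≤ ρ / 8 * m := hX1 m (by omega)
  have hnA' : (n : ℝ) + A r m = m := by exact_mod_cast hnA
  have hA0 : (0 : ℝ) ≤ A r m := by positivity
  have hkl : ((k : ℝ) ^ (i + l)) * ρ = k ^ l := by
    rw [pow_add, ← hK]
    rw [mul_comm K, mul_assoc, mul_comm K, hρK, mul_one]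
  have hn1 : (k : ℝ) ^ (i + l) ≤ n := by
    have h1 : (N0 : ℝ) * ρ > 16 := by
      rw [gt_iff_lt, ← div_lt_iff₀ hρ0]; exact hN0
    have h2 : T * ρ > 16 := by nlinarith
    have h3 : lam * T * (ρ / 8) ≥ 2 := by nlinarith
    nlinarith
  have hn2 : (n : ℝ) + 1 < k ^ (i + l) + k ^ l := by
    rw [← hkl]
    have h1 : (1 + ρ) * (1 - ρ / 2) ≥ 1 := by nlinarith
    have h2 : lam * T ≤ (1 + ρ) * (lam * (1 - ρ / 2) * T) := by nlinarith [mul_pos (show 0 < lam by linarith) hTpos]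
    have h3 : (1 + ρ) * (lam * (1 - ρ / 2) * T) < (1 + ρ) * k ^ (i + l) :=
      mul_lt_mul_of_pos_left hl1 (by linarith)
    nlinarith
  have hn1' : k ^ (i + l) ≤ n := by exact_mod_cast hn1
  have hn2' : n + 1 < k ^ (i + l) + k ^ l := by exact_mod_cast hn2
  obtain ⟨s, hs⟩ := Nat.exists_eq_add_of_le hn1'
  -- second choice
  obtain ⟨N1, hN1⟩ := exists_nat_gt (16 * (k : ℝ) ^ l)
  obtain ⟨q, -, t', ht', hq1, hq2⟩ := dense_pow hk hpow hp (c := (k : ℝ) ^ (i + l))
    (α := 5 / 4) (β := 11 / 8) (by positivity) (by norm_num) (by norm_num) (X2 + N1 + r + 2)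
  rw [← pow_add] at hq1 hq2
  set T' : ℝ := (2 : ℝ) ^ t' with hT'
  have hTX2' : X2 + N1 + r + 2 ≤ 2 ^ t' := by
    have h1 : t' < 2 ^ t' := Nat.lt_two_pow_self
    omega
  have hTX2 : (X2 + N1 + r + 2 : ℝ) ≤ T' := by
    rw [hT']
    exact_mod_cast hTX2'
  have hT'pos : 0 < T' := by positivity
  set a : ℕ := 2 ^ t' + 2 ^ (t' - r) with ha
  set L : ℕ := 2 ^ (t' - 1) - 2 ^ (t' - r) with hL
  have hrun := run (r := r) (t := t') hr (by omega)
  rw [← ha, ← hL] at hrun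
  have hlt' : 2 ^ (t' - r) < 2 ^ (t' - 1) := Nat.pow_lt_pow_right (by norm_num) (by omega)
  have haL : a + L = 2 ^ t' + 2 ^ (t' - 1) := by omega
  have haL' : ((a + L : ℕ) : ℝ) = 3 / 2 * T' := by
    rw [haL]
    push_cast
    rw [pow_sub₀ _ (by norm_num) (by omega : 1 ≤ t'), hT']
    ring
  have haa : (a : ℝ) = lam * T' := by
    rw [ha]; push_cast
    rw [hpow2 t' (by omega), hlam]
    ring
  have hCa : C r a ≤ a := by have := C_add_A r a; omega
  have hCaL : C r (a + L) = C r a + L := C_run hrun L le_rfl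
  have hCaL2 : C r (a + L) + A r (a + L) = a + L := C_add_A r _
  have hXaL : X2 ≤ a + L := by
    rw [haL]
    exact le_trans (le_trans (by omega) hTX2') (Nat.le_add_right _ _)
  have hAaL : (A r (a + L) : ℝ) ≤ 1 / 24 * ((a + L : ℕ) : ℝ) := hX2 (a + L) hXaL
  have hCaL2' : (C r (a + L) : ℝ) + A r (a + L) = ((a + L : ℕ) : ℝ) := by exact_mod_cast hCaL2
  have hW1 : C r a ≤ k ^ (i + q * p + l) + s := by
    have h1 : (a : ℝ) ≤ k ^ (i + q * p + l) := by
      rw [haa, show i + q * p + l = i + l + q * p by ring]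
      nlinarith
    have h2 : a ≤ k ^ (i + q * p + l) := by exact_mod_cast h1
    omega
  have hW2 : k ^ (i + q * p + l) + s + 1 < C r a + L := by
    rw [← hCaL]
    have h1 : (k : ℝ) ^ (i + q * p + l) + k ^ l ≤ C r (a + L) := by
      rw [show i + q * p + l = i + l + q * p by ring]
      have h2 : (16 : ℝ) * k ^ l < T' := by
        have : (0 : ℝ) ≤ X2 := by positivity
        have : (0 : ℝ) ≤ r := by positivity
        linarith
      rw [haL'] at hAaL hCaL2'
      linarith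
    have h3 : k ^ (i + q * p + l) + k ^ l ≤ C r (a + L) := by exact_mod_cast h1
    omega
  have hgap1 := gap_run hrun hW1 hW2
  -- conclusion
  have e1 := h q l s (by omega)
  have e2 := h q l (s + 1) (by omega)
  beta_reduce at e1 e2
  rw [← hs] at e1
  rw [← add_assoc, ← hs, ← add_assoc, hgap1, hgap2] at e2
  push_cast at e1 e2
  have h20 : (2 : ZMod 2) = 0 := by decide
  rw [h20, add_zero, e1] at e2
  have h30 : (1 : ZMod 2) = 0 := by
    have := e2
    exact (left_eq_add.1 this)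
  exact absurd h30 (by decide)

/-- Case where `k` is a power of two. -/
theorem not_regular_of_pow {r e : ℕ} (hr : 2 ≤ r) (he : 1 ≤ e) :
    ¬ IsRegular (2 ^ e) (fun n => (hh r n : ℤ)) := by
  intro hreg
  obtain ⟨i, p, hp, h⟩ := exists_period_iter (M := 2) (Nat.one_le_two_pow) hreg
  set P := e * (r * p) with hP
  have hPpos : 0 < P := by positivity
  set c := r * (e * i + 1) with hc
  have hc1 : e * i + 1 ≤ c := by rw [hc]; nlinarith
  obtain ⟨X, hX⟩ := A_small hr (show (0 : ℝ) < (1 / 2) ^ (4 + c + P) by positivity)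
  -- choose l
  set l := X + c + r + 5 with hl
  set j := e * (i + l) with hj
  have hjl : l ≤ j := by rw [hj]; nlinarith
  have hjX : X < 2 ^ j := lt_of_lt_of_le Nat.lt_two_pow_self (Nat.pow_le_pow_right (by norm_num) (by omega))
  set j' := j + P with hj'
  have hjX' : X < 2 ^ j' := lt_of_lt_of_le Nat.lt_two_pow_self (Nat.pow_le_pow_right (by norm_num) (by omega))
  obtain ⟨t, ht⟩ : ∃ t, j = t + 1 + c := ⟨j - 1 - c, by omega⟩
  have htr : r + 3 ≤ t := by omega
  set w : ℕ := 2 ^ (t - r) with hw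
  have hw4 : 4 ≤ w := by
    calc 4 = 2 ^ 2 := by norm_num
      _ ≤ 2 ^ (t - r) := Nat.pow_le_pow_right (by norm_num) (by omega)
  have hwd : 4 ∣ w := by
    have : 2 ^ 2 ∣ 2 ^ (t - r) := pow_dvd_pow 2 (by omega)
    simpa using this
  have htd : 4 ∣ 2 ^ t := by
    have : 2 ^ 2 ∣ 2 ^ t := pow_dvd_pow 2 (by omega)
    simpa using this
  have hjd : 4 ∣ 2 ^ j := by
    have : 2 ^ 2 ∣ 2 ^ j := pow_dvd_pow 2 (by omega)
    simpa using this
  have hwt : 2 ^ (t - r) ≤ 2 ^ (t - 2) := Nat.pow_le_pow_right (by norm_num) (by omega)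
  have ht12 : 2 ^ (t - 1) = 2 * 2 ^ (t - 2) := by
    rw [← pow_succ']; congr 1; omega
  have ht22 : 2 ^ t = 4 * 2 ^ (t - 2) := by
    rw [show (4 : ℕ) = 2 ^ 2 by norm_num, ← pow_add]; congr 1; omega
  have htj : 2 * 2 ^ t ≤ 2 ^ j := by
    rw [← pow_succ']
    exact Nat.pow_le_pow_right (by norm_num) (by omega)
  set y : ℕ := 2 ^ t + (w - 2) with hy
  have hcdvd : r ∣ j - 1 - t := by
    rw [show j - 1 - t = c by omega, hc]
    exact dvd_mul_right _ _
  have hPdvd : r ∣ j' - j := by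
    rw [show j' - j = P by omega, hP]
    exact Dvd.intro_left (e * p) (by ring)
  have hB0 : ¬ B r (2 ^ j + y) := not_B_mod_four hr (by omega)
  have hB1 : B r (2 ^ j + y + 1) := by
    have := B_base' (r := r) (t := t) (j := j) (by omega) (by omega) hcdvd
    rw [show 2 ^ j + y + 1 = 2 ^ j + (2 ^ t + (2 ^ (t - r) - 1)) by omega]
    exact this
  have hB2 : ¬ B r (2 ^ j + y + 2) := by
    have := run' (r := r) (t := t) (j := j) hr (by omega) (by omega) 0 (by omega)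
    rw [show 2 ^ j + y + 2 = 2 ^ j + (2 ^ t + 2 ^ (t - r)) + 0 by omega]
    exact this
  have hgap2 := gap_two hB0 hB1 hB2
  set n := C r (2 ^ j + y) with hn
  have hnA : n + A r (2 ^ j + y) = 2 ^ j + y := C_add_A r _
  -- bounds on A
  have hA1 : A r (2 ^ j + y) ≤ 2 ^ t := by
    have h1 : (A r (2 ^ (j + 1)) : ℝ) ≤ (1 / 2) ^ (4 + c + P) * ((2 ^ (j + 1) : ℕ) : ℝ) :=
      hX (2 ^ (j + 1)) (by rw [pow_succ]; omega)
    have h2 : A r (2 ^ j + y) ≤ A r (2 ^ (j + 1)) := A_mono r (by rw [pow_succ]; omega)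
    have h3 : ((1 : ℝ) / 2) ^ (4 + c + P) * ((2 ^ (j + 1) : ℕ) : ℝ) ≤ 2 ^ t := by
      have h4 : ((1 : ℝ) / 2) ^ (4 + c + P) ≤ (1 / 2) ^ (c + 2) :=
        pow_le_pow_of_le_one (by norm_num) (by norm_num) (by omega)
      calc ((1 : ℝ) / 2) ^ (4 + c + P) * ((2 ^ (j + 1) : ℕ) : ℝ)
          ≤ (1 / 2) ^ (c + 2) * ((2 ^ (j + 1) : ℕ) : ℝ) :=
            mul_le_mul_of_nonneg_right h4 (by positivity)
        _ = 2 ^ t := by
            push_cast
            rw [show j + 1 = t + (c + 2) by omega, pow_add 2 t, ← mul_assoc, mul_comm _ (2 ^ t : ℝ),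
              mul_assoc, ← mul_pow]
            norm_num
    have h5 : (A r (2 ^ j + y) : ℝ) ≤ 2 ^ t := by
      have h2' : (A r (2 ^ j + y) : ℝ) ≤ A r (2 ^ (j + 1)) := by exact_mod_cast h2
      linarith
    exact_mod_cast h5
  have hA2 : A r (2 ^ j') < 2 ^ (t - 2) := by
    have h1 : (A r (2 ^ j') : ℝ) ≤ (1 / 2) ^ (4 + c + P) * ((2 ^ j' : ℕ) : ℝ) :=
      hX (2 ^ j') (by omega)
    have h3 : ((1 : ℝ) / 2) ^ (4 + c + P) * ((2 ^ j' : ℕ) : ℝ) < 2 ^ (t - 2) := by
      push_cast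
      rw [show j' = (t - 2) + (c + P + 3) by omega, show 4 + c + P = 1 + (c + P + 3) by omega,
        pow_add _ 1, pow_add 2 (t - 2)]
      have : ((1 : ℝ) / 2) ^ (c + P + 3) * 2 ^ (c + P + 3) = 1 := by
        rw [← mul_pow]; norm_num
      calc ((1 : ℝ) / 2) ^ 1 * (1 / 2) ^ (c + P + 3) * (2 ^ (t - 2) * 2 ^ (c + P + 3))
          = (1 / 2) * 2 ^ (t - 2) * ((1 / 2) ^ (c + P + 3) * 2 ^ (c + P + 3)) := by ring
        _ = (1 / 2) * 2 ^ (t - 2) := by rw [this, mul_one]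
        _ < 2 ^ (t - 2) := by
            have : (0 : ℝ) < 2 ^ (t - 2) := by positivity
            linarith
    have h5 : (A r (2 ^ j') : ℝ) < 2 ^ (t - 2) := by linarith
    exact_mod_cast h5
  -- window
  have hkil : (2 ^ e) ^ (i + l) = 2 ^ j := by rw [← pow_mul]
  have hkl : (2 ^ e) ^ l = 2 ^ (e * l) := by rw [← pow_mul]
  have hkil' : (2 ^ e) ^ (i + r * p + l) = 2 ^ j' := by
    rw [← pow_mul]; congr 1; rw [hj', hj, hP]; ring
  have hwin : 2 * 2 ^ t ≤ 2 ^ (e * l) := by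
    rw [← pow_succ']
    apply Nat.pow_le_pow_right (by norm_num)
    have : j = e * i + e * l := by rw [hj]; ring
    omega
  have hn1 : 2 ^ j ≤ n := by omega
  obtain ⟨s, hs⟩ := Nat.exists_eq_add_of_le hn1
  have hs1 : s + 1 < 2 ^ (e * l) := by omega
  -- the other window
  have hCshift : C r (2 ^ j' + y) + C r (2 ^ j) = C r (2 ^ j + y) + C r (2 ^ j') :=
    C_shift (by omega) (by omega) hPdvd
  have hCj := C_add_A r (2 ^ j)
  have hCj' := C_add_A r (2 ^ j')
  have hAlt : A r (2 ^ j) + 1 ≤ A r (2 ^ j') := by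
    have hall : B r (2 ^ j' - 1) := by
      rintro i' l' ⟨hl', hz, ho, hb⟩
      have h1 := hz i' le_rfl (by omega)
      rw [Nat.testBit_two_pow_sub_one] at h1 ho
      simp at h1 ho
      omega
    have h1 : 2 ^ j < 2 ^ j' := Nat.pow_lt_pow_right (by norm_num) (by omega)
    have h2 : A r (2 ^ j' - 1 + 1) = A r (2 ^ j' - 1) + 1 := by
      classical
      unfold A
      rw [Nat.count_succ]
      simp [hall]
    rw [show 2 ^ j' - 1 + 1 = 2 ^ j' by omega] at h2
    rw [h2]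
    have := A_mono r (show 2 ^ j ≤ 2 ^ j' - 1 by omega)
    omega
  have hB0' : ¬ B r (2 ^ j' + y) := fun h' =>
    hB0 ((B_shift (by omega) (by omega) hPdvd).2 h')
  have hB1' : B r (2 ^ j' + y + 1) := by
    rw [add_assoc] at hB1 ⊢
    exact (B_shift (by omega) (by omega) hPdvd).1 hB1
  have hC2 : C r (2 ^ j' + (2 ^ t + 2 ^ (t - r))) = C r (2 ^ j' + y) + 1 := by
    rw [show 2 ^ j' + (2 ^ t + 2 ^ (t - r)) = 2 ^ j' + y + 1 + 1 by omega, C_succ_of hB1',
      C_succ_of_not hB0']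
  have hrun := run' (r := r) (t := t) (j := j') hr (by omega) (by omega)
  have hgap1 : hh r (2 ^ j' + s + 1) = hh r (2 ^ j' + s) + 1 := by
    apply gap_run hrun
    · rw [hC2]; omega
    · rw [hC2]; omega
  -- conclusion
  have e1 := h r l s (by rw [hkl]; omega)
  have e2 := h r l (s + 1) (by rw [hkl]; omega)
  beta_reduce at e1 e2
  rw [hkil, hkil'] at e1 e2
  rw [← hs] at e1
  rw [← add_assoc, ← hs, ← add_assoc, hgap1, hgap2] at e2
  push_cast at e1 e2
  have h20 : (2 : ZMod 2) = 0 := by decide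
  rw [h20, add_zero, e1] at e2
  have h30 : (1 : ZMod 2) = 0 := left_eq_add.1 e2
  exact absurd h30 (by decide)

lemma infinite_not_B {r : ℕ} (hr : 2 ≤ r) : {m | ¬ B r m}.Infinite := by
  apply Set.infinite_of_injective_forall_mem (f := fun n : ℕ => 4 * n + 2)
  · intro a b hab
    simp only at hab
    omega
  · intro n
    exact not_B_mod_four hr (by omega)

lemma eq_hh {r : ℕ} (hr : 2 ≤ r) {h : ℕ → ℕ} (hmono : StrictMono h)
    (hrange : Set.range h = {m | ¬ B r m}) : h = hh r := by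
  classical
  have hinf : {m | ¬ B r m}.Infinite := infinite_not_B hr
  have h1 : StrictMono (hh r) := Nat.nth_strictMono hinf
  rw [← hmono.range_inj h1, hrange]
  exact (Nat.range_nth_of_infinite hinf).symm

theorem main {r : ℕ} (hr : 2 ≤ r) {h : ℕ → ℕ} (hmono : StrictMono h)
    (hrange : Set.range h = {m | ¬ B r m}) {k : ℕ} (hk : 2 ≤ k) :
    ¬ IsRegular k (fun n => (h n : ℤ)) := by
  rw [eq_hh hr hmono hrange]
  by_cases hpow : ∃ e, k = 2 ^ e
  · obtain ⟨e, rfl⟩ := hpow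
    apply not_regular_of_pow hr
    by_contra hcon
    have : e = 0 := by omega
    subst this
    simp at hk
  · push Not at hpow
    exact not_regular_of_not_pow hr hk hpow

end Pool.Agent.V11310.BaumSweet
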