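import Mathlib

namespace Pool.Agent.V11310.Colored4

open PowerSeries Finset

/-- The power series `1 / (1 - x^d) = ∑_j x^{dj}` (for `d ≥ 1`). -/
noncomputable def geom (d : ℕ) : PowerSeries ℤ := PowerSeries.mk fun n => if d ∣ n then 1 else 0

/-- `S_{k,m}(n)`, the coefficient of `x^n` in
`(1-x)^{-m} ∏_{i ≥ 0} (1 - x^{k^i})^{-m(k-1)}`. The factors with `i > n` are omitted: for
`k ≥ 2` they are `1 + O(x^{n+1})` and do not influence the coefficient of `x^n`. -/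
noncomputable def S (k m n : ℕ) : ℤ :=
  PowerSeries.coeff n (geom 1 ^ m * ∏ i ∈ range (n + 1), geom (k ^ i) ^ (m * (k - 1)))

lemma one_sub_mul_geom {d : ℕ} (hd : 0 < d) : (1 - X ^ d) * geom d = 1 := by
  ext n
  rw [sub_mul, one_mul, map_sub, PowerSeries.coeff_X_pow_mul', geom]
  simp only [PowerSeries.coeff_mk, PowerSeries.coeff_one]
  by_cases h : d ≤ n
  · have h2 : d ∣ n ↔ d ∣ n - d := by
      constructor
      · intro h'; exact Nat.dvd_sub h' (dvd_refl d)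
      · intro h'
        have := dvd_add h' (dvd_refl d)
        rwa [Nat.sub_add_cancel h] at this
    rw [if_pos h, if_neg (show ¬ n = 0 by omega)]
    by_cases h3 : d ∣ n
    · rw [if_pos h3, if_pos (h2.1 h3)]; ring
    · rw [if_neg h3, if_neg (fun h4 => h3 (h2.2 h4))]; ring
  · rw [if_neg h]
    by_cases h0 : n = 0
    · subst h0; simp
    · rw [if_neg h0, if_neg]
      · ring
      · intro h3
        exact h (Nat.le_of_dvd (by omega) h3)

/-- `2 y / (1 - y^2)` with `y = x^d`. -/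
noncomputable def A (d : ℕ) : PowerSeries ℤ :=
  PowerSeries.mk fun n => if n % (2 * d) = d then 2 else 0

/-- `y^2 / (1 + y^4)` with `y = x^d`. -/
noncomputable def B (d : ℕ) : PowerSeries ℤ :=
  PowerSeries.mk fun n => if n % (4 * d) = 2 * d then (-1) ^ (n / (4 * d)) else 0

lemma A_eq {d : ℕ} (hd : 0 < d) : (1 - X ^ (2 * d)) * A d = 2 * X ^ d := by
  ext n
  rw [sub_mul, one_mul, map_sub, PowerSeries.coeff_X_pow_mul', A,
    show (2 : PowerSeries ℤ) * X ^ d = X ^ d + X ^ d by ring, map_add, PowerSeries.coeff_X_pow]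
  simp only [PowerSeries.coeff_mk]
  by_cases h : 2 * d ≤ n
  · have h2 : (n - 2 * d) % (2 * d) = n % (2 * d) := (Nat.mod_eq_sub_mod h).symm
    rw [if_pos h, h2, if_neg (show ¬ n = d by omega)]
    ring
  · rw [if_neg h, Nat.mod_eq_of_lt (by omega)]
    by_cases h3 : n = d
    · rw [if_pos h3, if_pos h3]; ring
    · rw [if_neg h3, if_neg h3]; ring

lemma B_eq {d : ℕ} (hd : 0 < d) : (1 + X ^ (4 * d)) * B d = X ^ (2 * d) := by
  ext n
  rw [add_mul, one_mul, map_add, PowerSeries.coeff_X_pow_mul', B, PowerSeries.coeff_X_pow]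
  simp only [PowerSeries.coeff_mk]
  by_cases h : 4 * d ≤ n
  · have h2 : (n - 4 * d) % (4 * d) = n % (4 * d) := (Nat.mod_eq_sub_mod h).symm
    have h3 : n / (4 * d) = (n - 4 * d) / (4 * d) + 1 := Nat.div_eq_sub_div (by omega) h
    rw [if_pos h, h2, if_neg (show ¬ n = 2 * d by omega), h3, pow_succ]
    split_ifs <;> ring
  · rw [if_neg h, Nat.mod_eq_of_lt (by omega), Nat.div_eq_of_lt (by omega)]
    simp

/-- `G(x^d)` with `G(x) = (1 - x^4)/(1-x)^4`. -/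
noncomputable def G (d : ℕ) : PowerSeries ℤ := (1 - X ^ (4 * d)) * geom d ^ 4

lemma poly_identity (y : PowerSeries ℤ) : ∃ P : PowerSeries ℤ,
    (1 - y ^ 4) ^ 4 * ((1 - y ^ 2) * (1 + y ^ 4)) =
      (1 - y) ^ 16 * ((1 - y ^ 2) * (1 + y ^ 4) + 16 * y * (1 + y ^ 4) + 8 * y ^ 2 * (1 - y ^ 2))
      + 32 * P := by
  refine ⟨4 * y ^ 2 - 39 * y ^ 3 + 197 * y ^ 4 - 655 * y ^ 5 + 1570 * y ^ 6 - 2874 * y ^ 7
    + 4248 * y ^ 8 - 5458 * y ^ 9 + 6647 * y ^ 10 - 8008 * y ^ 11 + 9161 * y ^ 12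
    - 9232 * y ^ 13 + 7752 * y ^ 14 - 5254 * y ^ 15 + 2814 * y ^ 16 - 1166 * y ^ 17
    + 363 * y ^ 18 - 81 * y ^ 19 + 12 * y ^ 20 - y ^ 21, ?_⟩
  ring

lemma isUnit_aux {d : ℕ} (hd : 0 < d) :
    IsUnit ((1 - (X : PowerSeries ℤ) ^ (2 * d)) * (1 + X ^ (4 * d))) := by
  rw [PowerSeries.isUnit_iff_constantCoeff]
  have h1 : constantCoeff ((X : PowerSeries ℤ) ^ (2 * d)) = 0 := by
    rw [map_pow, PowerSeries.constantCoeff_X, zero_pow (by omega)]
  have h2 : constantCoeff ((X : PowerSeries ℤ) ^ (4 * d)) = 0 := by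
    rw [map_pow, PowerSeries.constantCoeff_X, zero_pow (by omega)]
  rw [map_mul, map_sub, map_add, h1, h2]
  simp

lemma G_pow_four_aux {y g A B V : PowerSeries ℤ} (hg : (1 - y) * g = 1)
    (hA : (1 - y ^ 2) * A = 2 * y) (hB : (1 + y ^ 4) * B = y ^ 2)
    (hV : (1 - y ^ 2) * (1 + y ^ 4) * V = 1) :
    ∃ C : PowerSeries ℤ, ((1 - y ^ 4) * g ^ 4) ^ 4 = 1 + 8 * (A + B) + 32 * C := by
  obtain ⟨P, hP⟩ := poly_identity y
  refine ⟨P * g ^ 16 * V, ?_⟩
  have hg16 : (1 - y) ^ 16 * g ^ 16 = 1 := by rw [← mul_pow, hg, one_pow]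
  calc ((1 - y ^ 4) * g ^ 4) ^ 4
      = ((1 - y ^ 4) ^ 4 * ((1 - y ^ 2) * (1 + y ^ 4))) * g ^ 16 * V := by
        linear_combination -((1 - y ^ 4) ^ 4 * g ^ 16) * hV
    _ = ((1 - y) ^ 16 * g ^ 16) * ((1 - y ^ 2) * (1 + y ^ 4) + 16 * y * (1 + y ^ 4)
          + 8 * y ^ 2 * (1 - y ^ 2)) * V + 32 * (P * g ^ 16 * V) := by
        rw [hP]; ring
    _ = ((1 - y ^ 2) * (1 + y ^ 4) + 8 * (2 * y) * (1 + y ^ 4)
          + 8 * y ^ 2 * (1 - y ^ 2)) * V + 32 * (P * g ^ 16 * V) := by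
        rw [hg16]; ring
    _ = ((1 - y ^ 2) * (1 + y ^ 4)) * V * (1 + 8 * (A + B)) + 32 * (P * g ^ 16 * V) := by
        linear_combination -(8 * (1 + y ^ 4) * V) * hA - (8 * (1 - y ^ 2) * V) * hB
    _ = 1 + 8 * (A + B) + 32 * (P * g ^ 16 * V) := by rw [hV]; ring

lemma G_pow_four {d : ℕ} (hd : 0 < d) : ∃ C : PowerSeries ℤ,
    G d ^ 4 = 1 + 8 * (A d + B d) + 32 * C := by
  obtain ⟨V, hV⟩ := (isUnit_aux hd).exists_right_inv
  have hA := A_eq hd
  have hB := B_eq hd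
  have hg := one_sub_mul_geom hd
  unfold G
  have hy2 : (X : PowerSeries ℤ) ^ (2 * d) = (X ^ d) ^ 2 := by rw [← pow_mul, mul_comm]
  have hy4 : (X : PowerSeries ℤ) ^ (4 * d) = (X ^ d) ^ 4 := by rw [← pow_mul, mul_comm]
  rw [hy2] at hA hB hV
  rw [hy4] at hB hV
  rw [hy4]
  exact G_pow_four_aux hg hA hB hV

lemma G_pow {d : ℕ} (hd : 0 < d) (a : ℕ) (ha : 2 ≤ a) : ∃ C : PowerSeries ℤ,
    G d ^ (2 ^ a) = 1 + 2 ^ (a + 1) * (A d + B d) + 2 ^ (a + 3) * C := by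
  induction a, ha using Nat.le_induction with
  | base =>
    obtain ⟨C, hC⟩ := G_pow_four hd
    refine ⟨C, ?_⟩
    norm_num
    exact hC
  | succ a ha ih =>
    obtain ⟨C, hC⟩ := ih
    obtain ⟨b, rfl⟩ : ∃ b, a = b + 2 := ⟨a - 2, by omega⟩
    rw [pow_succ 2 (b + 2), pow_mul, hC]
    set Z := A d + B d
    refine ⟨C + 2 ^ b * Z ^ 2 + 2 * 2 ^ (b + 2) * Z * C + 4 * 2 ^ (b + 2) * C ^ 2, ?_⟩
    ring

/-- coefficients of `E = 2x/(1-x^2) + x^2/(1+x^4)` -/
def c (q : ℕ) : ℤ := if q % 2 = 1 then 2 else if q % 4 = 2 then (-1) ^ (q / 4) else 0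

lemma coeff_AB {d : ℕ} (hd : 0 < d) (n : ℕ) :
    coeff n (A d + B d) = if d ∣ n then c (n / d) else 0 := by
  rw [map_add, A, B]
  simp only [PowerSeries.coeff_mk]
  by_cases h : d ∣ n
  · obtain ⟨q, rfl⟩ := h
    rw [if_pos (dvd_mul_right _ _), Nat.mul_div_cancel_left _ hd]
    have e1 : d * q % (2 * d) = d * (q % 2) := by
      rw [mul_comm 2 d, Nat.mul_mod_mul_left]
    have e2 : d * q % (4 * d) = d * (q % 4) := by
      rw [mul_comm 4 d, Nat.mul_mod_mul_left]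
    have e3 : d * q / (4 * d) = q / 4 := by
      rw [mul_comm 4 d, Nat.mul_div_mul_left _ _ hd]
    rw [e1, e2, e3]
    have f1 : d * (q % 2) = d ↔ q % 2 = 1 := by
      constructor
      · intro h; nlinarith
      · intro h; rw [h, mul_one]
    have f2 : d * (q % 4) = 2 * d ↔ q % 4 = 2 := by
      constructor
      · intro h; nlinarith
      · intro h; rw [h, mul_comm]
    simp only [f1, f2, c]
    by_cases g1 : q % 2 = 1
    · rw [if_pos g1, if_neg (by omega), if_pos g1]; ring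
    · rw [if_neg g1, if_neg g1]; ring
  · rw [if_neg h]
    have g1 : ¬ (n % (2 * d) = d) := by
      intro h'
      apply h
      rw [← Nat.mod_add_div n (2 * d), h']
      exact dvd_add (dvd_refl d) (Dvd.intro_left 2 rfl |>.mul_right _)
    have g2 : ¬ (n % (4 * d) = 2 * d) := by
      intro h'
      apply h
      rw [← Nat.mod_add_div n (4 * d), h']
      exact dvd_add (Dvd.intro_left 2 rfl) (Dvd.intro_left 4 rfl |>.mul_right _)
    rw [if_neg g1, if_neg g2]; ring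

lemma prod_G_pow (a : ℕ) (ha : 2 ≤ a) (N : ℕ) : ∃ C : PowerSeries ℤ,
    ∏ i ∈ range N, G (4 ^ i) ^ (2 ^ a) =
      1 + 2 ^ (a + 1) * (∑ i ∈ range N, (A (4 ^ i) + B (4 ^ i))) + 2 ^ (a + 3) * C := by
  induction N with
  | zero => exact ⟨0, by simp⟩
  | succ N ih =>
    obtain ⟨C, hC⟩ := ih
    obtain ⟨D, hD⟩ := G_pow (d := 4 ^ N) (by positivity) a ha
    rw [prod_range_succ, sum_range_succ, hC, hD]
    obtain ⟨b, rfl⟩ : ∃ b, a = b + 2 := ⟨a - 2, by omega⟩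
    set Z := ∑ i ∈ range N, (A (4 ^ i) + B (4 ^ i))
    set W := A (4 ^ N) + B (4 ^ N)
    refine ⟨C + D + 2 ^ (b + 1) * Z * W + 2 ^ (b + 3) * Z * D + 2 ^ (b + 3) * C * W +
      2 ^ (b + 5) * C * D, ?_⟩
    ring

lemma pow_odd_part (a : ℕ) (ha : 2 ≤ a) (Z C : PowerSeries ℤ) (u : ℕ) :
    ∃ D : PowerSeries ℤ, (1 + 2 ^ (a + 1) * Z + 2 ^ (a + 3) * C) ^ u =
      1 + 2 ^ (a + 1) * (u * Z) + 2 ^ (a + 3) * D := by
  obtain ⟨b, rfl⟩ : ∃ b, a = b + 2 := ⟨a - 2, by omega⟩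
  induction u with
  | zero => exact ⟨0, by simp⟩
  | succ u ih =>
    obtain ⟨D, hD⟩ := ih
    rw [pow_succ, hD]
    refine ⟨C + D + 2 ^ (b + 1) * (u * Z) * Z + 2 ^ (b + 3) * (u * Z) * C + 2 ^ (b + 3) * D * Z +
      2 ^ (b + 5) * C * D, ?_⟩
    push_cast
    ring

lemma telescoping (N : ℕ) :
    geom 1 * ∏ i ∈ range N, geom (4 ^ i) ^ 3 = (∏ i ∈ range N, G (4 ^ i)) * geom (4 ^ N) := by
  induction N with
  | zero => simp
  | succ N ih =>
    rw [prod_range_succ, prod_range_succ, ← mul_assoc, ih, G]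
    have h := one_sub_mul_geom (d := 4 ^ (N + 1)) (by positivity)
    rw [show 4 * 4 ^ N = 4 ^ (N + 1) by ring]
    linear_combination (-((∏ i ∈ range N, G (4 ^ i)) * geom (4 ^ N) ^ 4)) * h

lemma geom_pow_eq {d : ℕ} (hd : 0 < d) (m : ℕ) : ∃ C : PowerSeries ℤ,
    geom d ^ m = 1 + X ^ d * C := by
  have h1 : geom d = 1 + X ^ d * geom d := by
    linear_combination one_sub_mul_geom hd
  have h2 : (X ^ d : PowerSeries ℤ) ∣ geom d ^ m - 1 := by
    have h3 : (X ^ d : PowerSeries ℤ) ∣ geom d - 1 := ⟨geom d, by linear_combination h1⟩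
    exact h3.trans (sub_one_dvd_pow_sub_one _ _)
  obtain ⟨C, hC⟩ := h2
  exact ⟨C, by linear_combination hC⟩

lemma coeff_mul_geom_pow {d n : ℕ} (hd : n < d) (m : ℕ) (F : PowerSeries ℤ) :
    coeff n (F * geom d ^ m) = coeff n F := by
  obtain ⟨C, hC⟩ := geom_pow_eq (d := d) (by omega) m
  rw [hC, show F * (1 + X ^ d * C) = F + X ^ d * (F * C) by ring, map_add,
    PowerSeries.coeff_X_pow_mul', if_neg (by omega), add_zero]

lemma S_eq (m n : ℕ) : S 4 m n = coeff n ((∏ i ∈ range (n + 1), G (4 ^ i)) ^ m) := by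
  unfold S
  have h : geom 1 ^ m * ∏ i ∈ range (n + 1), geom (4 ^ i) ^ (m * (4 - 1)) =
      (∏ i ∈ range (n + 1), G (4 ^ i)) ^ m * geom (4 ^ (n + 1)) ^ m := by
    rw [← mul_pow, ← telescoping, mul_pow, ← prod_pow]
    congr 1
    apply prod_congr rfl
    intro i _
    rw [← pow_mul, mul_comm 3 m]
  rw [h, coeff_mul_geom_pow]
  calc n < n + 1 := by omega
    _ < 4 ^ (n + 1) := Nat.lt_pow_self (by norm_num)

lemma sum_c {n b w N : ℕ} (hn : n = 4 ^ b * w) (hw : ¬ 4 ∣ w) (hb : b < N) :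
    ∑ i ∈ range N, coeff n (A (4 ^ i) + B (4 ^ i)) = c w := by
  rw [sum_eq_single b]
  · rw [coeff_AB (by positivity), hn, if_pos (dvd_mul_right _ _),
      Nat.mul_div_cancel_left _ (by positivity)]
  · intro i _ hib
    rw [coeff_AB (by positivity)]
    rcases lt_or_gt_of_ne hib with h | h
    · obtain ⟨e, rfl⟩ : ∃ e, b = i + (e + 1) := ⟨b - i - 1, by omega⟩
      have h2 : n = 4 ^ i * (4 * (4 ^ e * w)) := by rw [hn]; ring
      rw [h2, if_pos (dvd_mul_right _ _), Nat.mul_div_cancel_left _ (by positivity), c,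
        if_neg (by omega), if_neg (by omega)]
    · rw [if_neg]
      intro h2
      obtain ⟨e, rfl⟩ : ∃ e, i = b + (e + 1) := ⟨i - b - 1, by omega⟩
      rw [hn, pow_add] at h2
      have h3 := Nat.dvd_of_mul_dvd_mul_left (by positivity) h2
      apply hw
      exact (Dvd.intro_left (4 ^ e) (by rw [pow_succ])).trans h3
  · intro h
    exact absurd (mem_range.2 hb) h

/-- main congruence -/
lemma S_main {a u n b w : ℕ} (ha : 2 ≤ a) (hn : n = 4 ^ b * w) (hw : ¬ 4 ∣ w) (hn0 : n ≠ 0) :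
    ∃ C : ℤ, S 4 (2 ^ a * u) n = 2 ^ (a + 1) * (u * c w) + 2 ^ (a + 3) * C := by
  rw [S_eq, pow_mul, ← prod_pow]
  obtain ⟨C, hC⟩ := prod_G_pow a ha (n + 1)
  obtain ⟨D, hD⟩ := pow_odd_part a ha (∑ i ∈ range (n + 1), (A (4 ^ i) + B (4 ^ i))) C u
  rw [hC, hD]
  refine ⟨coeff n D, ?_⟩
  have hb : b < n + 1 := by
    have h1 : b < 4 ^ b := Nat.lt_pow_self (by norm_num)
    have h2 : 4 ^ b ≤ n := by
      rw [hn]
      apply Nat.le_mul_of_pos_right
      rcases Nat.eq_zero_or_pos w with h | h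
      · subst h; simp at hw
      · exact h
    omega
  have e1 : ∀ (j : ℕ) (F : PowerSeries ℤ), coeff n ((2 : PowerSeries ℤ) ^ j * F) = 2 ^ j * coeff n F := by
    intro j F
    rw [show ((2 : PowerSeries ℤ) ^ j) = PowerSeries.C ((2 : ℤ) ^ j) by simp, PowerSeries.coeff_C_mul]
  have e2 : ∀ (F : PowerSeries ℤ), coeff n ((u : PowerSeries ℤ) * F) = u * coeff n F := by
    intro F
    rw [show ((u : PowerSeries ℤ)) = PowerSeries.C (u : ℤ) by simp, PowerSeries.coeff_C_mul]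
  rw [map_add, map_add, e1, e1, e2, map_sum, sum_c hn hw hb, PowerSeries.coeff_one, if_neg hn0,
    zero_add]

/-- The exact 2-adic valuation. -/
theorem valuation {a u n : ℕ} (ha : 2 ≤ a) (hu : u % 2 = 1) (hn0 : 1 ≤ n) :
    ∃ M : ℤ, M % 2 = 1 ∧ S 4 (2 ^ a * u) n = 2 ^ (a + 1 + padicValNat 2 (2 * n) % 2) * M := by
  obtain ⟨b, w, hw, hn⟩ := Nat.exists_eq_pow_mul_and_not_dvd (n := n) (by omega) 4 (by norm_num)
  obtain ⟨C, hC⟩ := S_main (u := u) ha hn hw (by omega)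
  have hu' : ((u : ℤ)) % 2 = 1 := by exact_mod_cast hu
  have hw0 : w ≠ 0 := by
    rintro rfl
    simp at hw
  have hval : padicValNat 2 (2 * n) = 1 + 2 * b + padicValNat 2 w := by
    rw [hn, padicValNat.mul (by norm_num) (by positivity), padicValNat.mul (by positivity) hw0,
      show (4 : ℕ) = 2 ^ 2 by norm_num, ← pow_mul, padicValNat.prime_pow]
    simp
    ring
  rw [hval, hC]
  by_cases h1 : w % 2 = 1
  · have h2 : padicValNat 2 w = 0 := by
      rw [padicValNat.eq_zero_iff]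
      right; right
      omega
    rw [h2, show (1 + 2 * b + 0) % 2 = 1 by omega, c, if_pos h1]
    refine ⟨u + 2 * C, by omega, ?_⟩
    ring
  · obtain ⟨v, hv⟩ : ∃ v, w = 2 * v := ⟨w / 2, by omega⟩
    have hv1 : v % 2 = 1 := by omega
    have h2 : padicValNat 2 w = 1 := by
      rw [hv, padicValNat.mul (by norm_num) (by omega)]
      have : padicValNat 2 v = 0 := by
        rw [padicValNat.eq_zero_iff]
        right; right
        omega
      rw [this]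
      simp
    rw [h2, show (1 + 2 * b + 1) % 2 = 0 by omega, c, if_neg h1, if_pos (by omega)]
    rcases neg_one_pow_eq_or ℤ (w / 4) with h3 | h3
    · rw [h3]
      refine ⟨u + 4 * C, by omega, ?_⟩
      ring
    · rw [h3]
      refine ⟨-u + 4 * C, by omega, ?_⟩
      ring

end Pool.Agent.V11310.Colored4
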