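import Mathlib
import Pool.Agent.V11310.Colored4

namespace Pool.Agent.V11310.ColoredP

open PowerSeries Finset
open Pool.Agent.V11310.Colored4 (geom one_sub_mul_geom coeff_mul_geom_pow)

/-- `A_{m,k}(n)`, the coefficient of `x^n` in `∏_{i ≥ 0} (1 - x^{m^i})^{-k}`. The factors with
`i > n` are omitted: for `m ≥ 2` they are `1 + O(x^{n+1})` and do not influence the coefficient
of `x^n`. Here `geom d` is the power series `1/(1-x^d)`. -/
noncomputable def A (m k n : ℕ) : ℤ :=
  PowerSeries.coeff n (∏ i ∈ range (n + 1), geom (m ^ i) ^ k)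

lemma coeff_prod_trunc {m k n L : ℕ} (hm : 1 < m) (hL : n < m ^ L) (t : ℕ) :
    coeff n (∏ i ∈ range (L + t), geom (m ^ i) ^ k) = coeff n (∏ i ∈ range L, geom (m ^ i) ^ k) := by
  induction t with
  | zero => rfl
  | succ t ih =>
    rw [← add_assoc, prod_range_succ, coeff_mul_geom_pow, ih]
    exact lt_of_lt_of_le hL (Nat.pow_le_pow_right (by omega) (by omega))

lemma A_trunc {m k n L : ℕ} (hm : 1 < m) (hL : n < m ^ L) (hLn : L ≤ n + 1) :
    A m k n = coeff n (∏ i ∈ range L, geom (m ^ i) ^ k) := by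
  obtain ⟨t, ht⟩ := Nat.exists_eq_add_of_le hLn
  unfold A
  rw [ht, coeff_prod_trunc hm hL]

/-- coefficients of `(1 - x^d)^{-(k+1)}` -/
lemma geom_pow {d : ℕ} (hd : 0 < d) (k : ℕ) :
    geom d ^ (k + 1) = PowerSeries.mk fun n => if d ∣ n then ((Nat.choose (k + n / d) k : ℕ) : ℤ) else 0 := by
  induction k with
  | zero =>
    rw [zero_add, pow_one, geom]
    ext n
    simp
  | succ k ih =>
    -- multiply by (1 - X^d)
    have hu : (1 - (X : PowerSeries ℤ) ^ d) * geom d = 1 := one_sub_mul_geom hd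
    have key : (1 - (X : PowerSeries ℤ) ^ d) * (PowerSeries.mk fun n => if d ∣ n then
        ((Nat.choose (k + 1 + n / d) (k + 1) : ℕ) : ℤ) else 0) = geom d ^ (k + 1) := by
      rw [ih]
      ext n
      rw [sub_mul, one_mul, map_sub, PowerSeries.coeff_X_pow_mul']
      simp only [PowerSeries.coeff_mk]
      by_cases h : d ≤ n
      · have h2 : d ∣ n ↔ d ∣ n - d := by
          constructor
          · intro h'; exact Nat.dvd_sub h' (dvd_refl d)
          · intro h'
            have := dvd_add h' (dvd_refl d)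
            rwa [Nat.sub_add_cancel h] at this
        rw [if_pos h]
        by_cases h3 : d ∣ n
        · rw [if_pos h3, if_pos (h2.1 h3), if_pos h3]
          have h4 : n / d = (n - d) / d + 1 := Nat.div_eq_sub_div hd h
          rw [h4, show k + 1 + ((n - d) / d + 1) = (k + 1 + (n - d) / d) + 1 by ring,
            Nat.choose_succ_succ, show k + ((n - d) / d + 1) = k + 1 + (n - d) / d by ring]
          push_cast; ring
        · rw [if_neg h3, if_neg (fun h4 => h3 (h2.2 h4)), if_neg h3]; ring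
      · rw [if_neg h, sub_zero]
        by_cases h0 : n = 0
        · subst h0; simp
        · have h3 : ¬ d ∣ n := fun h3 => h (Nat.le_of_dvd (by omega) h3)
          rw [if_neg h3, if_neg h3]
    rw [pow_succ, ← key, mul_comm, ← mul_assoc, mul_comm (geom d), hu, one_mul]

lemma coeff_mul_expand {d : ℕ} (hd : 0 < d) (f : PowerSeries ℤ) (a : ℕ → ℤ) (n : ℕ) :
    coeff n (f * PowerSeries.mk fun j => if d ∣ j then a (j / d) else 0) =
      ∑ b ∈ range (n / d + 1), coeff (n - d * b) f * a b := by
  rw [PowerSeries.coeff_mul]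
  simp only [PowerSeries.coeff_mk]
  rw [Finset.Nat.sum_antidiagonal_eq_sum_range_succ_mk]
  rw [← Finset.sum_range_reflect]
  simp only
  -- now sum over j = n - i
  have h1 : ∀ j ∈ range (n + 1), (coeff (n + 1 - 1 - j) f *
      if d ∣ n - (n + 1 - 1 - j) then a ((n - (n + 1 - 1 - j)) / d) else 0) =
      if d ∣ j then coeff (n - j) f * a (j / d) else 0 := by
    intro j hj
    have hj' : j ≤ n := by have := mem_range.1 hj; omega
    rw [show n + 1 - 1 - j = n - j by omega, show n - (n - j) = j by omega]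
    split_ifs <;> ring
  rw [Finset.sum_congr rfl h1, ← Finset.sum_filter]
  symm
  apply Finset.sum_bij (fun b _ => d * b)
  · intro b hb
    rw [mem_filter, mem_range]
    have hb' : b ≤ n / d := by have := mem_range.1 hb; omega
    have : d * b ≤ n := by
      calc d * b ≤ d * (n / d) := Nat.mul_le_mul_left _ hb'
        _ ≤ n := Nat.mul_div_le n d
    exact ⟨by omega, dvd_mul_right _ _⟩
  · intro b _ b' _ h
    exact Nat.eq_of_mul_eq_mul_left hd h
  · intro j hj
    rw [mem_filter, mem_range] at hj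
    obtain ⟨hj1, b, rfl⟩ := hj
    refine ⟨b, ?_, rfl⟩
    rw [mem_range]
    have : b ≤ n / d := by rw [Nat.le_div_iff_mul_le hd, mul_comm]; omega
    omega
  · intro b _
    rw [Nat.mul_div_cancel_left _ hd]

lemma coeff_mul_geom_pow_sum {d : ℕ} (hd : 0 < d) (k : ℕ) (f : PowerSeries ℤ) (n : ℕ) :
    coeff n (f * geom d ^ (k + 1)) =
      ∑ b ∈ range (n / d + 1), coeff (n - d * b) f * ((Nat.choose (k + b) k : ℕ) : ℤ) := by
  rw [geom_pow hd]
  exact coeff_mul_expand hd f (fun b => ((Nat.choose (k + b) k : ℕ) : ℤ)) n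

lemma coeff_geom_one_pow (k n : ℕ) :
    coeff n (geom 1 ^ (k + 1)) = ((Nat.choose (k + n) k : ℕ) : ℤ) := by
  rw [geom_pow one_pos, PowerSeries.coeff_mk]
  simp

end Pool.Agent.V11310.ColoredP
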