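import Mathlib

namespace Pool.Agent.V11310.TMFib

/-- Prouhet-Thue-Morse sequence with values `±1`. -/
def t (n : ℕ) : ℤ := (-1) ^ (Nat.digits 2 n).sum

/-- The Fibonacci sequence twisted by the Thue-Morse sequence:
`h_0 = 0`, `h_1 = 1`, `h_n = t_n h_{n-1} + h_{n-2}`. -/
def h : ℕ → ℤ
  | 0 => 0
  | 1 => 1
  | n + 2 => t (n + 2) * h (n + 1) + h n

lemma t_two_mul (n : ℕ) : t (2 * n) = t n := by
  rcases Nat.eq_zero_or_pos n with rfl | hn
  · rfl
  · unfold t
    rw [Nat.digits_def' (by norm_num) (by omega)]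
    simp

lemma t_two_mul_add_one (n : ℕ) : t (2 * n + 1) = - t n := by
  unfold t
  rw [Nat.digits_def' (by norm_num) (by omega)]
  have h1 : (2 * n + 1) % 2 = 1 := by omega
  have h2 : (2 * n + 1) / 2 = n := by omega
  rw [h1, h2, List.sum_cons, pow_add]
  ring

lemma t_sq (n : ℕ) : t n * t n = 1 := by
  unfold t
  rw [← pow_add, ← two_mul]
  simp

/-- `p_n = t_n t_{n-1}` for `n ≥ 1`. -/
def p (n : ℕ) : ℤ := t n * t (n - 1)

lemma p_odd (m : ℕ) : p (2 * m + 1) = -1 := by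
  unfold p
  rw [Nat.add_sub_cancel, t_two_mul, t_two_mul_add_one]
  linarith [t_sq m]

lemma p_even (m : ℕ) (hm : 0 < m) : p (2 * m) = - p m := by
  unfold p
  obtain ⟨l, rfl⟩ : ∃ l, m = l + 1 := ⟨m - 1, by omega⟩
  rw [t_two_mul, show 2 * (l + 1) - 1 = 2 * l + 1 by omega, t_two_mul_add_one, Nat.add_sub_cancel]
  ring

lemma p_pm (n : ℕ) (hn : 0 < n) : p n = 1 ∨ p n = -1 := by
  induction n using Nat.strong_induction_on with
  | _ n ih =>
    rcases Nat.even_or_odd' n with ⟨m, rfl | rfl⟩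
    · rw [p_even m (by omega)]
      rcases ih m (by omega) (by omega) with h | h
      · right; rw [h]
      · left; rw [h]; ring
    · right; exact p_odd m

lemma p_block (k j i : ℕ) (hi0 : 0 < i) (hi : i < 2 ^ k) : p (2 ^ k * j + i) = p i := by
  induction k generalizing i with
  | zero => simp at hi; omega
  | succ k ih =>
    rcases Nat.even_or_odd' i with ⟨m, rfl | rfl⟩
    · have h2 : 2 ^ (k + 1) * j + 2 * m = 2 * (2 ^ k * j + m) := by ring
      have hm : m < 2 ^ k := by rw [pow_succ] at hi; omega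
      rw [h2, p_even _ (by omega), p_even m (by omega), ih m (by omega) hm]
    · have h2 : 2 ^ (k + 1) * j + (2 * m + 1) = 2 * (2 ^ k * j + m) + 1 := by ring
      rw [h2, p_odd, p_odd]

lemma h_odd (n : ℕ) : h (2 * n + 3) = t (2 * n + 3) * h (2 * n) := by
  have e1 : h (2 * n + 3) = t (2 * n + 3) * h (2 * n + 2) + h (2 * n + 1) := rfl
  have e2 : h (2 * n + 2) = t (2 * n + 2) * h (2 * n + 1) + h (2 * n) := rfl
  have e3 : t (2 * n + 3) * t (2 * n + 2) = -1 := by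
    rw [show 2 * n + 3 = 2 * (n + 1) + 1 by ring, show 2 * n + 2 = 2 * (n + 1) by ring,
      t_two_mul, t_two_mul_add_one]
    linarith [t_sq (n + 1)]
  rw [e1, e2]
  linear_combination h (2 * n + 1) * e3

/-- `e_n = - h_{2n}` -/
def e (n : ℕ) : ℤ := - h (2 * n)

lemma e_succ_succ (n : ℕ) : e (n + 2) = e (n + 1) - p (n + 2) * e n := by
  unfold e
  have e1 : h (2 * (n + 2)) = t (2 * (n + 2)) * h (2 * n + 3) + h (2 * (n + 1)) := rfl
  rw [e1, h_odd, t_two_mul, show 2 * n + 3 = 2 * (n + 1) + 1 by ring, t_two_mul_add_one]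
  unfold p
  rw [show n + 2 - 1 = n + 1 by omega]
  ring

/-- The pair sequence `(X, Y)`. -/
def XY : ℕ → ℤ × ℤ
  | 0 => (0, 1)
  | l + 1 => ((XY l).1 + (2 - p (l + 1)) * (XY l).2, (XY l).1 + 2 * (XY l).2)

lemma XY_succ_fst (l : ℕ) : (XY (l + 1)).1 = (XY l).1 + (2 - p (l + 1)) * (XY l).2 := rfl
lemma XY_succ_snd (l : ℕ) : (XY (l + 1)).2 = (XY l).1 + 2 * (XY l).2 := rfl

lemma XY_nonneg (l : ℕ) : 0 ≤ (XY l).1 ∧ 1 ≤ (XY l).2 := by
  induction l with
  | zero => simp [XY]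
  | succ l ih =>
    rw [XY_succ_fst, XY_succ_snd]
    rcases p_pm (l + 1) (by omega) with h | h <;> rw [h] <;> constructor <;> linarith

/-- Description of `e` through the pair sequence. -/
lemma e_block (l : ℕ) : e (4 * l) = (XY l).1 ∧ e (4 * l + 1) = (XY l).1 + (XY l).2 ∧
    e (4 * l + 2) = (XY l).2 ∧ e (4 * l + 3) = (XY l).1 + 2 * (XY l).2 := by
  induction l with
  | zero =>
    have h0 : e 0 = 0 := rfl
    have h1 : e 1 = 1 := by decide
    have h2 : e 2 = 1 := by rw [e_succ_succ, h0, h1]; ring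
    have h3 : e 3 = 2 := by
      rw [e_succ_succ, h1, h2, show 1 + 2 = 2 * 1 + 1 by norm_num, p_odd]; ring
    simp [h0, h1, h2, h3, XY]
  | succ l ih =>
    obtain ⟨i0, i1, i2, i3⟩ := ih
    have q4 : p (4 * l + 4) = p (l + 1) := by
      rw [show 4 * l + 4 = 2 * (2 * (l + 1)) by ring, p_even _ (by omega), p_even _ (by omega)]
      ring
    have q5 : p (4 * l + 5) = -1 := by
      rw [show 4 * l + 5 = 2 * (2 * l + 2) + 1 by ring, p_odd]
    have q6 : p (4 * l + 6) = 1 := by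
      rw [show 4 * l + 6 = 2 * (2 * (l + 1) + 1) by ring, p_even _ (by omega), p_odd]
      ring
    have q7 : p (4 * l + 7) = -1 := by
      rw [show 4 * l + 7 = 2 * (2 * l + 3) + 1 by ring, p_odd]
    have j4 : e (4 * l + 4) = (XY (l + 1)).1 := by
      rw [e_succ_succ, q4, i3, i2, XY_succ_fst]; ring
    have j5 : e (4 * l + 5) = (XY (l + 1)).1 + (XY (l + 1)).2 := by
      rw [e_succ_succ, q5, j4, i3, XY_succ_snd]; ring
    have j6 : e (4 * l + 6) = (XY (l + 1)).2 := by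
      rw [e_succ_succ, q6, j5, j4]; ring
    have j7 : e (4 * l + 7) = (XY (l + 1)).1 + 2 * (XY (l + 1)).2 := by
      rw [e_succ_succ, q7, j6, j5]; ring
    exact ⟨j4, j5, j6, j7⟩

/-- ratio bounds, `1/2 ≤ X/Y ≤ 3/2` for `l ≥ 1`. -/
lemma XY_ratio (l : ℕ) (hl : 1 ≤ l) :
    (XY l).2 ≤ 2 * (XY l).1 ∧ 2 * (XY l).1 ≤ 3 * (XY l).2 := by
  obtain ⟨m, rfl⟩ : ∃ m, l = m + 1 := ⟨l - 1, by omega⟩
  have := XY_nonneg m
  rw [XY_succ_fst, XY_succ_snd]
  rcases p_pm (m + 1) (by omega) with h | h <;> rw [h] <;> constructor <;> linarith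

lemma e_nonneg (n : ℕ) : 0 ≤ e n := by
  obtain ⟨i0, i1, i2, i3⟩ := e_block (n / 4)
  have hp := XY_nonneg (n / 4)
  have h4 : n % 4 < 4 := Nat.mod_lt _ (by norm_num)
  have h5 : n = 4 * (n / 4) + n % 4 := (Nat.div_add_mod n 4).symm
  rw [h5]
  interval_cases hh : n % 4
  · rw [add_zero, i0]; linarith
  · rw [i1]; linarith
  · rw [i2]; linarith
  · rw [i3]; linarith

lemma abs_h_even (n : ℕ) : |h (2 * n)| = e n := by
  have : h (2 * n) = - e n := by unfold e; ring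
  rw [this, abs_neg, abs_of_nonneg (e_nonneg n)]

lemma abs_t (n : ℕ) : |t n| = 1 := by
  unfold t
  rw [abs_pow]
  simp

lemma abs_h_odd (n : ℕ) : |h (2 * n + 3)| = e n := by
  rw [h_odd, abs_mul, abs_t, one_mul, abs_h_even]

end Pool.Agent.V11310.TMFib
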