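import Mathlib
import Pool.Agent.V11310.TMFib

namespace Pool.Agent.V11310.TMFib

open Filter Topology

/-- Almost additivity over aligned dyadic blocks implies existence of the limit. -/
lemma limit_of_blocks (φ : ℕ → ℝ) (C : ℝ) (hC : 0 ≤ C)
    (h1 : ∀ n, 1 ≤ n → |φ (n + 1) - φ n| ≤ C)
    (h2 : ∀ k j j', 1 ≤ j → 1 ≤ j' →
      φ (2 ^ k * (j + 1)) - φ (2 ^ k * j) ≤ φ (2 ^ k * (j' + 1)) - φ (2 ^ k * j') + C) :
    ∃ L, Tendsto (fun n : ℕ => φ n / n) atTop (𝓝 L) := by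
  -- key estimate
  have key : ∀ k : ℕ, ∃ α D : ℝ, ∀ n : ℕ, 2 ^ k ≤ n → |φ n - n * α| ≤ n * (C / 2 ^ k) + D := by
    intro k
    set α := φ (2 ^ k * (1 + 1)) - φ (2 ^ k * 1) with hα
    have hpos : (0 : ℝ) < 2 ^ k := by positivity
    have hA : ∀ J, |φ (2 ^ k * (J + 1)) - φ (2 ^ k * 1) - J * α| ≤ J * C := by
      intro J
      induction J with
      | zero => simp
      | succ J ih =>
        have a1 := h2 k (J + 1) 1 (by omega) le_rfl
        have a2 := h2 k 1 (J + 1) le_rfl (by omega)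
        rw [abs_le] at ih ⊢
        push_cast
        constructor <;> linarith
    have hB : ∀ m r, 1 ≤ m → |φ (m + r) - φ m| ≤ r * C := by
      intro m r hm
      induction r with
      | zero => simp
      | succ r ih =>
        have a1 := h1 (m + r) (by omega)
        rw [abs_le] at ih a1 ⊢
        push_cast
        rw [← add_assoc]
        constructor <;> linarith
    refine ⟨α / 2 ^ k, |φ (2 ^ k * 1)| + 2 * |α| + 2 ^ k * C, fun n hn => ?_⟩
    set J := n / 2 ^ k with hJ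
    set r := n % 2 ^ k with hr
    have hn' : 2 ^ k * J + r = n := Nat.div_add_mod n (2 ^ k)
    have hJ1 : 1 ≤ J := by
      rw [hJ, Nat.le_div_iff_mul_le (by positivity)]; omega
    have hr1 : r < 2 ^ k := Nat.mod_lt _ (by positivity)
    obtain ⟨J', hJ'⟩ : ∃ J', J = J' + 1 := ⟨J - 1, by omega⟩
    have b1 := hA J'
    rw [← hJ'] at b1
    have b2 := hB (2 ^ k * J) r (by have := Nat.two_pow_pos k; nlinarith)
    rw [hn'] at b2
    have hr2 : (r : ℝ) ≤ 2 ^ k := by exact_mod_cast hr1.le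
    have hr0 : (0 : ℝ) ≤ r := by positivity
    have hnR : (n : ℝ) = 2 ^ k * (J' + 1) + r := by
      rw [← hn', hJ']; push_cast; ring
    have hJn : (J' : ℝ) ≤ n / 2 ^ k := by
      rw [le_div_iff₀ hpos, hnR]; nlinarith
    have e1 : (n : ℝ) * (α / 2 ^ k) = J' * α + α + r / 2 ^ k * α := by
      rw [hnR]; field_simp
    have hr3 : r / 2 ^ k ≤ (1 : ℝ) := by rw [div_le_one hpos]; exact hr2
    have hr4 : 0 ≤ r / (2 : ℝ) ^ k := by positivity
    have e2 : |r / 2 ^ k * α| ≤ |α| := by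
      rw [abs_mul, abs_of_nonneg hr4]
      have := abs_nonneg α
      nlinarith
    have e3 : (r : ℝ) * C ≤ 2 ^ k * C := by nlinarith
    have e4 : (J' : ℝ) * C ≤ n * (C / 2 ^ k) := by
      have : (n : ℝ) * (C / 2 ^ k) = n / 2 ^ k * C := by ring
      rw [this]
      exact mul_le_mul_of_nonneg_right hJn hC
    have e5 := le_abs_self α
    have e6 := neg_abs_le α
    have e7 := le_abs_self (φ (2 ^ k * 1))
    have e8 := neg_abs_le (φ (2 ^ k * 1))
    rw [e1]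
    rw [abs_le] at b1 b2 e2 ⊢
    constructor <;> linarith
  -- Cauchy
  have hcau : CauchySeq (fun n : ℕ => φ n / n) := by
    rw [Metric.cauchySeq_iff']
    intro ε hε
    obtain ⟨k, hk⟩ : ∃ k : ℕ, 4 * C / ε < 2 ^ k := by
      obtain ⟨k, hk⟩ := pow_unbounded_of_one_lt (4 * C / ε) (show (1 : ℝ) < 2 by norm_num)
      exact ⟨k, hk⟩
    obtain ⟨α, D, hD⟩ := key k
    obtain ⟨N, hN⟩ := exists_nat_gt (4 * |D| / ε)
    have hpos : (0 : ℝ) < 2 ^ k := by positivity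
    have hCk : C / 2 ^ k < ε / 4 := by
      rw [div_lt_iff₀ hε] at hk
      rw [div_lt_div_iff₀ hpos (by norm_num)]
      linarith
    have hpk := Nat.two_pow_pos k
    have hn : ∀ n : ℕ, N + 2 ^ k + 1 ≤ n → |φ n / n - α| < ε / 2 := by
      intro n hn
      have hn0 : (0 : ℝ) < n := by
        have : 0 < n := by omega
        exact_mod_cast this
      have b := hD n (by omega)
      have hnN : (N : ℝ) ≤ n := by exact_mod_cast (by omega : N ≤ n)
      have hDn : D < n * (ε / 4) := by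
        rw [div_lt_iff₀ hε] at hN
        have := le_abs_self D
        nlinarith
      have : φ n / n - α = (φ n - n * α) / n := by field_simp
      rw [this, abs_div, abs_of_pos hn0, div_lt_iff₀ hn0]
      calc |φ n - n * α| ≤ n * (C / 2 ^ k) + D := b
        _ < n * (ε / 4) + n * (ε / 4) := by
            apply add_lt_add _ hDn
            exact mul_lt_mul_of_pos_left hCk hn0
        _ = ε / 2 * n := by ring
    refine ⟨N + 2 ^ k + 1, fun n hn1 => ?_⟩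
    rw [Real.dist_eq]
    have b1 := hn n hn1
    have b2 := hn (N + 2 ^ k + 1) le_rfl
    rw [abs_lt] at b1 b2 ⊢
    constructor <;> linarith
  exact cauchySeq_tendsto_of_complete hcau

/-- real versions of `X`, `Y` -/
noncomputable def Xr (l : ℕ) : ℝ := ((XY l).1 : ℝ)
noncomputable def Yr (l : ℕ) : ℝ := ((XY l).2 : ℝ)

lemma Xr_succ (l : ℕ) : Xr (l + 1) = Xr l + (2 - p (l + 1)) * Yr l := by
  unfold Xr Yr
  rw [XY_succ_fst]; push_cast; ring

lemma Yr_succ (l : ℕ) : Yr (l + 1) = Xr l + 2 * Yr l := by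
  unfold Xr Yr
  rw [XY_succ_snd]; push_cast; ring

lemma Xr_nonneg (l : ℕ) : 0 ≤ Xr l := by
  unfold Xr; exact_mod_cast (XY_nonneg l).1

lemma Yr_one (l : ℕ) : 1 ≤ Yr l := by
  unfold Yr; exact_mod_cast (XY_nonneg l).2

lemma ratio_r (l : ℕ) (hl : 1 ≤ l) : Yr l ≤ 2 * Xr l ∧ 2 * Xr l ≤ 3 * Yr l := by
  unfold Xr Yr
  exact_mod_cast XY_ratio l hl

lemma p_real (n : ℕ) (hn : 0 < n) : (p n : ℝ) = 1 ∨ (p n : ℝ) = -1 := by
  rcases p_pm n hn with h | h
  · left; rw [h]; norm_num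
  · right; rw [h]; norm_num

noncomputable def Sr (l : ℕ) : ℝ := Xr l + Yr l

lemma Sr_pos (l : ℕ) : 0 < Sr l := by
  unfold Sr; linarith [Xr_nonneg l, Yr_one l]

lemma domination (k a b : ℕ) (c : ℝ) (hx : Xr (2 ^ k * a) ≤ c * Xr (2 ^ k * b))
    (hy : Yr (2 ^ k * a) ≤ c * Yr (2 ^ k * b)) (i : ℕ) (hi : i < 2 ^ k) :
    Xr (2 ^ k * a + i) ≤ c * Xr (2 ^ k * b + i) ∧ Yr (2 ^ k * a + i) ≤ c * Yr (2 ^ k * b + i) := by
  induction i with
  | zero => exact ⟨hx, hy⟩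
  | succ i ih =>
    obtain ⟨ih1, ih2⟩ := ih (by omega)
    rw [← add_assoc, ← add_assoc, Xr_succ, Xr_succ, Yr_succ, Yr_succ, add_assoc, add_assoc,
      p_block k a (i + 1) (by omega) hi, p_block k b (i + 1) (by omega) hi]
    rcases p_real (i + 1) (by omega) with h | h <;> rw [h] <;> constructor <;> linarith

lemma block_end (k a b : ℕ) (c : ℝ) (hc : 0 ≤ c) (hx : Xr (2 ^ k * a) ≤ c * Xr (2 ^ k * b))
    (hy : Yr (2 ^ k * a) ≤ c * Yr (2 ^ k * b)) :
    Sr (2 ^ k * (a + 1)) ≤ 3 * c * Sr (2 ^ k * (b + 1)) := by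
  have hpos := Nat.two_pow_pos k
  obtain ⟨h1, h2⟩ := domination k a b c hx hy (2 ^ k - 1) (by omega)
  have ea : 2 ^ k * (a + 1) = (2 ^ k * a + (2 ^ k - 1)) + 1 := by rw [mul_add, mul_one]; omega
  have eb : 2 ^ k * (b + 1) = (2 ^ k * b + (2 ^ k - 1)) + 1 := by rw [mul_add, mul_one]; omega
  unfold Sr
  rw [ea, eb, Xr_succ, Xr_succ, Yr_succ, Yr_succ]
  have n1 := Xr_nonneg (2 ^ k * b + (2 ^ k - 1))
  have n2 := Yr_one (2 ^ k * b + (2 ^ k - 1))
  have n3 := Xr_nonneg (2 ^ k * a + (2 ^ k - 1))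
  have n4 := Yr_one (2 ^ k * a + (2 ^ k - 1))
  set x := Xr (2 ^ k * a + (2 ^ k - 1))
  set y := Yr (2 ^ k * a + (2 ^ k - 1))
  set x' := Xr (2 ^ k * b + (2 ^ k - 1))
  set y' := Yr (2 ^ k * b + (2 ^ k - 1))
  have m1 : 0 ≤ c * x' := mul_nonneg hc n1
  have m2 : 0 ≤ c * y' := mul_nonneg hc (by linarith)
  rcases p_real (2 ^ k * a + (2 ^ k - 1) + 1) (by omega) with h | h <;>
    rcases p_real (2 ^ k * b + (2 ^ k - 1) + 1) (by omega) with h' | h' <;>
    rw [h, h'] <;> nlinarith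

noncomputable def φ (l : ℕ) : ℝ := Real.log (Sr l)

lemma φ_step (n : ℕ) : |φ (n + 1) - φ n| ≤ Real.log 9 := by
  have h1 := Sr_pos n
  have h2 := Sr_pos (n + 1)
  have n1 := Xr_nonneg n
  have n2 := Yr_one n
  have e1 : Sr n ≤ Sr (n + 1) := by
    unfold Sr
    rw [Xr_succ, Yr_succ]
    rcases p_real (n + 1) (by omega) with h | h <;> rw [h] <;> nlinarith
  have e2 : Sr (n + 1) ≤ 9 * Sr n := by
    unfold Sr
    rw [Xr_succ, Yr_succ]
    rcases p_real (n + 1) (by omega) with h | h <;> rw [h] <;> nlinarith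
  have f1 : φ n ≤ φ (n + 1) := Real.log_le_log h1 e1
  have f2 : φ (n + 1) ≤ Real.log 9 + φ n := by
    unfold φ
    rw [← Real.log_mul (by norm_num) h1.ne']
    exact Real.log_le_log h2 e2
  rw [abs_of_nonneg (by linarith)]
  linarith

lemma φ_block (k j j' : ℕ) (hj : 1 ≤ j) (hj' : 1 ≤ j') :
    φ (2 ^ k * (j + 1)) - φ (2 ^ k * j) ≤
      φ (2 ^ k * (j' + 1)) - φ (2 ^ k * j') + Real.log 9 := by
  have hpos := Nat.two_pow_pos k
  have r1 := ratio_r (2 ^ k * j) (by nlinarith)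
  have r2 := ratio_r (2 ^ k * j') (by nlinarith)
  have s1 := Sr_pos (2 ^ k * j)
  have s2 := Sr_pos (2 ^ k * j')
  have s3 := Sr_pos (2 ^ k * (j + 1))
  have s4 := Sr_pos (2 ^ k * (j' + 1))
  have n1 := Xr_nonneg (2 ^ k * j)
  have n2 := Yr_one (2 ^ k * j)
  have b := block_end k j j' (3 * Sr (2 ^ k * j) / Sr (2 ^ k * j')) (by positivity)
    (by
      rw [div_mul_eq_mul_div, le_div_iff₀ s2]
      have h1 : Xr (2 ^ k * j) ≤ Sr (2 ^ k * j) := by unfold Sr; linarith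
      have h2 : Sr (2 ^ k * j') ≤ 3 * Xr (2 ^ k * j') := by unfold Sr; linarith [r2.1]
      nlinarith [mul_le_mul h1 h2 s2.le s1.le])
    (by
      rw [div_mul_eq_mul_div, le_div_iff₀ s2]
      have h1 : Yr (2 ^ k * j) ≤ Sr (2 ^ k * j) := by unfold Sr; linarith
      have h2 : Sr (2 ^ k * j') ≤ 3 * Yr (2 ^ k * j') := by
        unfold Sr; linarith [r2.2, Yr_one (2 ^ k * j')]
      nlinarith [mul_le_mul h1 h2 s2.le s1.le])
  have e : 3 * (3 * Sr (2 ^ k * j) / Sr (2 ^ k * j')) * Sr (2 ^ k * (j' + 1)) =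
      9 * Sr (2 ^ k * j) * Sr (2 ^ k * (j' + 1)) / Sr (2 ^ k * j') := by
    field_simp
    ring
  rw [e, le_div_iff₀ s2] at b
  have l := Real.log_le_log (by positivity) b
  rw [Real.log_mul s3.ne' s2.ne', Real.log_mul (by positivity) s4.ne',
    Real.log_mul (by norm_num) s1.ne'] at l
  unfold φ
  linarith

lemma φ_limit : ∃ L, Tendsto (fun n : ℕ => φ n / n) atTop (𝓝 L) :=
  limit_of_blocks φ (Real.log 9) (Real.log_nonneg (by norm_num)) (fun n _ => φ_step n) φ_block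

/-! ### Numerics -/

/-- the matrix of a block of length `2^k - 1`, as a quadruple -/
def Mat : ℕ → ℕ × ℕ × ℕ × ℕ
  | 0 => (1, 0, 0, 1)
  | k + 1 =>
    let m := Mat k
    let a := m.1
    let b := m.2.1
    let c := m.2.2.1
    let d := m.2.2.2
    let s := if k % 2 = 0 then 3 else 1
    (a * (a + s * c) + b * (a + 2 * c), a * (b + s * d) + b * (b + 2 * d),
      c * (a + s * c) + d * (a + 2 * c), c * (b + s * d) + d * (b + 2 * d))

lemma p_pow_two (k : ℕ) : (p (2 ^ k) : ℝ) = if k % 2 = 0 then -1 else 1 := by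
  have : p (2 ^ k) = if k % 2 = 0 then -1 else 1 := by
    induction k with
    | zero => simpa using p_odd 0
    | succ k ih =>
      rw [pow_succ', p_even _ (by positivity), ih]
      split_ifs <;> omega
  rw [this]
  split_ifs <;> norm_num

lemma Mat_spec (k j : ℕ) :
    Xr (2 ^ k * j + (2 ^ k - 1)) = (Mat k).1 * Xr (2 ^ k * j) + (Mat k).2.1 * Yr (2 ^ k * j) ∧
    Yr (2 ^ k * j + (2 ^ k - 1)) =
      (Mat k).2.2.1 * Xr (2 ^ k * j) + (Mat k).2.2.2 * Yr (2 ^ k * j) := by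
  induction k generalizing j with
  | zero => simp [Mat]
  | succ k ih =>
    have hpos := Nat.two_pow_pos k
    have e0 : 2 ^ (k + 1) * j = 2 ^ k * (2 * j) := by ring
    have e1 : 2 ^ (k + 1) * j + (2 ^ (k + 1) - 1) = 2 ^ k * (2 * j + 1) + (2 ^ k - 1) := by
      rw [pow_succ, mul_add, mul_one]
      have : 2 ^ k * 2 * j = 2 ^ k * (2 * j) := by ring
      omega
    have e2 : 2 ^ k * (2 * j + 1) = (2 ^ k * (2 * j) + (2 ^ k - 1)) + 1 := by
      rw [mul_add, mul_one]; omega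
    have hp : (p (2 ^ k * (2 * j) + (2 ^ k - 1) + 1) : ℝ) = if k % 2 = 0 then -1 else 1 := by
      rw [← p_pow_two k, show 2 ^ k * (2 * j) + (2 ^ k - 1) + 1 = 2 ^ (k + 1) * j + 2 ^ k by
        rw [pow_succ]
        have : 2 ^ k * 2 * j = 2 ^ k * (2 * j) := by ring
        omega]
      rw [p_block (k + 1) j (2 ^ k) hpos (by rw [pow_succ]; omega)]
    rw [e1, (ih (2 * j + 1)).1, (ih (2 * j + 1)).2, e2, Xr_succ, Yr_succ, hp, (ih (2 * j)).1,
      (ih (2 * j)).2, e0]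
    set a := (Mat k).1 with ha
    set b := (Mat k).2.1 with hb
    set c := (Mat k).2.2.1 with hc
    set d := (Mat k).2.2.2 with hd
    have hM : Mat (k + 1) = (a * (a + (if k % 2 = 0 then 3 else 1) * c) + b * (a + 2 * c),
      a * (b + (if k % 2 = 0 then 3 else 1) * d) + b * (b + 2 * d),
      c * (a + (if k % 2 = 0 then 3 else 1) * c) + d * (a + 2 * c),
      c * (b + (if k % 2 = 0 then 3 else 1) * d) + d * (b + 2 * d)) := rfl
    rw [hM]
    split_ifs with hk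
    · push_cast
      constructor <;> ring
    · push_cast
      constructor <;> ring

/-- `U_j` -/
noncomputable def U (k j : ℕ) : ℝ := Xr (2 ^ k * j + (2 ^ k - 1))

lemma U_step (k j : ℕ) :
    ((Mat k).1 + (Mat k).2.1 : ℝ) * Xr (2 ^ k * j + (2 ^ k - 1)) +
      ((Mat k).1 + 2 * (Mat k).2.1) * Yr (2 ^ k * j + (2 ^ k - 1)) ≤ U k (j + 1) ∧
    U k (j + 1) ≤ ((Mat k).1 + (Mat k).2.1 : ℝ) * Xr (2 ^ k * j + (2 ^ k - 1)) +
      (3 * (Mat k).1 + 2 * (Mat k).2.1) * Yr (2 ^ k * j + (2 ^ k - 1)) := by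
  have h := (Mat_spec k (j + 1)).1
  have hpos := Nat.two_pow_pos k
  unfold U
  rw [h, show 2 ^ k * (j + 1) = (2 ^ k * j + (2 ^ k - 1)) + 1 by rw [mul_add, mul_one]; omega,
    Xr_succ, Yr_succ]
  have n1 := Xr_nonneg (2 ^ k * j + (2 ^ k - 1))
  have n2 := Yr_one (2 ^ k * j + (2 ^ k - 1))
  have n3 : (0 : ℝ) ≤ (Mat k).1 := by positivity
  have n4 : (0 : ℝ) ≤ (Mat k).2.1 := by positivity
  generalize ((Mat k).1 : ℝ) = A at *
  generalize ((Mat k).2.1 : ℝ) = B at *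
  have n5 := mul_nonneg n3 (show (0 : ℝ) ≤ Yr (2 ^ k * j + (2 ^ k - 1)) by linarith)
  rcases p_real (2 ^ k * j + (2 ^ k - 1) + 1) (by omega) with h' | h' <;> rw [h'] <;>
    constructor <;> nlinarith

lemma U_lower {k : ℕ} {lam : ℝ}
    (h1 : lam * (Mat k).1 ≤ ((Mat k).1 + (Mat k).2.1 : ℝ) * (Mat k).1 +
      ((Mat k).1 + 2 * (Mat k).2.1) * (Mat k).2.2.1)
    (h2 : lam * (Mat k).2.1 ≤ ((Mat k).1 + (Mat k).2.1 : ℝ) * (Mat k).2.1 +
      ((Mat k).1 + 2 * (Mat k).2.1) * (Mat k).2.2.2) (j : ℕ) :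
    lam * U k j ≤ U k (j + 1) := by
  refine le_trans ?_ (U_step k j).1
  have h := Mat_spec k j
  unfold U
  rw [h.1, h.2]
  have n1 := Xr_nonneg (2 ^ k * j)
  have n2 := Yr_one (2 ^ k * j)
  generalize ((Mat k).1 : ℝ) = A at *
  generalize ((Mat k).2.1 : ℝ) = B at *
  generalize ((Mat k).2.2.1 : ℝ) = C at *
  generalize ((Mat k).2.2.2 : ℝ) = D at *
  have m1 := mul_le_mul_of_nonneg_right h1 n1
  have m2 := mul_le_mul_of_nonneg_right h2 (show 0 ≤ Yr (2 ^ k * j) by linarith)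
  nlinarith

lemma U_upper {k : ℕ} {lam : ℝ}
    (h1 : ((Mat k).1 + (Mat k).2.1 : ℝ) * (Mat k).1 +
      (3 * (Mat k).1 + 2 * (Mat k).2.1) * (Mat k).2.2.1 ≤ lam * (Mat k).1)
    (h2 : ((Mat k).1 + (Mat k).2.1 : ℝ) * (Mat k).2.1 +
      (3 * (Mat k).1 + 2 * (Mat k).2.1) * (Mat k).2.2.2 ≤ lam * (Mat k).2.1) (j : ℕ) :
    U k (j + 1) ≤ lam * U k j := by
  refine le_trans (U_step k j).2 ?_
  have h := Mat_spec k j
  unfold U
  rw [h.1, h.2]
  have n1 := Xr_nonneg (2 ^ k * j)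
  have n2 := Yr_one (2 ^ k * j)
  generalize ((Mat k).1 : ℝ) = A at *
  generalize ((Mat k).2.1 : ℝ) = B at *
  generalize ((Mat k).2.2.1 : ℝ) = C at *
  generalize ((Mat k).2.2.2 : ℝ) = D at *
  have m1 := mul_le_mul_of_nonneg_right h1 n1
  have m2 := mul_le_mul_of_nonneg_right h2 (show 0 ≤ Yr (2 ^ k * j) by linarith)
  nlinarith

lemma U_pos {k j : ℕ} (hk : 1 ≤ k) : 0 < U k j := by
  unfold U
  have h2 : 2 ≤ 2 ^ k := by
    calc 2 = 2 ^ 1 := by norm_num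
      _ ≤ 2 ^ k := Nat.pow_le_pow_right (by norm_num) hk
  have := ratio_r (2 ^ k * j + (2 ^ k - 1)) (by omega)
  linarith [Yr_one (2 ^ k * j + (2 ^ k - 1))]

lemma U_Sr {k j : ℕ} (hk : 1 ≤ k) : U k j ≤ Sr (2 ^ k * j + (2 ^ k - 1)) ∧
    Sr (2 ^ k * j + (2 ^ k - 1)) ≤ 3 * U k j := by
  unfold U Sr
  have h2 : 2 ≤ 2 ^ k := by
    calc 2 = 2 ^ 1 := by norm_num
      _ ≤ 2 ^ k := Nat.pow_le_pow_right (by norm_num) hk
  have := ratio_r (2 ^ k * j + (2 ^ k - 1)) (by omega)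
  have := Yr_one (2 ^ k * j + (2 ^ k - 1))
  constructor <;> linarith

lemma lim_aux (c a : ℝ) (k : ℕ) :
    Tendsto (fun j : ℕ => (c + j * a) / ((2 ^ k * j + (2 ^ k - 1) : ℕ) : ℝ)) atTop
      (𝓝 (a / 2 ^ k)) := by
  have hpos : (0 : ℝ) < 2 ^ k := by positivity
  have h1 : Tendsto (fun j : ℕ => (c / (j : ℝ) + a) / (2 ^ k + (2 ^ k - 1 : ℝ) / (j : ℝ))) atTop
      (𝓝 ((0 + a) / (2 ^ k + 0))) := by
    apply Tendsto.div
    · exact (tendsto_const_div_atTop_nhds_zero_nat c).add_const a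
    · exact (tendsto_const_div_atTop_nhds_zero_nat (2 ^ k - 1 : ℝ)).const_add _
    · rw [add_zero]; exact hpos.ne'
  rw [zero_add, add_zero] at h1
  refine h1.congr' ?_
  filter_upwards [eventually_ge_atTop 1] with j hj
  have hj' : (0 : ℝ) < j := by exact_mod_cast hj
  have h1k : 1 ≤ 2 ^ k := Nat.one_le_two_pow
  push_cast [Nat.cast_sub h1k]
  have h1k' : (1 : ℝ) ≤ 2 ^ k := by exact_mod_cast h1k
  have hd : (2 : ℝ) ^ k * j + (2 ^ k - 1) ≠ 0 := by nlinarith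
  have hd2 : (2 : ℝ) ^ k + (2 ^ k - 1) / j ≠ 0 := by
    have : 0 ≤ ((2 : ℝ) ^ k - 1) / j := div_nonneg (by linarith) hj'.le
    linarith
  rw [div_eq_div_iff hd2 hd]
  field_simp

lemma L_lower {L : ℝ} (hL : Tendsto (fun n : ℕ => φ n / n) atTop (𝓝 L)) {k : ℕ} (hk : 1 ≤ k)
    {lam : ℝ} (hlam : 0 < lam) (h : ∀ j, lam * U k j ≤ U k (j + 1)) :
    Real.log lam / 2 ^ k ≤ L := by
  have hsub : Tendsto (fun j : ℕ => 2 ^ k * j + (2 ^ k - 1)) atTop atTop := by
    apply tendsto_atTop_mono (f := fun j : ℕ => j) _ tendsto_id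
    intro j
    have := Nat.two_pow_pos k
    nlinarith
  have h1 := hL.comp hsub
  have h2 : ∀ j : ℕ, Real.log (U k 0) + j * Real.log lam ≤ Real.log (U k j) := by
    intro j
    induction j with
    | zero => simp
    | succ j ih =>
      have h3 := Real.log_le_log (mul_pos hlam (U_pos hk)) (h j)
      rw [Real.log_mul hlam.ne' (U_pos hk).ne'] at h3
      push_cast
      linarith
  refine le_of_tendsto_of_tendsto (lim_aux (Real.log (U k 0)) (Real.log lam) k) h1 ?_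
  filter_upwards with j
  simp only [Function.comp]
  apply div_le_div_of_nonneg_right _ (by positivity)
  refine (h2 j).trans ?_
  exact Real.log_le_log (U_pos hk) (U_Sr hk).1

lemma L_upper {L : ℝ} (hL : Tendsto (fun n : ℕ => φ n / n) atTop (𝓝 L)) {k : ℕ} (hk : 1 ≤ k)
    {lam : ℝ} (hlam : 0 < lam) (h : ∀ j, U k (j + 1) ≤ lam * U k j) :
    L ≤ Real.log lam / 2 ^ k := by
  have hsub : Tendsto (fun j : ℕ => 2 ^ k * j + (2 ^ k - 1)) atTop atTop := by
    apply tendsto_atTop_mono (f := fun j : ℕ => j) _ tendsto_id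
    intro j
    have := Nat.two_pow_pos k
    nlinarith
  have h1 := hL.comp hsub
  have h2 : ∀ j : ℕ, Real.log (U k j) ≤ Real.log (U k 0) + j * Real.log lam := by
    intro j
    induction j with
    | zero => simp
    | succ j ih =>
      have h3 := Real.log_le_log (U_pos hk) (h j)
      rw [Real.log_mul hlam.ne' (U_pos hk).ne'] at h3
      push_cast
      linarith
  refine le_of_tendsto_of_tendsto h1
    (lim_aux (Real.log 3 + Real.log (U k 0)) (Real.log lam) k) ?_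
  filter_upwards with j
  simp only [Function.comp]
  apply div_le_div_of_nonneg_right _ (by positivity)
  have h3 : φ (2 ^ k * j + (2 ^ k - 1)) ≤ Real.log 3 + Real.log (U k j) := by
    unfold φ
    rw [← Real.log_mul (by norm_num) (U_pos hk).ne']
    exact Real.log_le_log (Sr_pos _) (U_Sr hk).2
  linarith [h2 j]

lemma num_lower : 4609 ^ 4096 * (Mat 9).1 ≤
    (((Mat 9).1 + (Mat 9).2.1) * (Mat 9).1 + ((Mat 9).1 + 2 * (Mat 9).2.1) * (Mat 9).2.2.1)
      * 4000 ^ 4096 ∧ 4609 ^ 4096 * (Mat 9).2.1 ≤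
    (((Mat 9).1 + (Mat 9).2.1) * (Mat 9).2.1 + ((Mat 9).1 + 2 * (Mat 9).2.1) * (Mat 9).2.2.2)
      * 4000 ^ 4096 := by
  decide +kernel

lemma num_upper :
    (((Mat 9).1 + (Mat 9).2.1) * (Mat 9).1 + (3 * (Mat 9).1 + 2 * (Mat 9).2.1) * (Mat 9).2.2.1)
      * 20000 ^ 4096 ≤ 23047 ^ 4096 * (Mat 9).1 ∧
    (((Mat 9).1 + (Mat 9).2.1) * (Mat 9).2.1 + (3 * (Mat 9).1 + 2 * (Mat 9).2.1) * (Mat 9).2.2.2)
      * 20000 ^ 4096 ≤ 23047 ^ 4096 * (Mat 9).2.1 := by
  decide +kernel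

end Pool.Agent.V11310.TMFib
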