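import Mathlib
import Pool.Agent.V11310.Colored4
import Pool.Agent.V11310.ColoredP

/-!
The 22-coloured ternary partition function is never divisible by `3^6`.
-/

namespace Pool.Agent.V11310.Tern

/-- forces evaluation of the argument -/
def force {α : Type} (x : ℕ) (k : ℕ → α) : α :=
  match x with
  | 0 => k 0
  | n + 1 => k (n + 1)

theorem force_eq {α : Type} (x : ℕ) (k : ℕ → α) : force x k = k x := by
  cases x <;> rfl

/-- multiplication by `U` on the three sections -/
def mulU : ℕ → List (ℕ × ℕ × ℕ) → List (ℕ × ℕ × ℕ)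
  | c, [] => [(c, c, c)]
  | c, (a, b, d) :: l =>
    force ((c + 728 * (b + d)) % 729) fun p => force ((c + 728 * d) % 729) fun q =>
      force ((a + b + d) % 729) fun s => (p, q, c) :: mulU s l

/-- adding a constant to the first component -/
def addHead (a : ℕ) : List (ℕ × ℕ × ℕ) → List (ℕ × ℕ × ℕ)
  | [] => [(a, 0, 0)]
  | (p, q, s) :: l => force ((a + p) % 729) fun r => (r, q, s) :: l

/-- sections of a polynomial in `U` -/
def horner : List ℕ → List (ℕ × ℕ × ℕ)
  | [] => []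
  | a :: l => addHead a (mulU 0 (horner l))

/-- iterate `mulU` -/
def mulUn : ℕ → List (ℕ × ℕ × ℕ) → List (ℕ × ℕ × ℕ)
  | 0, f => f
  | n + 1, f => mulU 0 (mulUn n f)

/-- force all entries and separate the components -/
def sep {α : Type} : List (ℕ × ℕ × ℕ) → (List ℕ → List ℕ → List ℕ → α) → α
  | [], k => k [] [] []
  | (a, b, c) :: l, k => force a fun a' => force b fun b' => force c fun c' =>
      sep l fun x y z => k (a' :: x) (b' :: y) (c' :: z)

/-- all entries of `c * y` vanish modulo `729` -/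
def allZ (c : ℕ) : List ℕ → Bool
  | [] => true
  | y :: l => Nat.beq (c * y % 729) 0 && allZ c l

/-- `δ * x = c * y` modulo `729`, up to trailing zeros -/
def eqS (δ c : ℕ) : List ℕ → List ℕ → Bool
  | [], l => allZ c l
  | x :: k, [] => Nat.beq (δ * x % 729) 0 && eqS δ c k []
  | x :: k, y :: l => Nat.beq (δ * x % 729) (c * y % 729) && eqS δ c k l

/-- sum of the entries -/
def sumL : List ℕ → ℕ
  | [] => 0
  | a :: l => a + sumL l

/-- the 20 states -/
def states : List (List ℕ) := [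
[1],
[0,0,0,0,0,0,0,0,1,477,81],
[0,0,0,0,0,0,0,0,9],
[0,0,0,0,0,0,0,0,1,171,81],
[0,0,0,0,0,0,0,0,0,0,27,243,243],
[0,0,0,0,0,0,0,0,0,0,0,27,567],
[0,0,0,0,0,0,0,0,0,0,0,3,585,243],
[0,0,0,0,0,0,0,0,0,0,27,486,243],
[0,0,0,0,0,0,0,0,0,0,0,27,324],
[0,0,0,0,0,0,0,0,0,0,0,27,648],
[0,0,0,0,0,0,0,0,0,0,27,0,243],
[0,0,0,0,0,0,0,0,0,0,0,3,333,243],
[0,0,0,0,0,0,0,0,0,0,0,27,405],
[0,0,0,0,0,0,0,0,0,0,0,0,243],
[0,0,0,0,0,0,0,0,0,0,0,3,666,405,486],
[0,0,0,0,0,0,0,0,0,0,0,0,486,81,243],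
[0,0,0,0,0,0,0,0,0,0,0,3,171,162,243],
[0,0,0,0,0,0,0,0,0,0,0,0,405,81,486],
[0,0,0,0,0,0,0,0,0,0,0,0,81,81,243],
[0,0,0,0,0,0,0,0,0,0,0,0,567,81,486]
]

/-- the transitions -/
def trans : List (List (ℕ × ℕ × ℕ)) := [
[(1, 1, 253),(2, 9, 22),(3, 1, 1)],
[(4, 27, 1),(5, 9, 22),(6, 1, 149)],
[(7, 3, 1),(8, 1, 7),(9, 1, 17)],
[(10, 27, 1),(11, 1, 127),(12, 9, 20)],
[(9, 1, 4),(8, 1, 26),(13, 3, 2)],
[(5, 1, 1),(13, 1, 2),(13, 3, 2)],
[(14, 1, 1),(13, 27, 1),(15, 1, 7)],
[(9, 1, 13),(8, 1, 26),(13, 3, 2)],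
[(8, 1, 1),(13, 1, 1),(13, 3, 2)],
[(9, 1, 1),(13, 3, 1),(13, 1, 2)],
[(9, 1, 22),(8, 1, 26),(13, 3, 2)],
[(16, 1, 1),(17, 1, 7),(13, 27, 2)],
[(12, 1, 1),(13, 3, 1),(13, 1, 1)],
[(13, 1, 1),(13, 1, 1),(13, 1, 1)],
[(14, 1, 1),(13, 27, 1),(18, 1, 7)],
[(13, 3, 1),(13, 3, 2),(13, 1, 2)],
[(16, 1, 1),(19, 1, 7),(13, 27, 2)],
[(13, 1, 1),(13, 3, 1),(13, 3, 2)],
[(13, 3, 2),(13, 1, 2),(13, 3, 1)],
[(13, 3, 2),(13, 1, 1),(13, 3, 1)]
]


def checkTr (x : List ℕ) (t : ℕ × ℕ × ℕ) : Bool :=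
  Nat.ble (t.1 + 1) 20 && (!(Nat.beq (t.2.2 % 3) 0)) && eqS t.2.1 t.2.2 x (states.getD t.1 [])

def checkOne (i : ℕ) : Bool :=
  !(Nat.beq (sumL (states.getD i []) % 729) 0) &&
    sep (mulUn 22 (horner (states.getD i []))) fun x y z =>
      checkTr x ((trans.getD i []).getD 0 (0, 0, 0)) &&
      checkTr y ((trans.getD i []).getD 1 (0, 0, 0)) &&
      checkTr z ((trans.getD i []).getD 2 (0, 0, 0))

def checkAll : ℕ → Bool
  | 0 => true
  | i + 1 => checkOne i && checkAll i

theorem checkAll_mem : ∀ N i, i < N → checkAll N = true → checkOne i = true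
  | 0, i, hi, _ => by omega
  | N + 1, i, hi, h => by
    simp only [checkAll, Bool.and_eq_true] at h
    rcases Nat.lt_or_ge i N with h1 | h1
    · exact checkAll_mem N i h1 h.2
    · have : i = N := by omega
      rw [this]; exact h.1

theorem check_states : checkAll 20 = true := by decide +kernel

/-! ### Correctness -/

open PowerSeries

abbrev R := ZMod 729

/-- substitution of `X ^ 3` for `X` -/
noncomputable def ph : PowerSeries R →ₐ[R] PowerSeries R := expand 3 three_ne_zero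

/-- `1 / (1 - X)` -/
noncomputable def U : PowerSeries R := mk 1

noncomputable def ev : List ℕ → PowerSeries R
  | [] => 0
  | a :: l => C (a : R) + U * ev l

noncomputable def ev0 : List (ℕ × ℕ × ℕ) → PowerSeries R
  | [] => 0
  | (a, _, _) :: l => C (a : R) + U * ev0 l

noncomputable def ev1 : List (ℕ × ℕ × ℕ) → PowerSeries R
  | [] => 0
  | (_, b, _) :: l => C (b : R) + U * ev1 l

noncomputable def ev2 : List (ℕ × ℕ × ℕ) → PowerSeries R
  | [] => 0
  | (_, _, c) :: l => C (c : R) + U * ev2 l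

theorem cast_mod (x : ℕ) : ((x % 729 : ℕ) : R) = (x : R) := by
  rw [ZMod.natCast_mod]

theorem ev_mulU (l : List (ℕ × ℕ × ℕ)) : ∀ c : ℕ,
    ev0 (mulU c l) = C (c : R) + U * (ev0 l + ev1 l + ev2 l) - (ev1 l + ev2 l) ∧
    ev1 (mulU c l) = C (c : R) + U * (ev0 l + ev1 l + ev2 l) - ev2 l ∧
      ev2 (mulU c l) = C (c : R) + U * (ev0 l + ev1 l + ev2 l) := by
  induction l with
  | nil => intro c; simp [mulU, ev0, ev1, ev2]
  | cons ab l ih =>
    intro c
    obtain ⟨a, b, d⟩ := ab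
    simp only [mulU, force_eq]
    have h := ih ((a + b + d) % 729)
    have h32 : (728 : R) = -1 := by decide
    refine ⟨?_, ?_, ?_⟩
    · simp only [ev0, ev1, ev2, h.1, cast_mod, Nat.cast_add, Nat.cast_mul, Nat.cast_ofNat, h32,
        map_add, map_mul, map_neg, map_one]
      ring
    · simp only [ev0, ev1, ev2, h.2.1, cast_mod, Nat.cast_add, Nat.cast_mul, Nat.cast_ofNat, h32,
        map_add, map_mul, map_neg, map_one]
      ring
    · simp only [ev0, ev1, ev2, h.2.2, cast_mod, Nat.cast_add, map_add]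
      ring

theorem U_mul : U * (1 - X) = 1 := mk_one_mul_one_sub_eq_one R

theorem X_mul_U : X * U = U - 1 := by
  have := U_mul
  linear_combination -this

theorem U_eq : U = (1 + X + X ^ 2) * ph U := by
  have h1 : ph U * (1 - X ^ 3) = 1 := by
    have h := congrArg ph U_mul
    rw [map_mul, map_sub, map_one] at h
    have hX : ph X = X ^ 3 := expand_X 3 three_ne_zero
    rwa [hX] at h
  have h2 := U_mul
  calc U = U * (ph U * (1 - X ^ 3)) := by rw [h1, mul_one]
    _ = (U * (1 - X)) * ((1 + X + X ^ 2) * ph U) := by ring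
    _ = _ := by rw [h2, one_mul]

theorem U_mul_parts (f0 f1 f2 : PowerSeries R) :
    U * (ph f0 + X * ph f1 + X ^ 2 * ph f2) =
      ph (U * (f0 + f1 + f2) - (f1 + f2)) + X * ph (U * (f0 + f1 + f2) - f2) +
        X ^ 2 * ph (U * (f0 + f1 + f2)) := by
  have h1 : ph (X * U) = ph (U - 1) := by rw [X_mul_U]
  have hX : ph X = X ^ 3 := expand_X 3 three_ne_zero
  rw [map_mul, hX, map_sub, map_one] at h1
  conv_lhs => rw [U_eq]
  simp only [map_sub, map_mul, map_add]
  linear_combination (ph f1 + ph f2 + X * ph f2) * h1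

theorem ev_addHead (a : ℕ) (l : List (ℕ × ℕ × ℕ)) :
    ev0 (addHead a l) = C (a : R) + ev0 l ∧ ev1 (addHead a l) = ev1 l ∧
      ev2 (addHead a l) = ev2 l := by
  cases l with
  | nil => simp [addHead, ev0, ev1, ev2]
  | cons pq l =>
    obtain ⟨p, q, s⟩ := pq
    simp only [addHead, force_eq, ev0, ev1, ev2, cast_mod, Nat.cast_add, map_add]
    refine ⟨?_, trivial, trivial⟩
    ring

theorem ev_horner (w : List ℕ) :
    ev w = ph (ev0 (horner w)) + X * ph (ev1 (horner w)) + X ^ 2 * ph (ev2 (horner w)) := by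
  induction w with
  | nil => simp [ev, horner, ev0, ev1, ev2]
  | cons a l ih =>
    have h1 := ev_addHead a (mulU 0 (horner l))
    have h2 := ev_mulU (horner l) 0
    simp only [horner]
    rw [h1.1, h1.2.1, h1.2.2, h2.1, h2.2.1, h2.2.2, ev, ih, U_mul_parts]
    have hC : ph (C (a : R)) = C (a : R) := expand_C 3 three_ne_zero _
    simp only [map_add, hC, Nat.cast_zero, map_zero, zero_add]
    ring

theorem ev_mulUn (n : ℕ) (l : List (ℕ × ℕ × ℕ)) :
    U ^ n * (ph (ev0 l) + X * ph (ev1 l) + X ^ 2 * ph (ev2 l)) =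
      ph (ev0 (mulUn n l)) + X * ph (ev1 (mulUn n l)) + X ^ 2 * ph (ev2 (mulUn n l)) := by
  induction n with
  | zero => simp [mulUn]
  | succ n ih =>
    have h2 := ev_mulU (mulUn n l) 0
    rw [pow_succ', mul_assoc, ih, U_mul_parts]
    simp only [mulUn]
    rw [h2.1, h2.2.1, h2.2.2]
    simp

/-- the partial products -/
noncomputable def G (K : ℕ) : PowerSeries R :=
  ∏ i ∈ Finset.range K, (mk (fun j : ℕ => if 3 ^ i ∣ j then (1 : R) else 0)) ^ 22

theorem ph_mk (i : ℕ) :
    ph (mk (fun j : ℕ => if 3 ^ i ∣ j then (1 : R) else 0)) =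
      mk (fun j : ℕ => if 3 ^ (i + 1) ∣ j then (1 : R) else 0) := by
  ext n
  rw [ph, coeff_expand, coeff_mk]
  by_cases h : 3 ∣ n
  · obtain ⟨m, rfl⟩ := h
    rw [if_pos (Dvd.intro m rfl), coeff_mk, Nat.mul_div_cancel_left m (by norm_num)]
    have : 3 ^ (i + 1) ∣ 3 * m ↔ 3 ^ i ∣ m := by
      rw [pow_succ, mul_comm]
      exact Nat.mul_dvd_mul_iff_left (by norm_num)
    simp only [this]
  · rw [if_neg h, coeff_mk, if_neg]
    intro h'
    exact h (dvd_trans (dvd_pow_self 3 (by omega)) h')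

theorem G_succ (K : ℕ) : G (K + 1) = U ^ 22 * ph (G K) := by
  have h0 : (mk (fun j : ℕ => if 3 ^ 0 ∣ j then (1 : R) else 0)) = U := by
    ext n
    simp [U]
  rw [G, G, Finset.prod_range_succ', h0, map_prod, mul_comm]
  congr 1
  refine Finset.prod_congr rfl fun i _ => ?_
  rw [map_pow, ph_mk]

theorem coeff_zero' (f0 f1 f2 : PowerSeries R) (n : ℕ) :
    coeff (3 * n) (ph f0 + X * ph f1 + X ^ 2 * ph f2) = coeff n f0 := by
  rw [map_add, map_add, ph, coeff_expand_mul]
  have h1 : coeff (3 * n) (X * (expand 3 three_ne_zero) f1) = 0 := by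
    cases n with
    | zero => simp
    | succ n =>
      rw [show 3 * (n + 1) = (3 * n + 2) + 1 by ring, coeff_succ_X_mul,
        coeff_expand_of_not_dvd]
      omega
  have h2 : coeff (3 * n) (X ^ 2 * (expand 3 three_ne_zero) f2) = 0 := by
    rw [coeff_X_pow_mul']
    split_ifs with h
    · rw [coeff_expand_of_not_dvd]
      omega
    · rfl
  rw [h1, h2, add_zero, add_zero]

theorem coeff_one' (f0 f1 f2 : PowerSeries R) (n : ℕ) :
    coeff (3 * n + 1) (ph f0 + X * ph f1 + X ^ 2 * ph f2) = coeff n f1 := by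
  rw [map_add, map_add, coeff_succ_X_mul, ph, coeff_expand_mul, coeff_expand_of_not_dvd]
  · have h2 : coeff (3 * n + 1) (X ^ 2 * (expand 3 three_ne_zero) f2) = 0 := by
      rw [coeff_X_pow_mul']
      split_ifs with h
      · rw [coeff_expand_of_not_dvd]
        omega
      · rfl
    rw [h2, zero_add, add_zero]
  · omega

theorem coeff_two' (f0 f1 f2 : PowerSeries R) (n : ℕ) :
    coeff (3 * n + 2) (ph f0 + X * ph f1 + X ^ 2 * ph f2) = coeff n f2 := by
  rw [map_add, map_add, show 3 * n + 2 = (3 * n + 1) + 1 by ring, coeff_succ_X_mul, ph,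
    coeff_expand_of_not_dvd, coeff_expand_of_not_dvd, coeff_X_pow_mul', if_pos (by omega),
    show 3 * n + 1 + 1 - 2 = 3 * n by omega, coeff_expand_mul, zero_add, zero_add]
  · omega
  · omega

theorem allZ_ev (c : ℕ) : ∀ l : List ℕ, allZ c l = true → C (c : R) * ev l = 0
  | [], _ => by simp [ev]
  | y :: l, h => by
    simp only [allZ, Bool.and_eq_true, Nat.beq_eq] at h
    have h2 := allZ_ev c l h.2
    have h1 : ((c * y : ℕ) : R) = 0 := by rw [← cast_mod, h.1]; simp
    simp only [ev]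
    rw [mul_add, ← map_mul, ← Nat.cast_mul, h1, map_zero, zero_add]
    rw [show C (c : R) * (U * ev l) = U * (C (c : R) * ev l) by ring, h2, mul_zero]

theorem eqS_ev (δ c : ℕ) : ∀ k l : List ℕ, eqS δ c k l = true →
    C (δ : R) * ev k = C (c : R) * ev l
  | [], l, h => by
    rw [eqS] at h
    rw [allZ_ev c l h]
    simp [ev]
  | x :: k, [], h => by
    simp only [eqS, Bool.and_eq_true, Nat.beq_eq] at h
    have h2 := eqS_ev δ c k [] h.2
    have h1 : ((δ * x : ℕ) : R) = 0 := by rw [← cast_mod, h.1]; simp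
    simp only [ev, mul_zero] at h2 ⊢
    rw [mul_add, ← map_mul, ← Nat.cast_mul, h1, map_zero, zero_add]
    rw [show C (δ : R) * (U * ev k) = U * (C (δ : R) * ev k) by ring, h2, mul_zero]
  | x :: k, y :: l, h => by
    simp only [eqS, Bool.and_eq_true, Nat.beq_eq] at h
    have h2 := eqS_ev δ c k l h.2
    have h1 : ((δ * x : ℕ) : R) = ((c * y : ℕ) : R) := by rw [← cast_mod, h.1, cast_mod]
    push_cast at h1
    simp only [ev]
    rw [mul_add, mul_add, ← map_mul, ← map_mul, h1]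
    linear_combination U * h2

theorem sep_eq {α : Type} : ∀ (l : List (ℕ × ℕ × ℕ)) (k : List ℕ → List ℕ → List ℕ → α),
    sep l k = k (l.map Prod.fst) (l.map fun t => t.2.1) (l.map fun t => t.2.2)
  | [], k => rfl
  | (a, b, c) :: l, k => by
    simp only [sep, force_eq, List.map_cons]
    rw [sep_eq l]

theorem ev_fst : ∀ l : List (ℕ × ℕ × ℕ), ev (l.map Prod.fst) = ev0 l
  | [] => rfl
  | (a, b, c) :: l => by simp only [List.map_cons, ev, ev0, ev_fst l]

theorem ev_snd : ∀ l : List (ℕ × ℕ × ℕ), ev (l.map fun t => t.2.1) = ev1 l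
  | [] => rfl
  | (a, b, c) :: l => by simp only [List.map_cons, ev, ev1, ev_snd l]

theorem ev_trd : ∀ l : List (ℕ × ℕ × ℕ), ev (l.map fun t => t.2.2) = ev2 l
  | [] => rfl
  | (a, b, c) :: l => by simp only [List.map_cons, ev, ev2, ev_trd l]

theorem constCoeff_ev (l : List ℕ) : coeff 0 (ev l) = ((sumL l : ℕ) : R) := by
  induction l with
  | nil => simp [ev, sumL]
  | cons a l ih =>
    rw [ev, map_add, sumL, Nat.cast_add]
    have h1 : coeff 0 (U * ev l) = coeff 0 (ev l) := by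
      rw [coeff_zero_eq_constantCoeff_apply, map_mul, ← coeff_zero_eq_constantCoeff_apply]
      simp [U]
    rw [h1, ih]
    simp

/-- a checked transition transports non-vanishing -/
theorem transport {x : List ℕ} {t : ℕ × ℕ × ℕ} (h : checkTr x t = true) (F : PowerSeries R) (n : ℕ)
    (hne : ∀ i < 20, coeff n (ev (states.getD i []) * F) ≠ 0) : coeff n (ev x * F) ≠ 0 := by
  obtain ⟨i, δ, c⟩ := t
  simp only [checkTr, Bool.and_eq_true, Nat.ble_eq, Bool.not_eq_true'] at h
  obtain ⟨⟨h1, h2⟩, h3⟩ := h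
  have he := eqS_ev δ c _ _ h3
  have hi : i < 20 := by omega
  intro h0
  apply hne i hi
  have hc : IsUnit ((c : ℕ) : R) := by
    rw [ZMod.isUnit_iff_coprime]
    have h4 : c % 3 ≠ 0 := by
      intro h5
      rw [h5] at h2
      simp at h2
    have : Nat.Coprime c 3 := by
      rw [Nat.coprime_comm, Nat.Prime.coprime_iff_not_dvd Nat.prime_three]
      omega
    rw [show 729 = 3 ^ 6 by norm_num]
    exact Nat.Coprime.pow_right 6 this
  have h6 : (c : R) * coeff n (ev (states.getD i []) * F) = 0 := by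
    rw [← coeff_C_mul, ← mul_assoc, ← he, mul_assoc, coeff_C_mul, h0, mul_zero]
  exact (hc.mul_right_eq_zero).1 h6

theorem main_ne (K : ℕ) : ∀ n < 3 ^ K, ∀ i < 20, coeff n (ev (states.getD i []) * G K) ≠ 0 := by
  induction K with
  | zero =>
    intro n hn i hi
    have hn0 : n = 0 := by simpa using hn
    subst hn0
    have hc := checkAll_mem 20 i hi check_states
    simp only [checkOne, Bool.and_eq_true, Bool.not_eq_true', ] at hc
    have hG : G 0 = 1 := by simp [G]
    rw [hG, mul_one, constCoeff_ev]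
    intro h0
    rw [ZMod.natCast_eq_zero_iff] at h0
    have h1 := hc.1
    rw [Nat.mod_eq_zero_of_dvd h0] at h1
    simp at h1
  | succ K ih =>
    intro n hn i hi
    have hc := checkAll_mem 20 i hi check_states
    simp only [checkOne, Bool.and_eq_true] at hc
    have hc2 := hc.2
    rw [sep_eq, Bool.and_eq_true, Bool.and_eq_true] at hc2
    obtain ⟨⟨c0, c1⟩, c2⟩ := hc2
    have key : ev (states.getD i []) * G (K + 1) =
        ph (ev ((mulUn 22 (horner (states.getD i []))).map Prod.fst) * G K) +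
        X * ph (ev ((mulUn 22 (horner (states.getD i []))).map fun t => t.2.1) * G K) +
        X ^ 2 * ph (ev ((mulUn 22 (horner (states.getD i []))).map fun t => t.2.2) * G K) := by
      have h := ev_mulUn 22 (horner (states.getD i []))
      rw [G_succ, ev_horner (states.getD i []), ev_fst, ev_snd, ev_trd, map_mul, map_mul, map_mul]
      linear_combination (ph (G K)) * h
    rw [key]
    have hn3 : n < 3 * 3 ^ K := by rw [pow_succ] at hn; omega
    obtain ⟨m, hm | hm | hm⟩ : ∃ m, n = 3 * m ∨ n = 3 * m + 1 ∨ n = 3 * m + 2 := ⟨n / 3, by omega⟩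
    · rw [hm, coeff_zero']
      exact transport c0 _ _ (ih m (by omega))
    · rw [hm, coeff_one']
      exact transport c1 _ _ (ih m (by omega))
    · rw [hm, coeff_two']
      exact transport c2 _ _ (ih m (by omega))

open Pool.Agent.V11310.ColoredP in
theorem not_dvd (n : ℕ) : ¬ ((3 : ℤ) ^ 6 ∣ A 3 22 n) := by
  intro h
  have h1 := main_ne (n + 1) n (Nat.lt_of_lt_of_le (Nat.lt_pow_self (by norm_num))
    (Nat.pow_le_pow_right (by norm_num) (by omega))) 0 (by norm_num)
  apply h1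
  have h2 : ev (states.getD 0 []) = 1 := by simp [states, ev]
  rw [h2, one_mul]
  have h3 : G (n + 1) = PowerSeries.map (Int.castRingHom R) (∏ i ∈ Finset.range (n + 1),
      Pool.Agent.V11310.Colored4.geom (3 ^ i) ^ 22) := by
    rw [map_prod, G]
    refine Finset.prod_congr rfl fun i _ => ?_
    rw [map_pow]
    congr 1
    ext j
    rw [coeff_map, coeff_mk, Pool.Agent.V11310.Colored4.geom, coeff_mk]
    split_ifs <;> simp
  rw [h3, coeff_map]
  have := (ZMod.intCast_zmod_eq_zero_iff_dvd (A 3 22 n) 729).2 (by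
    rw [show (((729 : ℕ) : ℤ)) = 3 ^ 6 by norm_num]; exact h)
  rw [← this]
  rfl

end Pool.Agent.V11310.Tern
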