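import Mathlib
import Pool.Agent.V11310.Colored4

namespace Pool.Agent.V11310.Colored4b

open PowerSeries Finset Pool.Agent.V11310.Colored4

/-! ### `m` odd -/

lemma G_sq_aux {y g B V : PowerSeries ℤ} (hg : (1 - y) * g = 1)
    (hB : (1 + y ^ 4) * B = y ^ 2) (hV : (1 + y ^ 4) * V = 1) :
    ∃ C : PowerSeries ℤ, ((1 - y ^ 4) * g ^ 4) ^ 2 = 1 + 4 * B + 8 * C := by
  have hP : (1 - y ^ 4) ^ 2 * (1 + y ^ 4) = (1 - y) ^ 8 * ((1 + y ^ 4) + 4 * y ^ 2) +
      8 * ((1) * y ^ 1 + (-4) * y ^ 2 + (11) * y ^ 3 + (-23) * y ^ 4 + (36) * y ^ 5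
        + (-42) * y ^ 6 + (36) * y ^ 7 + (-23) * y ^ 8 + (11) * y ^ 9 + (-4) * y ^ 10
        + (1) * y ^ 11) := by ring
  set P := ((1) * y ^ 1 + (-4) * y ^ 2 + (11) * y ^ 3 + (-23) * y ^ 4 + (36) * y ^ 5
        + (-42) * y ^ 6 + (36) * y ^ 7 + (-23) * y ^ 8 + (11) * y ^ 9 + (-4) * y ^ 10
        + (1) * y ^ 11)
  refine ⟨P * g ^ 8 * V, ?_⟩
  have hg8 : (1 - y) ^ 8 * g ^ 8 = 1 := by rw [← mul_pow, hg, one_pow]
  calc ((1 - y ^ 4) * g ^ 4) ^ 2
      = ((1 - y ^ 4) ^ 2 * (1 + y ^ 4)) * g ^ 8 * V := by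
        linear_combination -((1 - y ^ 4) ^ 2 * g ^ 8) * hV
    _ = ((1 - y) ^ 8 * g ^ 8) * ((1 + y ^ 4) + 4 * y ^ 2) * V + 8 * (P * g ^ 8 * V) := by
        rw [hP]; ring
    _ = ((1 + y ^ 4) + 4 * y ^ 2) * V + 8 * (P * g ^ 8 * V) := by
        rw [hg8]; ring
    _ = (1 + y ^ 4) * V * (1 + 4 * B) + 8 * (P * g ^ 8 * V) := by
        linear_combination - (4 * V) * hB
    _ = 1 + 4 * B + 8 * (P * g ^ 8 * V) := by rw [hV]; ring

lemma isUnit_aux2 {d : ℕ} (hd : 0 < d) :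
    IsUnit (1 + (X : PowerSeries ℤ) ^ (4 * d)) := by
  rw [PowerSeries.isUnit_iff_constantCoeff]
  have h2 : constantCoeff ((X : PowerSeries ℤ) ^ (4 * d)) = 0 := by
    rw [map_pow, PowerSeries.constantCoeff_X, zero_pow (by omega)]
  rw [map_add, h2]
  simp

lemma G_sq {d : ℕ} (hd : 0 < d) : ∃ C : PowerSeries ℤ,
    G d ^ 2 = 1 + 4 * B d + 8 * C := by
  obtain ⟨V, hV⟩ := (isUnit_aux2 hd).exists_right_inv
  have hB := B_eq hd
  have hg := one_sub_mul_geom hd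
  unfold G
  have hy2 : (X : PowerSeries ℤ) ^ (2 * d) = (X ^ d) ^ 2 := by rw [← pow_mul, mul_comm]
  have hy4 : (X : PowerSeries ℤ) ^ (4 * d) = (X ^ d) ^ 4 := by rw [← pow_mul, mul_comm]
  rw [hy2, hy4] at hB
  rw [hy4] at hV
  rw [hy4]
  exact G_sq_aux hg hB hV

lemma G_pow' {d : ℕ} (hd : 0 < d) (a : ℕ) (ha : 1 ≤ a) : ∃ C : PowerSeries ℤ,
    G d ^ (2 ^ a) = 1 + 2 ^ (a + 1) * B d + 2 ^ (a + 2) * C := by
  induction a, ha using Nat.le_induction with
  | base =>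
    obtain ⟨C, hC⟩ := G_sq hd
    refine ⟨C, ?_⟩
    norm_num
    exact hC
  | succ a ha ih =>
    obtain ⟨C, hC⟩ := ih
    obtain ⟨b, rfl⟩ : ∃ b, a = b + 1 := ⟨a - 1, by omega⟩
    rw [pow_succ 2 (b + 1), pow_mul, hC]
    set Z := B d
    refine ⟨C + 2 ^ b * Z ^ 2 + 2 * 2 ^ (b + 1) * Z * C + 2 * 2 ^ (b + 1) * C ^ 2, ?_⟩
    ring

lemma prod_G_pow' (a : ℕ) (ha : 1 ≤ a) (N : ℕ) : ∃ C : PowerSeries ℤ,
    ∏ i ∈ range N, G (4 ^ i) ^ (2 ^ a) =
      1 + 2 ^ (a + 1) * (∑ i ∈ range N, B (4 ^ i)) + 2 ^ (a + 2) * C := by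
  induction N with
  | zero => exact ⟨0, by simp⟩
  | succ N ih =>
    obtain ⟨C, hC⟩ := ih
    obtain ⟨D, hD⟩ := G_pow' (d := 4 ^ N) (by positivity) a ha
    rw [prod_range_succ, sum_range_succ, hC, hD]
    obtain ⟨b, rfl⟩ : ∃ b, a = b + 1 := ⟨a - 1, by omega⟩
    set Z := ∑ i ∈ range N, B (4 ^ i)
    set W := B (4 ^ N)
    refine ⟨C + D + 2 ^ (b + 1) * Z * W + 2 ^ (b + 2) * Z * D + 2 ^ (b + 2) * C * W +
      2 ^ (b + 3) * C * D, ?_⟩
    ring

lemma pow_odd_part' (a : ℕ) (ha : 1 ≤ a) (Z C : PowerSeries ℤ) (u : ℕ) :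
    ∃ D : PowerSeries ℤ, (1 + 2 ^ (a + 1) * Z + 2 ^ (a + 2) * C) ^ u =
      1 + 2 ^ (a + 1) * (u * Z) + 2 ^ (a + 2) * D := by
  obtain ⟨b, rfl⟩ : ∃ b, a = b + 1 := ⟨a - 1, by omega⟩
  induction u with
  | zero => exact ⟨0, by simp⟩
  | succ u ih =>
    obtain ⟨D, hD⟩ := ih
    rw [pow_succ, hD]
    refine ⟨C + D + 2 ^ (b + 1) * (u * Z) * Z + 2 ^ (b + 2) * (u * Z) * C + 2 ^ (b + 2) * D * Z +
      2 ^ (b + 3) * C * D, ?_⟩
    push_cast
    ring

/-- `∏_{i < N} (1 - x^{4^i})^3`. -/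
noncomputable def DD (N : ℕ) : PowerSeries ℤ := ∏ i ∈ range N, (1 - X ^ (4 ^ i)) ^ 3

lemma F_mul_DD (N : ℕ) :
    (∏ i ∈ range N, G (4 ^ i)) * ((1 - X) * DD N) = 1 - X ^ (4 ^ N) := by
  induction N with
  | zero => simp [DD]
  | succ N ih =>
    have h := one_sub_mul_geom (d := 4 ^ N) (by positivity)
    have h4 : (1 - (X : PowerSeries ℤ) ^ 4 ^ N) ^ 4 * geom (4 ^ N) ^ 4 = 1 := by
      rw [← mul_pow, h, one_pow]
    rw [prod_range_succ, DD, prod_range_succ, ← DD, G, show 4 * 4 ^ N = 4 ^ (N + 1) by ring]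
    calc (∏ i ∈ range N, G (4 ^ i)) * ((1 - X ^ 4 ^ (N + 1)) * geom (4 ^ N) ^ 4) *
          ((1 - X) * (DD N * (1 - X ^ 4 ^ N) ^ 3))
        = ((∏ i ∈ range N, G (4 ^ i)) * ((1 - X) * DD N)) * ((1 - X ^ 4 ^ N) ^ 3 *
          geom (4 ^ N) ^ 4) * (1 - X ^ 4 ^ (N + 1)) := by ring
      _ = ((1 - X ^ 4 ^ N) ^ 4 * geom (4 ^ N) ^ 4) * (1 - X ^ 4 ^ (N + 1)) := by
        rw [ih]; ring
      _ = 1 - X ^ 4 ^ (N + 1) := by rw [h4, one_mul]

/-- coefficients of `(1-x)^3` -/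
def eps (r : ℕ) : ℤ := if r = 0 then 1 else if r = 1 then -3 else if r = 2 then 3
  else if r = 3 then -1 else 0

lemma coeff_cube {d : ℕ} (hd : 0 < d) (n : ℕ) :
    coeff n ((1 - (X : PowerSeries ℤ) ^ d) ^ 3) = if d ∣ n then eps (n / d) else 0 := by
  have e : (1 - (X : PowerSeries ℤ) ^ d) ^ 3 = 1 - 3 * X ^ (d * 1) + 3 * X ^ (d * 2)
      - X ^ (d * 3) := by ring
  have e3 : ∀ F : PowerSeries ℤ, coeff n (3 * F) = 3 * coeff n F := by
    intro F
    rw [show (3 : PowerSeries ℤ) = PowerSeries.C (3 : ℤ) by simp, PowerSeries.coeff_C_mul]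
  rw [e, map_sub, map_add, map_sub, e3, e3, coeff_X_pow, coeff_X_pow, coeff_X_pow, coeff_one]
  by_cases h : d ∣ n
  · obtain ⟨q, rfl⟩ := h
    rw [if_pos (dvd_mul_right _ _), Nat.mul_div_cancel_left _ hd]
    have f : ∀ j, d * q = d * j ↔ q = j := fun j => ⟨fun h => Nat.eq_of_mul_eq_mul_left hd h,
      fun h => by rw [h]⟩
    have f0 : d * q = 0 ↔ q = 0 := by
      constructor
      · intro h
        rcases Nat.mul_eq_zero.1 h with h | h
        · omega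
        · exact h
      · rintro rfl; simp
    simp only [f, f0, eps]
    rcases q with _ | _ | _ | _ | q
    · simp
    · simp
    · simp
    · simp
    · simp
  · have f : ∀ j, ¬ (n = d * j) := fun j h' => h ⟨j, h'⟩
    have f0 : ¬ (n = 0) := by rintro rfl; exact h (dvd_zero d)
    rw [if_neg h, if_neg (f 1), if_neg (f 2), if_neg (f 3), if_neg f0]
    ring

/-- `d(n)`: product over the `N` lowest base-4 digits. -/
def dd : ℕ → ℕ → ℤ
  | 0, n => if n = 0 then 1 else 0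
  | N + 1, n => eps (n % 4) * dd N (n / 4)

lemma DD_coeff : ∀ (N e n : ℕ), coeff n (∏ i ∈ range N, (1 - (X : PowerSeries ℤ) ^ (4 ^ (e + i))) ^ 3) =
    if 4 ^ e ∣ n then dd N (n / 4 ^ e) else 0 := by
  intro N
  induction N with
  | zero =>
    intro e n
    rw [prod_range_zero, coeff_one, dd]
    by_cases h : n = 0
    · subst h; simp
    · rw [if_neg h]
      by_cases h2 : 4 ^ e ∣ n
      · rw [if_pos h2, if_neg]
        intro h3
        obtain ⟨q, rfl⟩ := h2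
        rw [Nat.mul_div_cancel_left _ (by positivity)] at h3
        subst h3
        exact h (by simp)
      · rw [if_neg h2]
  | succ N ih =>
    intro e n
    rw [prod_range_succ']
    simp only [add_zero]
    have e1 : ∏ i ∈ range N, (1 - (X : PowerSeries ℤ) ^ 4 ^ (e + (i + 1))) ^ 3 =
        ∏ i ∈ range N, (1 - (X : PowerSeries ℤ) ^ 4 ^ ((e + 1) + i)) ^ 3 := by
      apply prod_congr rfl
      intro i _
      rw [show e + (i + 1) = (e + 1) + i by ring]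
    rw [e1]
    set P := ∏ i ∈ range N, (1 - (X : PowerSeries ℤ) ^ 4 ^ ((e + 1) + i)) ^ 3 with hP
    have hPc := ih (e + 1)
    rw [← hP] at hPc
    have ex : (1 - (X : PowerSeries ℤ) ^ 4 ^ e) ^ 3 = 1 - 3 * X ^ (4 ^ e * 1) +
      3 * X ^ (4 ^ e * 2) - X ^ (4 ^ e * 3) := by ring
    have e3 : ∀ F : PowerSeries ℤ, coeff n (3 * F) = 3 * coeff n F := by
      intro F
      rw [show (3 : PowerSeries ℤ) = PowerSeries.C (3 : ℤ) by simp, PowerSeries.coeff_C_mul]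
    rw [ex, show P * (1 - 3 * X ^ (4 ^ e * 1) + 3 * X ^ (4 ^ e * 2) - X ^ (4 ^ e * 3)) =
      P - 3 * (X ^ (4 ^ e * 1) * P) + 3 * (X ^ (4 ^ e * 2) * P) - X ^ (4 ^ e * 3) * P by ring,
      map_sub, map_add, map_sub, e3, e3, coeff_X_pow_mul', coeff_X_pow_mul', coeff_X_pow_mul']
    have hpos : 0 < 4 ^ e := by positivity
    by_cases h : 4 ^ e ∣ n
    · obtain ⟨q, rfl⟩ := h
      have key : ∀ j, (if 4 ^ e * j ≤ 4 ^ e * q then coeff (4 ^ e * q - 4 ^ e * j) P else 0) =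
          if j ≤ q ∧ 4 ∣ q - j then dd N ((q - j) / 4) else 0 := by
        intro j
        by_cases hj : j ≤ q
        · rw [if_pos (Nat.mul_le_mul_left _ hj), ← Nat.mul_sub, hPc, pow_succ]
          by_cases h4 : 4 ∣ q - j
          · rw [if_pos (Nat.mul_dvd_mul_left _ h4), if_pos ⟨hj, h4⟩,
              Nat.mul_div_mul_left _ _ hpos]
          · rw [if_neg, if_neg (by tauto)]
            intro h5
            exact h4 (Nat.dvd_of_mul_dvd_mul_left hpos h5)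
        · rw [if_neg, if_neg (by tauto)]
          intro h5
          exact hj (Nat.le_of_mul_le_mul_left h5 hpos)
      have key0 := key 0
      rw [mul_zero, if_pos (Nat.zero_le _), Nat.sub_zero] at key0
      rw [key0, key 1, key 2, key 3, if_pos (dvd_mul_right _ _),
        Nat.mul_div_cancel_left _ hpos, dd, eps]
      have hq := Nat.mod_add_div q 4
      have hlt : q % 4 < 4 := Nat.mod_lt _ (by norm_num)
      generalize hr : q % 4 = r at *
      generalize hs : q / 4 = s at *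
      obtain rfl : q = r + 4 * s := by omega
      clear hr hs hq
      interval_cases r
      · rw [if_pos ⟨by omega, by omega⟩, if_neg (by omega), if_neg (by omega),
          if_neg (by omega)]
        simp
      · rw [if_neg (by omega), if_pos ⟨by omega, by omega⟩, if_neg (by omega),
          if_neg (by omega), show (1 + 4 * s - 1) / 4 = s by omega]
        simp
      · rw [if_neg (by omega), if_neg (by omega), if_pos ⟨by omega, by omega⟩,
          if_neg (by omega), show (2 + 4 * s - 2) / 4 = s by omega]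
        simp
      · rw [if_neg (by omega), if_neg (by omega), if_neg (by omega), if_pos ⟨by omega, by omega⟩,
          show (3 + 4 * s - 3) / 4 = s by omega]
        simp
    · have key : ∀ j, (if 4 ^ e * j ≤ n then coeff (n - 4 ^ e * j) P else 0) = 0 := by
        intro j
        by_cases hj : 4 ^ e * j ≤ n
        · rw [if_pos hj, hPc, if_neg]
          intro h5
          apply h
          have h6 : 4 ^ e ∣ n - 4 ^ e * j := (Dvd.intro _ (pow_succ 4 e).symm).trans h5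
          have h7 := dvd_add h6 (dvd_mul_right (4 ^ e) j)
          rwa [Nat.sub_add_cancel hj] at h7
        · rw [if_neg hj]
      have key0 := key 0
      rw [mul_zero, if_pos (Nat.zero_le _), Nat.sub_zero] at key0
      rw [key0, key 1, key 2, key 3, if_neg h]
      ring

lemma coeff_DD (N n : ℕ) : coeff n (DD N) = dd N n := by
  have := DD_coeff N 0 n
  simpa [DD] using this

/-- `d(n)` is odd for `n < 4^N`. -/
lemma dd_odd : ∀ (N n : ℕ), n < 4 ^ N → dd N n % 2 = 1 := by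
  intro N
  induction N with
  | zero =>
    intro n hn
    have : n = 0 := by simpa using hn
    subst this
    rfl
  | succ N ih =>
    intro n hn
    rw [dd]
    have h1 := ih (n / 4) (by rw [pow_succ] at hn; omega)
    have h2 : eps (n % 4) % 2 = 1 := by
      have : n % 4 < 4 := Nat.mod_lt _ (by norm_num)
      generalize n % 4 = r at *
      interval_cases r <;> rfl
    rw [Int.mul_emod, h1, h2]
    rfl

/-- `D_-(n) = d(n) - d(n-1)`. -/
lemma dd_diff : ∀ (b N w : ℕ), w % 4 ≠ 0 →  4 ^ b * w < 4 ^ N →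
    ∃ d' : ℤ, d' % 2 = 1 ∧ ∀ s : ℤ, s = 1 ∨ s = -1 →
      dd N (4 ^ b * w) - s * dd N (4 ^ b * w - 1) =
        d' * (eps (w % 4) - s * (-1) ^ b * eps (w % 4 - 1)) := by
  intro b
  induction b with
  | zero =>
    intro N w hw hN
    simp only [pow_zero, one_mul, mul_one] at hN ⊢
    obtain ⟨M, rfl⟩ : ∃ M, N = M + 1 := by
      cases N with
      | zero => simp at hN; omega
      | succ M => exact ⟨M, rfl⟩
    refine ⟨dd M (w / 4), dd_odd M _ (by rw [pow_succ] at hN; omega), ?_⟩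
    intro s _
    rw [dd, dd, show (w - 1) % 4 = w % 4 - 1 by omega, show (w - 1) / 4 = w / 4 by omega]
    ring
  | succ b ih =>
    intro N w hw hN
    have hw0 : 0 < w := by omega
    obtain ⟨M, rfl⟩ : ∃ M, N = M + 1 := by
      cases N with
      | zero =>
        have : 0 < 4 ^ (b + 1) * w := by positivity
        simp at hN; omega
      | succ M => exact ⟨M, rfl⟩
    have hN' : 4 ^ b * w < 4 ^ M := by
      rw [pow_succ, pow_succ] at hN
      nlinarith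
    obtain ⟨d', hd', h⟩ := ih M w hw hN'
    refine ⟨d', hd', ?_⟩
    intro s hs
    have hpos : 0 < 4 ^ b * w := by positivity
    have e1 : 4 ^ (b + 1) * w = 4 * (4 ^ b * w) := by ring
    rw [e1]
    generalize 4 ^ b * w = v at *
    rw [dd, dd, show (4 * v) % 4 = 0 by omega, show (4 * v) / 4 = v by omega,
      show (4 * v - 1) % 4 = 3 by omega, show (4 * v - 1) / 4 = v - 1 by omega,
      show eps 0 = 1 by rfl, show eps 3 = -1 by rfl]
    have h' := h (-s) (by rcases hs with hs | hs <;> simp [hs])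
    rw [pow_succ]
    linear_combination h'

lemma G_mod_two {d : ℕ} (hd : 0 < d) : ∃ H : PowerSeries ℤ, G d = 1 + 2 * H := by
  have hg := one_sub_mul_geom hd
  have hy4 : (X : PowerSeries ℤ) ^ (4 * d) = (X ^ d) ^ 4 := by rw [← pow_mul, mul_comm]
  have hg4 : (1 - (X : PowerSeries ℤ) ^ d) ^ 4 * geom d ^ 4 = 1 := by rw [← mul_pow, hg, one_pow]
  refine ⟨(2 * X ^ d - 3 * (X ^ d) ^ 2 + 2 * (X ^ d) ^ 3 - (X ^ d) ^ 4) * geom d ^ 4, ?_⟩
  rw [G, hy4]
  linear_combination hg4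

lemma prod_G_mod_two (N : ℕ) : ∃ H : PowerSeries ℤ, ∏ i ∈ range N, G (4 ^ i) = 1 + 2 * H := by
  induction N with
  | zero => exact ⟨0, by simp⟩
  | succ N ih =>
    obtain ⟨H, hH⟩ := ih
    obtain ⟨K, hK⟩ := G_mod_two (d := 4 ^ N) (by positivity)
    refine ⟨H + K + 2 * H * K, ?_⟩
    rw [prod_range_succ, hH, hK]
    ring

lemma coeff_A_even (d n : ℕ) : ∃ z : ℤ, coeff n (A d) = 2 * z := by
  rw [A, coeff_mk]
  split_ifs
  · exact ⟨1, by norm_num⟩
  · exact ⟨0, by norm_num⟩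

lemma sum_B_parity {n b w N : ℕ} (hn : n = 4 ^ b * w) (hw : ¬ 4 ∣ w) (hb : b < N) :
    ∃ z : ℤ, coeff n (∑ i ∈ range N, B (4 ^ i)) = c w + 2 * z := by
  have h := sum_c hn hw hb
  have h2 : ∃ z : ℤ, ∑ i ∈ range N, coeff n (A (4 ^ i)) = 2 * z := by
    choose f hf using fun i : ℕ => coeff_A_even (4 ^ i) n
    exact ⟨∑ i ∈ range N, f i, by rw [mul_sum]; exact sum_congr rfl fun i _ => hf i⟩
  obtain ⟨z, hz⟩ := h2
  refine ⟨-z, ?_⟩
  rw [map_sum]
  simp only [map_add, sum_add_distrib] at h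
  rw [hz] at h
  linear_combination h

lemma coeff_two_pow (n j : ℕ) (F : PowerSeries ℤ) :
    coeff n ((2 : PowerSeries ℤ) ^ j * F) = 2 ^ j * coeff n F := by
  rw [show ((2 : PowerSeries ℤ) ^ j) = PowerSeries.C ((2 : ℤ) ^ j) by simp,
    PowerSeries.coeff_C_mul]

lemma coeff_natCast_mul' (n u : ℕ) (F : PowerSeries ℤ) :
    coeff n ((u : PowerSeries ℤ) * F) = u * coeff n F := by
  rw [show ((u : PowerSeries ℤ)) = PowerSeries.C (u : ℤ) by simp, PowerSeries.coeff_C_mul]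

lemma coeff_mul_one_sub {M n : ℕ} (h : n < M) (F : PowerSeries ℤ) :
    coeff n (F * (1 - X ^ M)) = coeff n F := by
  rw [mul_sub, mul_one, map_sub, mul_comm, coeff_X_pow_mul', if_neg (by omega), sub_zero]

lemma S_odd_main {m a u n b w : ℕ} (ha : 1 ≤ a) (hm : m + 1 = 2 ^ a * u) (hu : u % 2 = 1)
    (hn : n = 4 ^ b * w) (hw : ¬ 4 ∣ w) :
    ∃ C : ℤ, S 4 m n = (dd (n + 1) n - dd (n + 1) (n - 1)) + 2 ^ (a + 1) * c w
      + 2 ^ (a + 2) * C := by
  have hw0 : 0 < w := Nat.pos_of_ne_zero (by rintro rfl; simp at hw)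
  have hn0 : 0 < n := by rw [hn]; positivity
  have hb : b < n + 1 := by
    have h1 : b < 4 ^ b := Nat.lt_pow_self (by norm_num)
    have h2 : 4 ^ b ≤ n := by rw [hn]; exact Nat.le_mul_of_pos_right _ hw0
    omega
  have hnN : n < 4 ^ (n + 1) := calc
    n < n + 1 := by omega
    _ < 4 ^ (n + 1) := Nat.lt_pow_self (by norm_num)
  rw [S_eq]
  set N := n + 1 with hN
  set F := ∏ i ∈ range N, G (4 ^ i) with hF
  set W := (1 - X) * DD N with hW
  have hFW : F * W = 1 - X ^ (4 ^ N) := F_mul_DD N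
  obtain ⟨H, hH⟩ := prod_G_mod_two N
  rw [← hF] at hH
  obtain ⟨C1, hC1⟩ := prod_G_pow' a ha N
  rw [prod_pow, ← hF] at hC1
  obtain ⟨D, hD⟩ := pow_odd_part' a ha (∑ i ∈ range N, B (4 ^ i)) C1 u
  rw [← hC1, ← pow_mul, ← hm] at hD
  set Z := ∑ i ∈ range N, B (4 ^ i) with hZ
  have e1 : F ^ m * (1 - X ^ (4 ^ N)) = W + 2 ^ (a + 1) * ((u : PowerSeries ℤ) * (Z * (1 - X ^ (4 ^ N))))
      + 2 ^ (a + 2) * (D * W - (u : PowerSeries ℤ) * (Z * (H * W))) := by
    rw [← hFW]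
    have : F ^ m * (F * W) = F ^ (m + 1) * W := by ring
    rw [this, hD, hH]
    ring
  have e2 := congrArg (coeff n) e1
  rw [coeff_mul_one_sub hnN, map_add, map_add, coeff_two_pow, coeff_two_pow,
    coeff_natCast_mul', coeff_mul_one_sub hnN] at e2
  obtain ⟨z, hz⟩ := sum_B_parity hn hw hb
  rw [← hZ] at hz
  obtain ⟨v, hv⟩ : ∃ v, u = 2 * v + 1 := ⟨u / 2, by omega⟩
  refine ⟨v * (c w + 2 * z) + z + coeff n (D * W - (u : PowerSeries ℤ) * (Z * (H * W))), ?_⟩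
  have e3 : coeff n W = dd N n - dd N (n - 1) := by
    rw [hW, sub_mul, one_mul, map_sub, coeff_DD]
    congr 1
    rw [show (X : PowerSeries ℤ) * DD N = X ^ 1 * DD N by ring, coeff_X_pow_mul',
      if_pos (show 1 ≤ n from hn0), coeff_DD]
  rw [e2, e3, hz, hv]
  push_cast
  ring

/-- the odd case: `m + 1 = 2^a u`, `u` odd. -/
theorem val_odd {m a u n b w : ℕ} (ha : 1 ≤ a) (hm : m + 1 = 2 ^ a * u) (hu : u % 2 = 1)
    (hn : n = 4 ^ b * w) (hw : w % 4 ≠ 0) :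
    ∃ M : ℤ, M % 2 = 1 ∧ S 4 m n =
      2 ^ (if w % 2 = 1 then (if b % 2 = 0 then 2 else 1)
        else (if b % 2 = 0 then 1 else a + 1)) * M := by
  obtain ⟨C, hC⟩ := S_odd_main ha hm hu hn (by omega)
  have hnN : 4 ^ b * w < 4 ^ (n + 1) := by
    rw [← hn]
    calc
      n < n + 1 := by omega
      _ < 4 ^ (n + 1) := Nat.lt_pow_self (by norm_num)
  obtain ⟨d', hd', h⟩ := dd_diff b (n + 1) w hw hnN
  have h1 := h 1 (Or.inl rfl)
  rw [← hn, one_mul, one_mul] at h1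
  rw [h1] at hC
  obtain ⟨a', rfl⟩ : ∃ a', a = a' + 1 := ⟨a - 1, by omega⟩
  rw [hC]
  have hlt : w % 4 < 4 := Nat.mod_lt _ (by norm_num)
  have hb2 : (-1 : ℤ) ^ b = if b % 2 = 0 then 1 else -1 := by
    split_ifs with hb
    · exact Even.neg_one_pow (Nat.even_iff.2 hb)
    · exact Odd.neg_one_pow (Nat.odd_iff.2 (by omega))
  rw [hb2]
  have hw2 : w % 2 = (w % 4) % 2 := by omega
  have hcw : c w = if w % 4 = 2 then (-1) ^ (w / 4) else if w % 4 = 0 then 0 else 2 := by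
    rw [c]
    split_ifs <;> first | rfl | omega
  rw [hcw, hw2]
  generalize hr : w % 4 = r at *
  clear h h1 hw2 hcw
  interval_cases r
  · omega
  · by_cases hb : b % 2 = 0
    · simp only [hb, eps]
      norm_num
      refine ⟨-d' + 2 * (2 ^ a' + 2 ^ a' * C), by omega, ?_⟩
      ring
    · simp only [hb, eps]
      norm_num
      refine ⟨-d' + 2 * (2 * 2 ^ a' + 2 * (2 ^ a' * C)), by omega, ?_⟩
      ring
  · by_cases hb : b % 2 = 0
    · simp only [hb, eps]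
      norm_num
      refine ⟨3 * d' + 2 * 2 ^ a' * (-1) ^ (w / 4) + 4 * 2 ^ a' * C, ?_, ?_⟩
      · have : ∃ t : ℤ, 2 * 2 ^ a' * (-1) ^ (w / 4) + 4 * 2 ^ a' * C = 2 * t :=
          ⟨2 ^ a' * (-1) ^ (w / 4) + 2 * 2 ^ a' * C, by ring⟩
        obtain ⟨t, ht⟩ := this
        rw [add_assoc, ht]
        omega
      · ring
    · simp only [hb, eps]
      norm_num
      refine ⟨(-1) ^ (w / 4) + 2 * C, ?_, ?_⟩
      · rcases neg_one_pow_eq_or ℤ (w / 4) with h3 | h3 <;> rw [h3] <;> omega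
      · ring
  · by_cases hb : b % 2 = 0
    · simp only [hb, eps]
      norm_num
      refine ⟨-d' + 2 * (2 ^ a' + 2 ^ a' * C), by omega, ?_⟩
      ring
    · simp only [hb, eps]
      norm_num
      refine ⟨d' + 2 * (2 * 2 ^ a' + 2 * (2 ^ a' * C)), by omega, ?_⟩
      ring

/-! ### `m ≡ 2 mod 8` -/

/-- table of a quarter of the coefficients of `G^2 - 1` modulo `8`. -/
def tb (r : ℕ) : ℤ :=
  if r % 2 = 0 then (r / 2 : ℕ) else if r % 4 = 1 then 2 else 6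

/-- the periodic power series `∑_{d ∣ n} tb((n/d) mod 16) x^n`. -/
noncomputable def R (d : ℕ) : PowerSeries ℤ :=
  PowerSeries.mk fun n => if d ∣ n then tb ((n / d) % 16) else 0

lemma R_eq {d : ℕ} (hd : 0 < d) : (1 - X ^ (16 * d)) * R d =
    ∑ j ∈ range 16, PowerSeries.C (tb j) * X ^ (d * j) := by
  ext n
  rw [sub_mul, one_mul, map_sub, PowerSeries.coeff_X_pow_mul', R, map_sum]
  simp only [PowerSeries.coeff_mk, PowerSeries.coeff_C_mul, coeff_X_pow]
  by_cases hdn : d ∣ n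
  · obtain ⟨q, rfl⟩ := hdn
    have f : ∀ j, (d * q = d * j) = (q = j) := fun j => propext ⟨fun h =>
      Nat.eq_of_mul_eq_mul_left hd h, fun h => by rw [h]⟩
    simp only [f]
    rw [if_pos (dvd_mul_right _ _), Nat.mul_div_cancel_left _ hd]
    by_cases hq : 16 ≤ q
    · have h1 : 16 * d ≤ d * q := by nlinarith
      have h2 : d * q - 16 * d = d * (q - 16) := by
        rw [Nat.mul_sub, mul_comm d 16]
      rw [if_pos h1, h2, if_pos (dvd_mul_right _ _), Nat.mul_div_cancel_left _ hd,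
        show (q - 16) % 16 = q % 16 by omega, sub_self]
      symm
      apply sum_eq_zero
      intro j hj
      rw [if_neg (by have := mem_range.1 hj; omega), mul_zero]
    · have h1 : ¬ 16 * d ≤ d * q := by
        intro h; apply hq
        have : d * 16 ≤ d * q := by linarith
        exact Nat.le_of_mul_le_mul_left this hd
      rw [if_neg h1, sub_zero, sum_eq_single q]
      · rw [if_pos rfl, mul_one, Nat.mod_eq_of_lt (by omega)]
      · intro j _ hj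
        rw [if_neg (by omega), mul_zero]
      · intro h; exact absurd (mem_range.2 (by omega)) h
  · rw [if_neg hdn]
    have h2 : (if 16 * d ≤ n then (if d ∣ n - 16 * d then tb ((n - 16 * d) / d % 16) else 0)
        else 0) = 0 := by
      split_ifs with h1 h3
      · exfalso
        apply hdn
        have := dvd_add h3 (Dvd.intro_left 16 rfl)
        rwa [Nat.sub_add_cancel h1] at this
      · rfl
      · rfl
    rw [h2, sub_zero]
    symm
    apply sum_eq_zero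
    intro j _
    rw [if_neg, mul_zero]
    intro h
    exact hdn ⟨j, h⟩

lemma isUnit_aux3 {d : ℕ} (hd : 0 < d) :
    IsUnit (1 - (X : PowerSeries ℤ) ^ (16 * d)) := by
  rw [PowerSeries.isUnit_iff_constantCoeff]
  have h2 : constantCoeff ((X : PowerSeries ℤ) ^ (16 * d)) = 0 := by
    rw [map_pow, PowerSeries.constantCoeff_X, zero_pow (by omega)]
  rw [map_sub, h2]
  simp

lemma G_sq_aux2 {y g T V : PowerSeries ℤ} (hg : (1 - y) * g = 1)
    (hT : (1 - y ^ 16) * T = 2 * y + y ^ 2 + 6 * y ^ 3 + 2 * y ^ 4 + 2 * y ^ 5 + 3 * y ^ 6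
      + 6 * y ^ 7 + 4 * y ^ 8 + 2 * y ^ 9 + 5 * y ^ 10 + 6 * y ^ 11 + 6 * y ^ 12 + 2 * y ^ 13
      + 7 * y ^ 14 + 6 * y ^ 15) (hV : (1 - y ^ 16) * V = 1) :
    ∃ C : PowerSeries ℤ, ((1 - y ^ 4) * g ^ 4) ^ 2 = 1 + 4 * T + 32 * C := by
  set P := ((1) * y ^ 2 + (-5) * y ^ 3 + (14) * y ^ 4 + (-28) * y ^ 5 + (41) * y ^ 6
    + (-43) * y ^ 7 + (32) * y ^ 8 + (-20) * y ^ 9 + (16) * y ^ 10 + (-12) * y ^ 11
    + (12) * y ^ 13 + (-16) * y ^ 14 + (20) * y ^ 15 + (-31) * y ^ 16 + (36) * y ^ 17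
    + (-20) * y ^ 18 + (-7) * y ^ 19 + (21) * y ^ 20 + (-16) * y ^ 21 + (6) * y ^ 22
    + (-1) * y ^ 23) with hPdef
  have hP : (1 - y ^ 4) ^ 2 * (1 - y ^ 16) = (1 - y) ^ 8 * ((1 - y ^ 16) +
      4 * (2 * y + y ^ 2 + 6 * y ^ 3 + 2 * y ^ 4 + 2 * y ^ 5 + 3 * y ^ 6
      + 6 * y ^ 7 + 4 * y ^ 8 + 2 * y ^ 9 + 5 * y ^ 10 + 6 * y ^ 11 + 6 * y ^ 12 + 2 * y ^ 13
      + 7 * y ^ 14 + 6 * y ^ 15)) + 32 * P := by
    rw [hPdef]
    ring
  clear_value P
  rw [← hT] at hP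
  refine ⟨P * g ^ 8 * V, ?_⟩
  have hg8 : (1 - y) ^ 8 * g ^ 8 = 1 := by rw [← mul_pow, hg, one_pow]
  calc ((1 - y ^ 4) * g ^ 4) ^ 2
      = ((1 - y ^ 4) ^ 2 * (1 - y ^ 16)) * g ^ 8 * V := by
        linear_combination -((1 - y ^ 4) ^ 2 * g ^ 8) * hV
    _ = ((1 - y) ^ 8 * g ^ 8) * ((1 - y ^ 16) + 4 * ((1 - y ^ 16) * T)) * V
        + 32 * (P * g ^ 8 * V) := by
        rw [hP]; ring
    _ = ((1 - y ^ 16) + 4 * ((1 - y ^ 16) * T)) * V + 32 * (P * g ^ 8 * V) := by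
        rw [hg8]; ring
    _ = (1 - y ^ 16) * V * (1 + 4 * T) + 32 * (P * g ^ 8 * V) := by
        ring
    _ = 1 + 4 * T + 32 * (P * g ^ 8 * V) := by rw [hV]; ring

lemma G_sq2 {d : ℕ} (hd : 0 < d) : ∃ C : PowerSeries ℤ,
    G d ^ 2 = 1 + 4 * R d + 32 * C := by
  obtain ⟨V, hV⟩ := (isUnit_aux3 hd).exists_right_inv
  have hR := R_eq hd
  have hg := one_sub_mul_geom hd
  unfold G
  have hy16 : (X : PowerSeries ℤ) ^ (16 * d) = (X ^ d) ^ 16 := by rw [← pow_mul, mul_comm]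
  have hy4 : (X : PowerSeries ℤ) ^ (4 * d) = (X ^ d) ^ 4 := by rw [← pow_mul, mul_comm]
  rw [hy16] at hR hV
  rw [hy4]
  apply G_sq_aux2 hg _ hV
  rw [hR]
  simp only [sum_range_succ, sum_range_zero, pow_mul]
  norm_num [tb]

/-- evenness of the coefficients at all `n` with `ν₂(n)` even. -/
def EvenAt (F : PowerSeries ℤ) : Prop := ∀ b w : ℕ, w % 2 = 1 → ∃ z : ℤ, coeff (4 ^ b * w) F = 2 * z

lemma tb_table : ∀ r < 16, tb r = (if r % 4 = 2 then 1 else 0) + 2 * (tb r / 2) := by decide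

lemma tb_odd : ∀ r < 16, r % 2 = 1 → tb r % 4 = 2 ∧ (tb r + tb (4 * r % 16)) % 8 = 4 := by decide

lemma tb_even : ∀ r < 16, r % 4 = 2 → tb r % 2 = 1 ∧ tb (4 * r % 16) % 2 = 0 := by decide

lemma tb_parity (q : ℕ) : ∃ z : ℤ, tb (q % 16) = (if q % 4 = 2 then (-1) ^ (q / 4) else 0) + 2 * z := by
  have h1 : q % 4 = (q % 16) % 4 := by omega
  have h2 : q % 16 < 16 := Nat.mod_lt _ (by norm_num)
  have h3 : ∃ z : ℤ, (-1 : ℤ) ^ (q / 4) = 1 + 2 * z := by
    rcases neg_one_pow_eq_or ℤ (q / 4) with h | h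
    · exact ⟨0, by rw [h]; ring⟩
    · exact ⟨-1, by rw [h]; ring⟩
  obtain ⟨z, hz⟩ := h3
  rw [hz, tb_table _ h2, h1]
  by_cases h4 : q % 16 % 4 = 2
  · rw [if_pos h4, if_pos h4]
    exact ⟨tb (q % 16) / 2 - z, by ring⟩
  · rw [if_neg h4, if_neg h4]
    exact ⟨tb (q % 16) / 2, by ring⟩

lemma R_parity {d : ℕ} (hd : 0 < d) : ∃ K : PowerSeries ℤ, R d = B d + 2 * K := by
  have h : ∀ n, ∃ z : ℤ, coeff n (R d) = coeff n (B d) + 2 * z := by
    intro n
    rw [R, B, coeff_mk, coeff_mk]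
    by_cases h : d ∣ n
    · obtain ⟨q, rfl⟩ := h
      rw [if_pos (dvd_mul_right _ _), Nat.mul_div_cancel_left _ hd]
      have e2 : d * q % (4 * d) = d * (q % 4) := by
        rw [mul_comm 4 d, Nat.mul_mod_mul_left]
      have e3 : d * q / (4 * d) = q / 4 := by
        rw [mul_comm 4 d, Nat.mul_div_mul_left _ _ hd]
      have f2 : d * (q % 4) = 2 * d ↔ q % 4 = 2 := by
        constructor
        · intro h; nlinarith
        · intro h; rw [h, mul_comm]
      rw [e2, e3]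
      simp only [f2]
      exact tb_parity q
    · rw [if_neg h]
      have g2 : ¬ (n % (4 * d) = 2 * d) := by
        intro h'
        apply h
        rw [← Nat.mod_add_div n (4 * d), h']
        exact dvd_add (Dvd.intro_left 2 rfl) (Dvd.intro_left 4 rfl |>.mul_right _)
      rw [if_neg g2]
      exact ⟨0, by ring⟩
  choose K hK using h
  refine ⟨PowerSeries.mk K, ?_⟩
  ext n
  rw [hK n, map_add]
  congr 1
  rw [show (2 : PowerSeries ℤ) * PowerSeries.mk K = (2 : PowerSeries ℤ) ^ 1 * PowerSeries.mk K by ring,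
    coeff_two_pow, coeff_mk]
  ring

lemma BB_zero {i j b w : ℕ} (hij : i < j) (hw : w % 2 = 1) :
    coeff (4 ^ b * w) (B (4 ^ i) * B (4 ^ j)) = 0 := by
  rw [coeff_mul]
  apply sum_eq_zero
  rintro ⟨p, q⟩ hpq
  rw [Finset.HasAntidiagonal.mem_antidiagonal] at hpq
  simp only at hpq ⊢
  rw [B, B, coeff_mk, coeff_mk]
  by_cases h1 : p % (4 * 4 ^ i) = 2 * 4 ^ i
  · by_cases h2 : q % (4 * 4 ^ j) = 2 * 4 ^ j
    · exfalso
      obtain ⟨k, rfl⟩ : ∃ k, j = i + 1 + k := ⟨j - i - 1, by omega⟩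
      have hp := Nat.mod_add_div p (4 * 4 ^ i)
      have hq := Nat.mod_add_div q (4 * 4 ^ (i + 1 + k))
      rw [h1] at hp
      rw [h2] at hq
      set s := p / (4 * 4 ^ i)
      set t := q / (4 * 4 ^ (i + 1 + k))
      have h3 : 4 ^ b * w = 4 ^ i * (4 * (s + 2 * 4 ^ k + 4 * 4 ^ k * t) + 2) := by
        rw [← hpq, ← hp, ← hq]
        ring
      rcases le_or_gt b i with h | h
      · obtain ⟨e, rfl⟩ : ∃ e, i = b + e := ⟨i - b, by omega⟩
        rw [pow_add, mul_assoc] at h3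
        have h4 := Nat.eq_of_mul_eq_mul_left (by positivity) h3
        have : 2 ∣ w := by
          rw [h4]
          apply Dvd.dvd.mul_left
          omega
        omega
      · obtain ⟨e, rfl⟩ : ∃ e, b = i + (e + 1) := ⟨b - i - 1, by omega⟩
        rw [pow_add, mul_assoc] at h3
        have h4 := Nat.eq_of_mul_eq_mul_left (by positivity) h3
        rw [pow_succ, show 4 ^ e * 4 * w = 4 * (4 ^ e * w) by ring] at h4
        omega
    · rw [if_neg h2, mul_zero]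
  · rw [if_neg h1, zero_mul]

lemma EvenAt.add {F H : PowerSeries ℤ} (hF : EvenAt F) (hH : EvenAt H) : EvenAt (F + H) := by
  intro b w hw
  obtain ⟨x, hx⟩ := hF b w hw
  obtain ⟨y, hy⟩ := hH b w hw
  exact ⟨x + y, by rw [map_add, hx, hy]; ring⟩

lemma evenAt_two_mul (F : PowerSeries ℤ) : EvenAt (2 * F) := by
  intro b w _
  exact ⟨coeff (4 ^ b * w) F, by
    rw [show (2 : PowerSeries ℤ) * F = (2 : PowerSeries ℤ) ^ 1 * F by ring, coeff_two_pow]; ring⟩

lemma evenAt_RR {i j : ℕ} (hij : i < j) : EvenAt (R (4 ^ i) * R (4 ^ j)) := by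
  obtain ⟨K, hK⟩ := R_parity (d := 4 ^ i) (by positivity)
  obtain ⟨L, hL⟩ := R_parity (d := 4 ^ j) (by positivity)
  have : R (4 ^ i) * R (4 ^ j) = B (4 ^ i) * B (4 ^ j) + 2 * (B (4 ^ i) * L + K * B (4 ^ j) +
      2 * K * L) := by
    rw [hK, hL]; ring
  rw [this]
  apply EvenAt.add _ (evenAt_two_mul _)
  intro b w hw
  exact ⟨0, by rw [BB_zero hij hw]; ring⟩

lemma evenAt_sum_RR {M N : ℕ} (hMN : M ≤ N) : EvenAt ((∑ i ∈ range M, R (4 ^ i)) * R (4 ^ N)) := by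
  induction M with
  | zero =>
    intro b w _
    exact ⟨0, by simp⟩
  | succ M ih =>
    rw [sum_range_succ, add_mul]
    exact (ih (by omega)).add (evenAt_RR (by omega))

lemma prod_G_sq2 (N : ℕ) : ∃ Q C : PowerSeries ℤ, EvenAt Q ∧
    ∏ i ∈ range N, G (4 ^ i) ^ 2 =
      1 + 4 * (∑ i ∈ range N, R (4 ^ i)) + 16 * Q + 32 * C := by
  induction N with
  | zero => exact ⟨0, 0, fun b w _ => ⟨0, by simp⟩, by simp⟩
  | succ N ih =>
    obtain ⟨Q, C, hQ, hC⟩ := ih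
    obtain ⟨D, hD⟩ := G_sq2 (d := 4 ^ N) (by positivity)
    refine ⟨Q + (∑ i ∈ range N, R (4 ^ i)) * R (4 ^ N), C + D +
      4 * (∑ i ∈ range N, R (4 ^ i)) * D + 2 * Q * R (4 ^ N) + 16 * Q * D +
      4 * C * R (4 ^ N) + 32 * C * D, hQ.add (evenAt_sum_RR le_rfl), ?_⟩
    rw [prod_range_succ, sum_range_succ, hC, hD]
    ring

lemma sum_R {n b w N : ℕ} (hn : n = 4 ^ b * w) (hw : ¬ 4 ∣ w) (hb : b < N) :
    coeff n (∑ i ∈ range N, R (4 ^ i)) =
      tb (w % 16) + if 0 < b then tb (4 * w % 16) else 0 := by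
  rw [map_sum]
  have hval : ∀ i, coeff n (R (4 ^ i)) = if i = b then tb (w % 16) else
      if i + 1 = b then tb (4 * w % 16) else 0 := by
    intro i
    rw [R, coeff_mk]
    rcases lt_trichotomy i b with h | h | h
    · obtain ⟨e, rfl⟩ : ∃ e, b = i + (e + 1) := ⟨b - i - 1, by omega⟩
      have h2 : n = 4 ^ i * (4 * (4 ^ e * w)) := by rw [hn]; ring
      rw [if_neg (show ¬ (i = i + (e + 1)) by omega), h2, if_pos (dvd_mul_right _ _),
        Nat.mul_div_cancel_left _ (by positivity)]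
      rcases e with _ | e
      · rw [if_pos (by omega)]
        simp
      · rw [if_neg (by omega), show 4 * (4 ^ (e + 1) * w) = 16 * (4 ^ e * w) by ring,
          Nat.mul_mod_right]
        rfl
    · subst h
      rw [if_pos rfl, hn, if_pos (dvd_mul_right _ _), Nat.mul_div_cancel_left _ (by positivity)]
    · rw [if_neg (show ¬ (i = b) by omega), if_neg (show ¬ (i + 1 = b) by omega), if_neg]
      intro h2
      obtain ⟨e, rfl⟩ : ∃ e, i = b + (e + 1) := ⟨i - b - 1, by omega⟩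
      rw [hn, pow_add] at h2
      have h3 := Nat.dvd_of_mul_dvd_mul_left (by positivity) h2
      apply hw
      exact (Dvd.intro_left (4 ^ e) (by rw [pow_succ])).trans h3
  rw [sum_congr rfl (fun i _ => hval i)]
  rcases b with _ | b
  · rw [sum_eq_single 0 (fun i _ hi => by rw [if_neg hi, if_neg (by omega)])
      (fun h => absurd (mem_range.2 hb) h)]
    simp
  · rw [← sum_subset (s₁ := {b, b + 1})]
    · rw [sum_pair (by omega), if_neg (by omega), if_pos rfl, if_pos rfl, if_pos (by omega)]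
      ring
    · intro i hi
      simp only [mem_insert, mem_singleton] at hi
      rw [mem_range]
      omega
    · intro i _ hi
      simp only [mem_insert, mem_singleton] at hi
      push Not at hi
      rw [if_neg hi.2, if_neg (by omega)]

lemma coeff_mul_nat (n k : ℕ) (F : PowerSeries ℤ) :
    coeff n (((k : ℕ) : PowerSeries ℤ) * F) = k * coeff n F := coeff_natCast_mul' n k F

/-- the case `m ≡ 2 mod 8`. -/
theorem S_two_main {j n b w : ℕ} (hn : n = 4 ^ b * w) (hw : ¬ 4 ∣ w) :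
    ∃ Q C : ℤ, (w % 2 = 1 → ∃ z : ℤ, Q = 2 * z) ∧
      S 4 (8 * j + 2) n = 4 * (tb (w % 16) + if 0 < b then tb (4 * w % 16) else 0)
        + 16 * (Q + j * c w) + 32 * C := by
  have hw0 : 0 < w := Nat.pos_of_ne_zero (by rintro rfl; simp at hw)
  have hn0 : 0 < n := by rw [hn]; positivity
  have hb : b < n + 1 := by
    have h1 : b < 4 ^ b := Nat.lt_pow_self (by norm_num)
    have h2 : 4 ^ b ≤ n := by rw [hn]; exact Nat.le_mul_of_pos_right _ hw0
    omega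
  rw [S_eq]
  obtain ⟨Q, C2, hQ, hC2⟩ := prod_G_sq2 (n + 1)
  obtain ⟨C3, hC3⟩ := prod_G_pow 3 (by norm_num) (n + 1)
  obtain ⟨D, hD⟩ := pow_odd_part 3 (by norm_num) (∑ i ∈ range (n + 1), (A (4 ^ i) + B (4 ^ i)))
    C3 j
  rw [prod_pow] at hC2 hC3
  rw [← hC3, ← pow_mul] at hD
  have hZ : coeff n (∑ i ∈ range (n + 1), (A (4 ^ i) + B (4 ^ i))) = c w := by
    rw [map_sum]; exact sum_c hn hw hb
  have hRs := sum_R hn hw hb
  set F := ∏ i ∈ range (n + 1), G (4 ^ i)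
  set Z := ∑ i ∈ range (n + 1), (A (4 ^ i) + B (4 ^ i))
  set RR := ∑ i ∈ range (n + 1), R (4 ^ i)
  have e : F ^ (8 * j + 2) = 1 + ((4 : ℕ) : PowerSeries ℤ) * RR + ((16 : ℕ) : PowerSeries ℤ) *
      (Q + ((j : ℕ) : PowerSeries ℤ) * Z) +
      ((32 : ℕ) : PowerSeries ℤ) * (C2 + 2 * D * F ^ 2 + (j : PowerSeries ℤ) * Z *
        (2 * RR + 8 * Q + 16 * C2)) := by
    rw [pow_add]
    have : F ^ (8 * j) = 1 + 2 ^ (3 + 1) * ((j : PowerSeries ℤ) * Z) + 2 ^ (3 + 3) * D := by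
      rw [← hD]; norm_num
    rw [this, hC2]
    push_cast
    ring
  rw [e, map_add, map_add, map_add, coeff_mul_nat, coeff_mul_nat, coeff_mul_nat, map_add,
    coeff_mul_nat, hZ, hRs, coeff_one, if_neg (by omega)]
  refine ⟨coeff n Q, coeff n (C2 + 2 * D * F ^ 2 + (j : PowerSeries ℤ) * Z *
        (2 * RR + 8 * Q + 16 * C2)), ?_, by push_cast; ring⟩
  intro hw2
  rw [hn]
  exact hQ b w hw2

/-- valuations for `m ≡ 2 mod 8`. -/
theorem val_two {m n b w : ℕ} (hm : m % 8 = 2) (hn : n = 4 ^ b * w) (hw : w % 4 ≠ 0) :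
    ∃ M : ℤ, M % 2 = 1 ∧ S 4 m n =
      2 ^ (if w % 2 = 1 then (if b = 0 then 3 else 4) else 2) * M := by
  obtain ⟨j, rfl⟩ : ∃ j, m = 8 * j + 2 := ⟨m / 8, by omega⟩
  have hc : c w = if w % 2 = 1 then 2 else (-1) ^ (w / 4) := by
    rw [c]; split_ifs <;> first | rfl | omega
  have h16 : w % 16 < 16 := Nat.mod_lt _ (by norm_num)
  have h4 : 4 * w % 16 = 4 * (w % 16) % 16 := by omega
  have h2 : w % 2 = (w % 16) % 2 := by omega
  have h44 : (w % 16) % 4 ≠ 0 := by omega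
  obtain ⟨Q, C, hQ, hS⟩ := S_two_main (j := j) hn (by omega)
  rw [hS, hc, h4]
  by_cases hr : w % 2 = 1
  · obtain ⟨z, hz⟩ := hQ hr
    clear hQ hS
    obtain ⟨g1, g2⟩ := tb_odd _ h16 (by omega)
    rw [hz, if_pos hr, if_pos hr]
    by_cases hb : b = 0
    · subst hb
      rw [if_neg (lt_irrefl 0), if_pos rfl, add_zero]
      obtain ⟨k, hk⟩ : ∃ k : ℤ, tb (w % 16) = 4 * k + 2 := ⟨(tb (w % 16) - 2) / 4, by omega⟩
      rw [hk]
      exact ⟨1 + 2 * (k + 2 * z + 2 * j + 2 * C), by omega, by ring⟩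
    · rw [if_pos (Nat.pos_of_ne_zero hb), if_neg hb]
      obtain ⟨k, hk⟩ : ∃ k : ℤ, tb (w % 16) + tb (4 * (w % 16) % 16) = 8 * k + 4 :=
        ⟨(tb (w % 16) + tb (4 * (w % 16) % 16) - 4) / 8, by omega⟩
      rw [hk]
      exact ⟨1 + 2 * (k + z + j + C), by omega, by ring⟩
  · clear hQ hS
    obtain ⟨g1, g2⟩ := tb_even _ h16 (by omega)
    rw [if_neg hr, if_neg hr]
    obtain ⟨k, hk⟩ : ∃ k : ℤ, tb (w % 16) = 2 * k + 1 := ⟨tb (w % 16) / 2, by omega⟩
    obtain ⟨l, hl⟩ : ∃ l : ℤ, tb (4 * (w % 16) % 16) = 2 * l :=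
      ⟨tb (4 * (w % 16) % 16) / 2, by omega⟩
    rw [hk, hl]
    generalize (j : ℤ) * (-1) ^ (w / 4) = J
    by_cases hb : 0 < b
    · rw [if_pos hb]
      exact ⟨1 + 2 * (k + l + 2 * (Q + J) + 4 * C), by omega, by ring⟩
    · rw [if_neg hb]
      exact ⟨1 + 2 * (k + 2 * (Q + J) + 4 * C), by omega, by ring⟩

end Pool.Agent.V11310.Colored4b
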