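import Mathlib
import Pool.Agent.V11310.Colored4b

namespace Pool.Agent.V11310.Colored4c

open Pool.Agent.V11310.Colored4 Pool.Agent.V11310.Colored4b

lemma S_zero (t : ℕ) : S 4 t 0 = 1 := by
  rw [S_eq, PowerSeries.coeff_zero_eq_constantCoeff_apply]
  simp [G, geom]

/-- For `m ≢ 6 mod 8` the 2-adic valuation of `S_{4,m}(n)`, `n ≥ 1`, is a function of `ν₂(n)`
which is eventually periodic with period 4. -/
theorem nu2 (m : ℕ) (hm : 0 < m) (h6 : m % 8 ≠ 6) : ∃ g : ℕ → ℕ, (∀ t, 2 ≤ t → g (t + 4) = g t) ∧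
    ∀ t w, w % 2 = 1 → ∃ M : ℤ, M % 2 = 1 ∧ S 4 m (2 ^ t * w) = 2 ^ (g t) * M := by
  have key : ∀ t w : ℕ, w % 2 = 1 → 2 ^ t * w = 4 ^ (t / 2) * (2 ^ (t % 2) * w) := by
    intro t w _
    have h : t = 2 * (t / 2) + t % 2 := by omega
    rw [show (4 : ℕ) = 2 ^ 2 by norm_num, ← pow_mul, ← mul_assoc, ← pow_add, ← h]
  have key2 : ∀ t w : ℕ, w % 2 = 1 → (2 ^ (t % 2) * w) % 4 ≠ 0 ∧
      ((2 ^ (t % 2) * w) % 2 = 1 ↔ t % 2 = 0) := by
    intro t w hw
    rcases Nat.mod_two_eq_zero_or_one t with h | h
    · rw [h]; constructor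
      · omega
      · omega
    · rw [h]; constructor
      · omega
      · omega
  by_cases h1 : m % 2 = 1
  · obtain ⟨a, u, hu, hau⟩ := Nat.exists_eq_pow_mul_and_not_dvd (n := m + 1) (by omega) 2
      (by norm_num)
    have ha : 1 ≤ a := by
      by_contra h
      have : a = 0 := by omega
      subst this
      omega
    refine ⟨fun t => if t % 2 = 0 then (if (t / 2) % 2 = 0 then 2 else 1)
        else (if (t / 2) % 2 = 0 then 1 else a + 1), ?_, ?_⟩
    · intro t _
      simp only [show (t + 4) % 2 = t % 2 by omega, show (t + 4) / 2 % 2 = t / 2 % 2 by omega]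
    · intro t w hw
      obtain ⟨M, hM, hS⟩ := val_odd (n := 2 ^ t * w) ha hau (by omega) (key t w hw) (key2 t w hw).1
      refine ⟨M, hM, ?_⟩
      rw [hS]
      simp only [(key2 t w hw).2]
  · by_cases h2 : m % 4 = 2
    · refine ⟨fun t => if t % 2 = 0 then (if t / 2 = 0 then 3 else 4) else 2, ?_, ?_⟩
      · intro t ht
        simp only [show (t + 4) % 2 = t % 2 by omega, show ¬ ((t + 4) / 2 = 0) by omega,
          show ¬ (t / 2 = 0) by omega]
      · intro t w hw
        obtain ⟨M, hM, hS⟩ := val_two (n := 2 ^ t * w) (m := m) (by omega) (key t w hw)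
          (key2 t w hw).1
        refine ⟨M, hM, ?_⟩
        rw [hS]
        simp only [(key2 t w hw).2]
    · obtain ⟨a, u, hu, hau⟩ := Nat.exists_eq_pow_mul_and_not_dvd (n := m) (by omega) 2
        (by norm_num)
      have ha : 2 ≤ a := by
        by_contra h
        have : a = 0 ∨ a = 1 := by omega
        rcases this with rfl | rfl
        · omega
        · omega
      refine ⟨fun t => a + 1 + (t + 1) % 2, ?_, ?_⟩
      · intro t _
        simp only [show (t + 4 + 1) % 2 = (t + 1) % 2 by omega]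
      · intro t w hw
        have hw0 : 0 < w := by omega
        obtain ⟨M, hM, hS⟩ := valuation (n := 2 ^ t * w) ha (u := u) (by omega)
          (Nat.mul_pos (by positivity) hw0)
        refine ⟨M, hM, ?_⟩
        rw [hau, hS]
        have : padicValNat 2 (2 * (2 ^ t * w)) = t + 1 := by
          rw [← mul_assoc, ← pow_succ', padicValNat.mul (by positivity) (by omega),
            padicValNat.prime_pow]
          have : padicValNat 2 w = 0 := by
            rw [padicValNat.eq_zero_iff]
            right; right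
            omega
          rw [this]
        rw [this]

/-- a function of `ν₂(n)`, `n ≥ 1`, given by an eventually periodic function, has finite
2-kernel -/
theorem kernel_finite (e g : ℕ → ℕ) (h : ∀ t w, w % 2 = 1 → e (2 ^ t * w) = g t)
    (hg : ∀ t, 2 ≤ t → g (t + 4) = g t) :
    {f : ℕ → ℕ | ∃ i j, j < 2 ^ i ∧ f = fun n => e (2 ^ i * n + j)}.Finite := by
  have hred : ∀ i, ∃ i' < 6, g i = g i' := by
    intro i
    induction i using Nat.strong_induction_on with
    | _ i ih =>
      by_cases hi : i < 6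
      · exact ⟨i, hi, rfl⟩
      · obtain ⟨i', hi', h'⟩ := ih (i - 4) (by omega)
        exact ⟨i', hi', by rw [← h', ← hg (i - 4) (by omega), Nat.sub_add_cancel (by omega)]⟩
  have hred2 : ∀ i, ∃ i' < 6, (fun n => e (2 ^ i * n)) = fun n => e (2 ^ i' * n) := by
    intro i
    induction i using Nat.strong_induction_on with
    | _ i ih =>
      by_cases hi : i < 6
      · exact ⟨i, hi, rfl⟩
      · obtain ⟨i', hi', h'⟩ := ih (i - 4) (by omega)
        refine ⟨i', hi', ?_⟩
        rw [← h']
        funext n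
        rcases Nat.eq_zero_or_pos n with rfl | hn
        · rfl
        obtain ⟨t, w, hw, rfl⟩ := Nat.exists_eq_pow_mul_and_not_dvd (n := n) (by omega) 2
          (by norm_num)
        rw [← mul_assoc, ← mul_assoc, ← pow_add, ← pow_add, h _ _ (by omega), h _ _ (by omega),
          ← hg (i - 4 + t) (by omega)]
        congr 1
        omega
  have hsub : {f : ℕ → ℕ | ∃ i j, j < 2 ^ i ∧ f = fun n => e (2 ^ i * n + j)} ⊆
      (fun i => (fun _ : ℕ => g i)) '' (Set.Iio 6) ∪
      (fun i => (fun n : ℕ => e (2 ^ i * n))) '' (Set.Iio 6) := by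
    rintro f ⟨i, j, hj, rfl⟩
    rcases Nat.eq_zero_or_pos j with rfl | hj0
    · right
      obtain ⟨i', hi', h'⟩ := hred2 i
      exact ⟨i', hi', by simpa using h'.symm⟩
    · left
      obtain ⟨t, w, hw, rfl⟩ := Nat.exists_eq_pow_mul_and_not_dvd (n := j) (by omega) 2
        (by norm_num)
      have hw0 : 0 < w := by omega
      have ht : t < i := by
        have h1 : 2 ^ t * 1 ≤ 2 ^ t * w := Nat.mul_le_mul_left _ hw0
        have h2 : 2 ^ t < 2 ^ i := by omega
        exact (Nat.pow_lt_pow_iff_right (by norm_num)).1 h2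
      obtain ⟨i', hi', h'⟩ := hred t
      refine ⟨i', hi', ?_⟩
      funext n
      obtain ⟨s, rfl⟩ : ∃ s, i = t + (s + 1) := ⟨i - t - 1, by omega⟩
      rw [show 2 ^ (t + (s + 1)) * n + 2 ^ t * w = 2 ^ t * (2 * (2 ^ s * n) + w) by ring,
        h _ _ (by omega)]
      exact h'.symm
  exact ((Set.finite_Iio 6).image _ |>.union ((Set.finite_Iio 6).image _)).subset hsub

end Pool.Agent.V11310.Colored4c
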