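import Mathlib

namespace Pool.Agent.V11310.Auto

/-- The `k`-kernel of a sequence. -/
def kernel {α : Type*} (k : ℕ) (u : ℕ → α) : Set (ℕ → α) :=
  {v | ∃ e j : ℕ, j < k ^ e ∧ v = fun n => u (k ^ e * n + j)}

/-- A sequence is `k`-automatic if it takes finitely many values and has a finite `k`-kernel. -/
def IsAutomatic {α : Type*} (k : ℕ) (u : ℕ → α) : Prop :=
  (Set.range u).Finite ∧ (kernel k u).Finite

lemma kernel_comp {α β : Type*} (k : ℕ) (u : ℕ → α) (φ : α → β) :
    kernel k (fun n => φ (u n)) ⊆ (fun v n => φ (v n)) '' kernel k u := by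
  rintro v ⟨e, j, hj, rfl⟩
  exact ⟨_, ⟨e, j, hj, rfl⟩, rfl⟩

/-- A sequence computed by a finite automaton (most significant digit first) has a finite
kernel. -/
lemma finite_kernel_of_dfao {Q α : Type*} [Finite Q] {k : ℕ} (hk : 0 < k) (st : ℕ → Q)
    (δ : Q → ℕ → Q) (hδ : ∀ n b, b < k → st (k * n + b) = δ (st n) b) (τ : Q → α) :
    (kernel k (fun n => τ (st n))).Finite := by
  have key : ∀ e j, j < k ^ e → ∃ g : Q → Q, ∀ n, st (k ^ e * n + j) = g (st n) := by
    intro e
    induction e with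
    | zero =>
      intro j hj
      refine ⟨id, fun n => ?_⟩
      have : j = 0 := by simpa using hj
      subst this
      simp
    | succ e ih =>
      intro j hj
      obtain ⟨g, hg⟩ := ih (j / k) (by
        rw [Nat.div_lt_iff_lt_mul hk, ← pow_succ]; exact hj)
      refine ⟨fun q => δ (g q) (j % k), fun n => ?_⟩
      beta_reduce
      rw [← hg, ← hδ _ _ (Nat.mod_lt _ hk)]
      congr 1
      have := Nat.div_add_mod j k
      calc k ^ (e + 1) * n + j = k * (k ^ e * n) + (k * (j / k) + j % k) := by rw [this]; ring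
        _ = _ := by ring
  apply (Set.finite_range (fun g : Q → Q => fun n => τ (g (st n)))).subset
  rintro v ⟨e, j, hj, rfl⟩
  obtain ⟨g, hg⟩ := key e j hj
  refine ⟨g, ?_⟩
  funext n
  simp only [hg]

/-- Pumping lemma for automatic sets. -/
lemma pump {k : ℕ} (hk : 2 ≤ k) (f : ℕ → Bool) (hker : (kernel k f).Finite)
    (hinf : ∀ N, ∃ w, N ≤ w ∧ f w = true) :
    ∃ (Q : ℕ) (R : ℤ) (z : ℕ → ℕ), 2 ≤ Q ∧ StrictMono z ∧ (∀ m, f (z m) = true) ∧
      ∀ m, (z (m + 1) : ℤ) = Q * z m + R := by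
  classical
  have hkpos : 0 < k := by omega
  have : Finite (kernel k f) := hker
  let _ : Fintype (kernel k f) := Fintype.ofFinite _
  let E : ℕ → (kernel k f → Bool) := fun n κ => κ.1 n
  have hE : ∀ n n', E n = E n' → ∀ l s, s < k ^ l → f (k ^ l * n + s) = f (k ^ l * n' + s) := by
    intro n n' h l s hs
    exact congrFun h ⟨fun n => f (k ^ l * n + s), l, s, hs, rfl⟩
  have hEE : ∀ n n', E n = E n' → ∀ l s, s < k ^ l → E (k ^ l * n + s) = E (k ^ l * n' + s) := by
    intro n n' h l s hs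
    funext κ
    obtain ⟨_, e, j, hj, rfl⟩ := κ
    show f (k ^ e * (k ^ l * n + s) + j) = f (k ^ e * (k ^ l * n' + s) + j)
    have hlt : k ^ e * s + j < k ^ (e + l) := by
      calc k ^ e * s + j < k ^ e * s + k ^ e := by omega
        _ = k ^ e * (s + 1) := by ring
        _ ≤ k ^ e * k ^ l := Nat.mul_le_mul_left _ hs
        _ = k ^ (e + l) := by ring
    have := hE n n' h (e + l) (k ^ e * s + j) hlt
    rw [show k ^ e * (k ^ l * n + s) + j = k ^ (e + l) * n + (k ^ e * s + j) by ring,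
      show k ^ e * (k ^ l * n' + s) + j = k ^ (e + l) * n' + (k ^ e * s + j) by ring]
    exact this
  set N := Fintype.card (kernel k f → Bool) with hN
  obtain ⟨w, hw, hfw⟩ := hinf (k ^ N)
  obtain ⟨j, j', hne, heq⟩ := Fintype.exists_ne_map_eq_of_card_lt
    (fun j : Fin (N + 1) => E (w / k ^ (j : ℕ))) (by simp [hN])
  obtain ⟨j1, j2, hjlt, hj2, heq⟩ : ∃ j1 j2 : ℕ, j1 < j2 ∧ j2 ≤ N ∧
      E (w / k ^ j1) = E (w / k ^ j2) := by
    rcases lt_or_gt_of_ne hne with h | h
    · exact ⟨j, j', h, Nat.lt_succ_iff.1 j'.2, heq⟩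
    · exact ⟨j', j, h, Nat.lt_succ_iff.1 j.2, heq.symm⟩
  obtain ⟨p, rfl⟩ : ∃ p, j2 = j1 + p := ⟨j2 - j1, by omega⟩
  have hp : 0 < p := by omega
  set u := w / k ^ (j1 + p) with hu
  have hu1 : 1 ≤ u := by
    rw [hu, Nat.le_div_iff_mul_le (by positivity), one_mul]
    exact (Nat.pow_le_pow_right hkpos hj2).trans hw
  set v := (w / k ^ j1) % k ^ p with hv
  set x := w % k ^ j1 with hx
  have hvlt : v < k ^ p := Nat.mod_lt _ (by positivity)
  have hxlt : x < k ^ j1 := Nat.mod_lt _ (by positivity)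
  have huv : w / k ^ j1 = k ^ p * u + v := by
    rw [hu, pow_add, ← Nat.div_div_eq_div_mul]
    exact (Nat.div_add_mod _ _).symm
  let y : ℕ → ℕ := fun m => Nat.rec u (fun _ t => k ^ p * t + v) m
  have hy0 : y 0 = u := rfl
  have hys : ∀ m, y (m + 1) = k ^ p * y m + v := fun m => rfl
  have hkp : 2 ≤ k ^ p := by
    calc 2 ≤ k := hk
      _ = k ^ 1 := (pow_one k).symm
      _ ≤ k ^ p := Nat.pow_le_pow_right hkpos hp
  have hypos : ∀ m, 1 ≤ y m := by
    intro m
    induction m with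
    | zero => exact hu1
    | succ m ih => rw [hys]; nlinarith
  have hylt : ∀ m, y m < y (m + 1) := by
    intro m
    rw [hys]
    have := hypos m
    nlinarith
  have hEy : ∀ m, E (y m) = E (y (m + 1)) := by
    intro m
    induction m with
    | zero =>
      rw [hys, hy0, ← huv]
      exact heq.symm
    | succ m ih =>
      rw [hys (m + 1)]
      conv_lhs => rw [hys m]
      exact hEE _ _ ih p v hvlt
  have hEy' : ∀ m, E (y m) = E (w / k ^ j1) := by
    intro m
    induction m with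
    | zero => exact heq.symm
    | succ m ih => rw [← hEy m]; exact ih
  refine ⟨k ^ p, k ^ j1 * v + x - k ^ p * x, fun m => k ^ j1 * y m + x, hkp, ?_, ?_, ?_⟩
  · apply strictMono_nat_of_lt_succ
    intro m
    have := hylt m
    have h2 : k ^ j1 * y m < k ^ j1 * y (m + 1) := Nat.mul_lt_mul_of_pos_left this (by positivity)
    omega
  · intro m
    rw [hE _ _ (hEy' m) j1 x hxlt]
    rw [hx, Nat.div_add_mod]
    exact hfw
  · intro m
    beta_reduce
    rw [hys]
    push_cast
    ring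

end Pool.Agent.V11310.Auto
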