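import Mathlib
import Pool.Agent.V11310.TMFib

namespace Pool.Agent.V11310.TMFib

lemma p_pow_mul (j q : ℕ) (hq : 0 < q) : p (2 ^ j * q) = (-1) ^ j * p q := by
  induction j with
  | zero => simp
  | succ j ih =>
    rw [show 2 ^ (j + 1) * q = 2 * (2 ^ j * q) by ring, p_even _ (by positivity), ih]
    ring

/-- ratio `z_l = X_l / Y_l` -/
noncomputable def z : ℕ → ℚ
  | 0 => 0
  | l + 1 => 1 - p (l + 1) / (z l + 2)

lemma z_succ (l : ℕ) : z (l + 1) = 1 - p (l + 1) / (z l + 2) := rfl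

lemma X_eq (l : ℕ) : ((XY l).1 : ℚ) = z l * (XY l).2 := by
  induction l with
  | zero => simp [XY, z]
  | succ l ih =>
    have hY := (XY_nonneg l).2
    have hX := (XY_nonneg l).1
    have hY' : (1 : ℚ) ≤ (XY l).2 := by exact_mod_cast hY
    have hX' : (0 : ℚ) ≤ (XY l).1 := by exact_mod_cast hX
    rw [XY_succ_fst, XY_succ_snd, z_succ]
    have hne : z l + 2 ≠ 0 := by
      intro h0
      have : z l = -2 := by linarith
      rw [this] at ih
      linarith
    push_cast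
    rw [ih]
    field_simp
    ring

lemma step_bounds {p : ℤ} (hp : p = 1 ∨ p = -1) {u : ℚ} (hu : 0 ≤ u) :
    1 / 2 ≤ 1 - (p : ℚ) / (u + 2) ∧ 1 - (p : ℚ) / (u + 2) ≤ 3 / 2 := by
  have h2 : (0 : ℚ) < u + 2 := by linarith
  have h3 : 1 / (u + 2) ≤ 1 / 2 := one_div_le_one_div_of_le (by norm_num) (by linarith)
  have h4 : 0 < 1 / (u + 2) := by positivity
  rcases hp with h | h <;> rw [h]
  · push_cast; constructor <;> linarith
  · push_cast; rw [neg_div]; constructor <;> linarith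

lemma z_nonneg (l : ℕ) : 0 ≤ z l := by
  induction l with
  | zero => exact le_rfl
  | succ l ih =>
    rw [z_succ]
    linarith [(step_bounds (p_pm (l + 1) (by omega)) ih).1]

lemma z_bounds (l : ℕ) (hl : 1 ≤ l) : 1 / 2 ≤ z l ∧ z l ≤ 3 / 2 := by
  obtain ⟨m, rfl⟩ : ∃ m, l = m + 1 := ⟨l - 1, by omega⟩
  exact step_bounds (p_pm (m + 1) (by omega)) (z_nonneg m)

/-- evolution inside a block -/
noncomputable def Zf (u : ℚ) : ℕ → ℚ
  | 0 => u
  | r + 1 => 1 - p (r + 1) / (Zf u r + 2)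

lemma Zf_succ (u : ℚ) (r : ℕ) : Zf u (r + 1) = 1 - p (r + 1) / (Zf u r + 2) := rfl

lemma Zf_nonneg {u : ℚ} (hu : 0 ≤ u) (r : ℕ) : 0 ≤ Zf u r := by
  induction r with
  | zero => exact hu
  | succ r ih =>
    rw [Zf_succ]
    linarith [(step_bounds (p_pm (r + 1) (by omega)) ih).1]

lemma z_eq_Zf (j q r : ℕ) (hr : r < 2 ^ j) : z (2 ^ j * q + r) = Zf (z (2 ^ j * q)) r := by
  induction r with
  | zero => rfl
  | succ r ih =>
    rw [← add_assoc, z_succ, Zf_succ, ih (by omega), add_assoc, p_block j q (r + 1) (by omega) hr]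

/-- the orientation of a block -/
noncomputable def σ : ℕ → ℚ
  | 0 => 1
  | r + 1 => σ r * p (r + 1)

lemma σ_succ (r : ℕ) : σ (r + 1) = σ r * p (r + 1) := rfl

lemma σ_sq (r : ℕ) : σ r * σ r = 1 := by
  induction r with
  | zero => simp [σ]
  | succ r ih =>
    rw [σ_succ]
    rcases p_pm (r + 1) (by omega) with h | h <;> rw [h] <;> push_cast <;> linarith

lemma σ_pm (r : ℕ) : σ r = 1 ∨ σ r = -1 := by
  have h := σ_sq r
  have : (σ r - 1) * (σ r + 1) = 0 := by linarith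
  rcases mul_eq_zero.1 this with h | h
  · left; linarith
  · right; linarith

lemma σ_block (j r : ℕ) (hr : r < 2 ^ j) : σ (2 ^ j + r) = σ (2 ^ j) * σ r := by
  induction r with
  | zero => simp [σ]
  | succ r ih =>
    rw [← add_assoc, σ_succ, σ_succ, ih (by omega), add_assoc]
    have := p_block j 1 (r + 1) (by omega) hr
    rw [mul_one] at this
    rw [this]
    ring

lemma σ_pow (j : ℕ) : σ (2 ^ j - 1) = (-1) ^ j := by
  induction j with
  | zero => simp [σ]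
  | succ j ih =>
    have hpos : 0 < 2 ^ j := Nat.two_pow_pos j
    rw [show 2 ^ (j + 1) - 1 = 2 ^ j + (2 ^ j - 1) by rw [pow_succ]; omega,
      σ_block j (2 ^ j - 1) (by omega)]
    have h1 : σ (2 ^ j) = σ (2 ^ j - 1) * p (2 ^ j) := by
      conv_lhs => rw [show 2 ^ j = (2 ^ j - 1) + 1 by omega]
      rw [σ_succ, show 2 ^ j - 1 + 1 = 2 ^ j by omega]
    have h2 : p (2 ^ j) = (-1) ^ j * -1 := by
      have := p_pow_mul j 1 one_pos
      rw [mul_one] at this
      rw [this, show (1 : ℕ) = 2 * 0 + 1 by norm_num, p_odd]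
    rw [h1, ih, h2]
    push_cast
    rcases neg_one_pow_eq_or ℚ j with h | h <;> rw [pow_succ, h] <;> ring

lemma Zf_mono {u v : ℚ} (hu : 0 ≤ u) (huv : u ≤ v) (r : ℕ) : 0 ≤ σ r * (Zf v r - Zf u r) := by
  have hv : 0 ≤ v := hu.trans huv
  induction r with
  | zero => simp [σ, Zf]; linarith
  | succ r ih =>
    have h1 := Zf_nonneg hu r
    have h2 := Zf_nonneg hv r
    have h3 : (p (r + 1) : ℚ) * p (r + 1) = 1 := by
      rcases p_pm (r + 1) (by omega) with h | h <;> rw [h] <;> norm_num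
    rw [σ_succ, Zf_succ, Zf_succ]
    have h4 : σ r * (p (r + 1) : ℚ) * (1 - p (r + 1) / (Zf v r + 2) - (1 - p (r + 1) / (Zf u r + 2)))
        = (σ r * (Zf v r - Zf u r)) * ((p (r + 1) : ℚ) * p (r + 1)) /
          ((Zf u r + 2) * (Zf v r + 2)) := by
      field_simp
      ring
    rw [h4, h3, mul_one]
    positivity

lemma Zf_mono_pos {u v : ℚ} (hu : 0 ≤ u) (huv : u ≤ v) {r : ℕ} (hσ : σ r = 1) :
    Zf u r ≤ Zf v r := by
  have := Zf_mono hu huv r
  rw [hσ] at this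
  linarith

lemma Zf_mono_neg {u v : ℚ} (hu : 0 ≤ u) (huv : u ≤ v) {r : ℕ} (hσ : σ r = -1) :
    Zf v r ≤ Zf u r := by
  have := Zf_mono hu huv r
  rw [hσ] at this
  linarith

/-- `w j q = z (2^j q)`. -/
noncomputable def w (j q : ℕ) : ℚ := z (2 ^ j * q)

lemma w_nonneg (j q : ℕ) : 0 ≤ w j q := z_nonneg _

lemma w_zero (j : ℕ) : w j 0 = 0 := by simp [w, z]

/-- end of block -/
noncomputable def en (j : ℕ) (u : ℚ) : ℚ := Zf u (2 ^ j - 1)

lemma en_nonneg (j : ℕ) {u : ℚ} (hu : 0 ≤ u) : 0 ≤ en j u := Zf_nonneg hu _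

lemma w_succ (j q : ℕ) : w j (q + 1) = 1 - p (2 ^ j * (q + 1)) / (en j (w j q) + 2) := by
  have hpos : 0 < 2 ^ j := Nat.two_pow_pos j
  unfold w en
  rw [← z_eq_Zf j q (2 ^ j - 1) (by omega)]
  have : 2 ^ j * (q + 1) = (2 ^ j * q + (2 ^ j - 1)) + 1 := by
    rw [mul_add, mul_one]; omega
  rw [this, z_succ]

lemma en_mono_even {j : ℕ} (hj : Even j) {u v : ℚ} (hu : 0 ≤ u) (huv : u ≤ v) :
    en j u ≤ en j v :=
  Zf_mono_pos hu huv (by rw [σ_pow, hj.neg_one_pow])

lemma en_mono_odd {j : ℕ} (hj : Odd j) {u v : ℚ} (hu : 0 ≤ u) (huv : u ≤ v) :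
    en j v ≤ en j u :=
  Zf_mono_neg hu huv (by rw [σ_pow, hj.neg_one_pow])

lemma p_even_block {j : ℕ} (hj : Even j) (q : ℕ) (hq : 0 < q) : p (2 ^ j * q) = p q := by
  rw [p_pow_mul j q hq, hj.neg_one_pow, one_mul]

lemma p_odd_block {j : ℕ} (hj : Odd j) (q : ℕ) (hq : 0 < q) : p (2 ^ j * q) = - p q := by
  rw [p_pow_mul j q hq, hj.neg_one_pow, neg_one_mul]

/-- comparison for letter `-1` -/
lemma cmp_neg {a b : ℚ} (ha : 0 ≤ a) (hab : a ≤ b) :
    1 - ((-1 : ℤ) : ℚ) / (b + 2) ≤ 1 - ((-1 : ℤ) : ℚ) / (a + 2) := by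
  have : 1 / (b + 2) ≤ 1 / (a + 2) := one_div_le_one_div_of_le (by linarith) (by linarith)
  push_cast
  rw [neg_div, neg_div]
  linarith

lemma cmp_pos {a b : ℚ} (ha : 0 ≤ a) (hab : a ≤ b) :
    1 - ((1 : ℤ) : ℚ) / (a + 2) ≤ 1 - ((1 : ℤ) : ℚ) / (b + 2) := by
  have : 1 / (b + 2) ≤ 1 / (a + 2) := one_div_le_one_div_of_le (by linarith) (by linarith)
  push_cast
  linarith

lemma cmp_pos_neg {a b : ℚ} (ha : 0 ≤ a) (hb : 0 ≤ b) :
    1 - ((1 : ℤ) : ℚ) / (a + 2) ≤ 1 - ((-1 : ℤ) : ℚ) / (b + 2) := by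
  have h1 : 0 < 1 / (b + 2) := by positivity
  have h2 : 0 < 1 / (a + 2) := by positivity
  push_cast
  rw [neg_div]
  linarith

lemma p_one : p 1 = -1 := p_odd 0

lemma p_two : p 2 = 1 := by
  rw [show 2 = 2 * 1 by norm_num, p_even 1 one_pos, p_one]; ring

lemma p_three : p 3 = -1 := p_odd 1

lemma p_six : p 6 = 1 := by
  rw [show 6 = 2 * 3 by norm_num, p_even 3 (by norm_num), p_three]; ring

/-- maximum of `w j` for even `j` -/
lemma w_le_even {j : ℕ} (hj : Even j) (q : ℕ) : w j q ≤ w j 1 := by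
  have e1 : w j 1 = 1 - ((-1 : ℤ) : ℚ) / (en j 0 + 2) := by
    have := w_succ j 0
    rw [w_zero, zero_add, p_even_block hj 1 one_pos, p_one] at this
    exact this
  rcases Nat.eq_zero_or_pos q with rfl | hq
  · rw [w_zero]; exact w_nonneg _ _
  obtain ⟨q, rfl⟩ : ∃ q', q = q' + 1 := ⟨q - 1, by omega⟩
  rw [e1, w_succ]
  have h0 := w_nonneg j q
  rcases p_pm (2 ^ j * (q + 1)) (by positivity) with h | h <;> rw [h]
  · exact cmp_pos_neg (en_nonneg j h0) (en_nonneg j le_rfl)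
  · exact cmp_neg (en_nonneg j le_rfl) (en_mono_even hj le_rfl h0)

/-- maximum of `w j` for odd `j` -/
lemma w_le_odd {j : ℕ} (hj : Odd j) (q : ℕ) : w j q ≤ w j 2 := by
  have e1 : w j 1 = 1 - ((1 : ℤ) : ℚ) / (en j 0 + 2) := by
    have := w_succ j 0
    rw [w_zero, zero_add, p_odd_block hj 1 one_pos, p_one, neg_neg] at this
    exact this
  have e2 : w j 2 = 1 - ((-1 : ℤ) : ℚ) / (en j (w j 1) + 2) := by
    have := w_succ j 1
    rw [p_odd_block hj _ (by norm_num), show 1 + 1 = 2 by norm_num, p_two] at this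
    exact this
  rcases Nat.eq_zero_or_pos q with rfl | hq
  · rw [w_zero]; exact w_nonneg _ _
  obtain ⟨q, rfl⟩ : ∃ q', q = q' + 1 := ⟨q - 1, by omega⟩
  rw [e2, w_succ j q]
  have h0 := w_nonneg j q
  rcases p_pm (2 ^ j * (q + 1)) (by positivity) with h | h
  · rw [h]; exact cmp_pos_neg (en_nonneg j h0) (en_nonneg j (w_nonneg _ _))
  · rw [h]
    apply cmp_neg (en_nonneg j (w_nonneg _ _))
    apply en_mono_odd hj h0
    -- `q + 1` is even
    rw [p_odd_block hj _ (by omega)] at h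
    have hq1 : ∃ m, q = 2 * m + 1 := by
      rcases Nat.even_or_odd' q with ⟨m, hm | hm⟩
      · rw [hm, p_odd] at h; norm_num at h
      · exact ⟨m, hm⟩
    obtain ⟨m, rfl⟩ := hq1
    rw [w_succ j (2 * m), e1, p_odd_block hj _ (by omega), p_odd, neg_neg]
    exact cmp_pos (en_nonneg j (w_nonneg _ _)) (en_mono_odd hj le_rfl (w_nonneg _ _))

/-- index of the maximum -/
def qmax (j : ℕ) : ℕ := if Even j then 1 else 2

lemma qmax_pos (j : ℕ) : 1 ≤ qmax j := by unfold qmax; split_ifs <;> norm_num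

lemma w_le (j q : ℕ) : w j q ≤ w j (qmax j) := by
  unfold qmax
  split_ifs with h
  · exact w_le_even h q
  · exact w_le_odd (Nat.not_even_iff_odd.1 h) q

/-- minimum over `q ≥ 1` for odd `j` -/
lemma w_ge_odd {j : ℕ} (hj : Odd j) (q : ℕ) (hq : 1 ≤ q) : w j 3 ≤ w j q := by
  have e3 : w j 3 = 1 - ((1 : ℤ) : ℚ) / (en j (w j 2) + 2) := by
    have := w_succ j 2
    rw [p_odd_block hj _ (by norm_num), show 2 + 1 = 3 by norm_num, p_three, neg_neg] at this
    exact this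
  obtain ⟨q, rfl⟩ : ∃ q', q = q' + 1 := ⟨q - 1, by omega⟩
  rw [e3, w_succ j q]
  have h0 := w_nonneg j q
  rcases p_pm (2 ^ j * (q + 1)) (by positivity) with h | h <;> rw [h]
  · exact cmp_pos (en_nonneg j (w_nonneg _ _)) (en_mono_odd hj h0 (w_le_odd hj q))
  · exact cmp_pos_neg (en_nonneg j (w_nonneg _ _)) (en_nonneg j h0)

/-- minimum over `q ≥ 1` for even `j` -/
lemma w_ge_even {j : ℕ} (hj : Even j) (q : ℕ) (hq : 1 ≤ q) : w j 6 ≤ w j q := by
  have e5 : w j 5 = 1 - ((-1 : ℤ) : ℚ) / (en j (w j 4) + 2) := by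
    have := w_succ j 4
    rw [p_even_block hj _ (by norm_num), show 4 + 1 = 2 * 2 + 1 by norm_num, p_odd] at this
    exact this
  have e6 : w j 6 = 1 - ((1 : ℤ) : ℚ) / (en j (w j 5) + 2) := by
    have := w_succ j 5
    rw [p_even_block hj _ (by norm_num), show 5 + 1 = 6 by norm_num, p_six] at this
    exact this
  obtain ⟨q, rfl⟩ : ∃ q', q = q' + 1 := ⟨q - 1, by omega⟩
  rw [e6, w_succ j q]
  have h0 := w_nonneg j q
  rcases p_pm (2 ^ j * (q + 1)) (by positivity) with h | h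
  · rw [h]
    apply cmp_pos (en_nonneg j (w_nonneg _ _))
    apply en_mono_even hj (w_nonneg _ _)
    rw [p_even_block hj _ (by omega)] at h
    have hq1 : ∃ m, q = 2 * m + 1 := by
      rcases Nat.even_or_odd' q with ⟨m, hm | hm⟩
      · rw [hm, p_odd] at h; norm_num at h
      · exact ⟨m, hm⟩
    obtain ⟨m, rfl⟩ := hq1
    rw [w_succ j (2 * m), e5, p_even_block hj _ (by omega), p_odd]
    apply cmp_neg (en_nonneg j (w_nonneg _ _))
    apply en_mono_even hj (w_nonneg _ _)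
    have f1 : w j (2 * m) = w (j + 1) m := by unfold w; congr 1; ring
    have f2 : w j 4 = w (j + 1) 2 := by unfold w; congr 1; ring
    rw [f1, f2]
    exact w_le_odd hj.add_one m
  · rw [h]; exact cmp_pos_neg (en_nonneg j (w_nonneg _ _)) (en_nonneg j h0)

/-- index of the minimum over `q ≥ 1`, as `qmin j + 1` -/
def qmin (j : ℕ) : ℕ := if Even j then 5 else 2

lemma w_ge (j q : ℕ) (hq : 1 ≤ q) : w j (qmin j + 1) ≤ w j q := by
  unfold qmin
  split_ifs with h
  · exact w_ge_even h q hq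
  · exact w_ge_odd (Nat.not_even_iff_odd.1 h) q hq

lemma p_qmin (j : ℕ) : p (2 ^ j * (qmin j + 1)) = 1 := by
  unfold qmin
  split_ifs with h
  · rw [p_even_block h _ (by norm_num)]; exact p_six
  · rw [p_odd_block (Nat.not_even_iff_odd.1 h) _ (by norm_num), show 2 + 1 = 3 by norm_num,
      p_three]; ring

/-! ### Extremes in residue classes -/

/-- minimum over a full class -/
lemma class_min (j r : ℕ) (hr : r < 2 ^ j) : ∃ q0, ∀ q, z (2 ^ j * q0 + r) ≤ z (2 ^ j * q + r) := by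
  rcases σ_pm r with h | h
  · refine ⟨0, fun q => ?_⟩
    rw [z_eq_Zf j _ r hr, z_eq_Zf j _ r hr]
    exact Zf_mono_pos (w_nonneg j 0) (by
      have h1 : w j 0 = 0 := w_zero j
      rw [h1]; exact w_nonneg j q) h
  · refine ⟨qmax j, fun q => ?_⟩
    rw [z_eq_Zf j _ r hr, z_eq_Zf j _ r hr]
    exact Zf_mono_neg (w_nonneg j q) (w_le j q) h

/-- maximum over a full class -/
lemma class_max (j r : ℕ) (hr : r < 2 ^ j) : ∃ q0, ∀ q, z (2 ^ j * q + r) ≤ z (2 ^ j * q0 + r) := by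
  rcases σ_pm r with h | h
  · refine ⟨qmax j, fun q => ?_⟩
    rw [z_eq_Zf j _ r hr, z_eq_Zf j _ r hr]
    exact Zf_mono_pos (w_nonneg j q) (w_le j q) h
  · refine ⟨0, fun q => ?_⟩
    rw [z_eq_Zf j _ r hr, z_eq_Zf j _ r hr]
    exact Zf_mono_neg (w_nonneg j 0) (by
      have h1 : w j 0 = 0 := w_zero j
      rw [h1]; exact w_nonneg j q) h

/-- minimum over the positive elements of a class -/
lemma class_min_pos (j r : ℕ) (hr : r < 2 ^ j) : ∃ q0, 1 ≤ 2 ^ j * q0 + r ∧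
    ∀ q, 1 ≤ 2 ^ j * q + r → z (2 ^ j * q0 + r) ≤ z (2 ^ j * q + r) := by
  rcases Nat.eq_zero_or_pos r with rfl | hr0
  · refine ⟨qmin j + 1, ?_, fun q hq => ?_⟩
    · have := Nat.two_pow_pos j
      nlinarith
    · apply w_ge j q
      by_contra hcon
      have : q = 0 := by omega
      subst this
      simp at hq
  · obtain ⟨q0, h⟩ := class_min j r hr
    exact ⟨q0, by omega, fun q _ => h q⟩

/-- maximum over the positive elements of a class -/
lemma class_max_pos (j r : ℕ) (hr : r < 2 ^ j) : ∃ q0, 1 ≤ 2 ^ j * q0 + r ∧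
    ∀ q, 1 ≤ 2 ^ j * q + r → z (2 ^ j * q + r) ≤ z (2 ^ j * q0 + r) := by
  rcases Nat.eq_zero_or_pos r with rfl | hr0
  · refine ⟨qmax j, ?_, fun q hq => w_le j q⟩
    have := Nat.two_pow_pos j
    have := qmax_pos j
    nlinarith
  · obtain ⟨q0, h⟩ := class_max j r hr
    exact ⟨q0, by omega, fun q _ => h q⟩

/-- minimum of `z_l - p_{l+1}` over a full class -/
lemma class_min_letter (j r : ℕ) (hr : r < 2 ^ j) : ∃ q0, ∀ q,
    z (2 ^ j * q0 + r) - p (2 ^ j * q0 + r + 1) ≤ z (2 ^ j * q + r) - p (2 ^ j * q + r + 1) := by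
  rcases Nat.lt_or_ge (r + 1) (2 ^ j) with hr1 | hr1
  · obtain ⟨q0, h⟩ := class_min j r hr
    refine ⟨q0, fun q => ?_⟩
    rw [add_assoc, add_assoc (2 ^ j * q), p_block j q0 (r + 1) (by omega) hr1,
      p_block j q (r + 1) (by omega) hr1]
    linarith [h q]
  · have hr2 : r = 2 ^ j - 1 := by omega
    have hpos := Nat.two_pow_pos j
    have hidx : ∀ q, 2 ^ j * q + r + 1 = 2 ^ j * (q + 1) := by
      intro q; rw [mul_add, mul_one]; omega
    refine ⟨qmin j, fun q => ?_⟩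
    rw [hidx, hidx, p_qmin]
    have hz : z (2 ^ j * (qmin j) + r) ≤ 3 / 2 := by
      rcases Nat.eq_zero_or_pos (2 ^ j * (qmin j) + r) with h | h
      · rw [h]; norm_num [z]
      · exact (z_bounds _ h).2
    have hz0 := z_nonneg (2 ^ j * q + r)
    have hzq0 := z_nonneg (2 ^ j * (qmin j) + r)
    rcases p_pm (2 ^ j * (q + 1)) (by positivity) with h | h <;> rw [h]
    · have h2 := w_ge j (q + 1) (by omega)
      rw [w_succ, w_succ, p_qmin, h] at h2
      unfold en at h2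
      rw [← hr2] at h2
      unfold w at h2
      rw [← z_eq_Zf j _ r hr, ← z_eq_Zf j _ r hr] at h2
      have h3 : 1 / (z (2 ^ j * q + r) + 2) ≤ 1 / (z (2 ^ j * (qmin j) + r) + 2) := by
        push_cast at h2
        linarith
      rw [one_div_le_one_div (by linarith) (by linarith)] at h3
      linarith
    · push_cast
      linarith

end Pool.Agent.V11310.TMFib
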