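import Mathlib

/-!
# A cosine series: tail estimate and resonance (for MP_3519bc)
-/

set_option autoImplicit false

namespace Pool.Agent.V11310.CosSer

open Finset

noncomputable def E (t : ℝ) : ℂ := Complex.exp (Complex.I * ((2 * Real.pi * t : ℝ) : ℂ))

lemma E_add (s t : ℝ) : E (s + t) = E s * E t := by
  unfold E; rw [← Complex.exp_add]; congr 1; push_cast; ring

lemma norm_E (t : ℝ) : ‖E t‖ = 1 := by
  unfold E; rw [mul_comm]; exact Complex.norm_exp_ofReal_mul_I _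

lemma E_re (t : ℝ) : (E t).re = Real.cos (2 * Real.pi * t) := by
  unfold E; rw [mul_comm]; exact Complex.exp_ofReal_mul_I_re _

lemma E_int (z : ℤ) : E z = 1 := by
  unfold E; rw [Complex.exp_eq_one_iff]; exact ⟨z, by push_cast; ring⟩

lemma E_nat_mul (k : ℕ) (t : ℝ) : E (k * t) = (E t) ^ k := by
  unfold E; rw [← Complex.exp_nat_mul]; congr 1; push_cast; ring

lemma E_lip (s t : ℝ) : ‖E s - E t‖ ≤ 2 * Real.pi * |s - t| := by
  have : E s - E t = E t * (E (s - t) - 1) := by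
    rw [mul_sub, ← E_add, mul_one]; congr 2; ring
  rw [this, norm_mul, norm_E, one_mul]
  unfold E
  refine (Real.norm_exp_I_mul_ofReal_sub_one_le).trans ?_
  rw [Real.norm_eq_abs, abs_mul, abs_of_pos (by positivity : (0:ℝ) < 2 * Real.pi)]

/-- the phases `e((3n-1)/8)` -/
noncomputable def c (n : ℕ) : ℂ := E ((3 * (n : ℝ) - 1) / 8)

lemma c_succ (n : ℕ) : c (n + 1) = E (3 / 8) * c n := by
  unfold c; rw [← E_add]; congr 1; push_cast; ring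

lemma c_sum (n : ℕ) : (E (3 / 8) - 1) * ∑ j ∈ Icc 1 n, c j = c (n + 1) - c 1 := by
  induction n with
  | zero => simp
  | succ n ih =>
    rw [Finset.sum_Icc_succ_top (by omega), mul_add, ih, c_succ (n + 1)]
    ring

lemma norm_c (n : ℕ) : ‖c n‖ = 1 := norm_E _

lemma omega_sub : 1 ≤ ‖E (3 / 8) - 1‖ := by
  have h1 := Complex.abs_re_le_norm (E (3 / 8) - 1)
  rw [Complex.sub_re, E_re, Complex.one_re] at h1
  have h2 : Real.cos (2 * Real.pi * (3 / 8)) ≤ 0 := by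
    have := Real.pi_pos
    apply Real.cos_nonpos_of_pi_div_two_le_of_le <;> linarith
  have h3 : 1 ≤ |Real.cos (2 * Real.pi * (3 / 8)) - 1| := by
    rw [abs_of_nonpos (by linarith)]; linarith
  linarith

lemma c_bound (n : ℕ) : ‖∑ j ∈ Icc 1 n, c j‖ ≤ 2 := by
  have h := c_sum n
  have h1 : ‖E (3 / 8) - 1‖ * ‖∑ j ∈ Icc 1 n, c j‖ ≤ 2 := by
    rw [← norm_mul, h]
    refine (norm_sub_le _ _).trans ?_
    rw [norm_c, norm_c]; norm_num
  have h2 := omega_sub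
  nlinarith [norm_nonneg (∑ j ∈ Icc 1 n, c j)]

lemma abel_id (c G : ℕ → ℂ) (N M : ℕ) (h : N ≤ M) :
    ∑ n ∈ Ioc N M, c n * G n = (∑ j ∈ Icc 1 M, c j) * G (M + 1)
      - (∑ j ∈ Icc 1 N, c j) * G (N + 1)
      + ∑ n ∈ Ioc N M, (∑ j ∈ Icc 1 n, c j) * (G n - G (n + 1)) := by
  induction M, h using Nat.le_induction with
  | base => simp
  | succ M hM ih =>
    rw [Finset.sum_Ioc_succ_top hM, Finset.sum_Ioc_succ_top hM, ih,
      Finset.sum_Icc_succ_top (by omega : 1 ≤ M + 1)]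
    ring

lemma abel (c G : ℕ → ℂ) (B : ℝ) (hB : ∀ n, ‖∑ j ∈ Icc 1 n, c j‖ ≤ B) (N M : ℕ) (h : N ≤ M) :
    ‖∑ n ∈ Ioc N M, c n * G n‖
      ≤ B * (‖G (M + 1)‖ + ‖G (N + 1)‖ + ∑ n ∈ Ioc N M, ‖G n - G (n + 1)‖) := by
  rw [abel_id c G N M h]
  have h1 : ‖(∑ j ∈ Icc 1 M, c j) * G (M + 1)‖ ≤ B * ‖G (M + 1)‖ := by
    rw [norm_mul]; exact mul_le_mul_of_nonneg_right (hB M) (norm_nonneg _)
  have h2 : ‖(∑ j ∈ Icc 1 N, c j) * G (N + 1)‖ ≤ B * ‖G (N + 1)‖ := by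
    rw [norm_mul]; exact mul_le_mul_of_nonneg_right (hB N) (norm_nonneg _)
  have h3 : ‖∑ n ∈ Ioc N M, (∑ j ∈ Icc 1 n, c j) * (G n - G (n + 1))‖
      ≤ B * ∑ n ∈ Ioc N M, ‖G n - G (n + 1)‖ := by
    rw [Finset.mul_sum]
    refine (norm_sum_le _ _).trans (Finset.sum_le_sum fun n _ => ?_)
    rw [norm_mul]; exact mul_le_mul_of_nonneg_right (hB n) (norm_nonneg _)
  refine (norm_add_le _ _).trans ?_
  have h4 := norm_sub_le ((∑ j ∈ Icc 1 M, c j) * G (M + 1)) ((∑ j ∈ Icc 1 N, c j) * G (N + 1))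
  linarith

noncomputable def G (x : ℝ) (n : ℕ) : ℂ := ((1 / √(n : ℝ) : ℝ) : ℂ) * E (-x / (2 * n))

lemma norm_G (x : ℝ) (n : ℕ) : ‖G x n‖ = 1 / √(n : ℝ) := by
  unfold G; rw [norm_mul, norm_E, mul_one, Complex.norm_real, Real.norm_eq_abs,
    abs_of_nonneg (by positivity)]

lemma G_diff (x : ℝ) (hx : 0 ≤ x) (n : ℕ) (hn : 1 ≤ n) :
    ‖G x n - G x (n + 1)‖ ≤ (1 / √(n : ℝ) - 1 / √((n + 1 : ℕ) : ℝ))
      + (1 / √(n : ℝ)) * (Real.pi * x) * (1 / (n : ℝ) - 1 / ((n + 1 : ℕ) : ℝ)) := by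
  have hn0 : (0 : ℝ) < n := by exact_mod_cast hn
  have hn1 : (0 : ℝ) < ((n + 1 : ℕ) : ℝ) := by positivity
  have h1 : G x n - G x (n + 1)
      = ((1 / √(n : ℝ) - 1 / √((n + 1 : ℕ) : ℝ) : ℝ) : ℂ) * E (-x / (2 * (n + 1 : ℕ)))
        + ((1 / √(n : ℝ) : ℝ) : ℂ) * (E (-x / (2 * n)) - E (-x / (2 * (n + 1 : ℕ)))) := by
    unfold G; push_cast; ring
  rw [h1]
  refine (norm_add_le _ _).trans (add_le_add ?_ ?_)
  · rw [norm_mul, norm_E, mul_one, Complex.norm_real, Real.norm_eq_abs, abs_of_nonneg]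
    have : √(n : ℝ) ≤ √((n + 1 : ℕ) : ℝ) := Real.sqrt_le_sqrt (by push_cast; linarith)
    have h0 : 0 < √(n : ℝ) := Real.sqrt_pos.mpr hn0
    have := one_div_le_one_div_of_le h0 this
    linarith
  · rw [norm_mul, Complex.norm_real, Real.norm_eq_abs, abs_of_nonneg (by positivity), mul_assoc]
    refine mul_le_mul_of_nonneg_left ((E_lip _ _).trans (le_of_eq ?_)) (by positivity)
    have h2 : -x / (2 * (n : ℝ)) - -x / (2 * ((n + 1 : ℕ) : ℝ))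
        = -((x / 2) * (1 / (n : ℝ) - 1 / ((n + 1 : ℕ) : ℝ))) := by
      field_simp
      ring
    have h3 : 0 ≤ 1 / (n : ℝ) - 1 / ((n + 1 : ℕ) : ℝ) := by
      have : (n : ℝ) ≤ ((n + 1 : ℕ) : ℝ) := by push_cast; linarith
      have := one_div_le_one_div_of_le hn0 this
      linarith
    rw [h2, abs_neg, abs_of_nonneg (by positivity)]
    ring

lemma G_sum (x : ℝ) (hx : 0 ≤ x) (N M : ℕ) (h : N ≤ M) :
    ∑ n ∈ Ioc N M, ‖G x n - G x (n + 1)‖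
      ≤ (1 / √((N + 1 : ℕ) : ℝ) - 1 / √((M + 1 : ℕ) : ℝ))
      + (1 / √((N + 1 : ℕ) : ℝ)) * (Real.pi * x)
        * (1 / ((N + 1 : ℕ) : ℝ) - 1 / ((M + 1 : ℕ) : ℝ)) := by
  induction M, h using Nat.le_induction with
  | base => simp
  | succ M hM ih =>
    rw [Finset.sum_Ioc_succ_top hM]
    have h1 := G_diff x hx (M + 1) (by omega)
    have h2 : (1 / √((M + 1 : ℕ) : ℝ)) ≤ (1 / √((N + 1 : ℕ) : ℝ)) := by
      apply one_div_le_one_div_of_le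
      · exact Real.sqrt_pos.mpr (by positivity)
      · exact Real.sqrt_le_sqrt (by exact_mod_cast (by omega : N + 1 ≤ M + 1))
    have h3 : 0 ≤ 1 / ((M + 1 : ℕ) : ℝ) - 1 / ((M + 1 + 1 : ℕ) : ℝ) := by
      have h4 : ((M + 1 : ℕ) : ℝ) ≤ ((M + 1 + 1 : ℕ) : ℝ) := by push_cast; linarith
      have h5 : (0 : ℝ) < ((M + 1 : ℕ) : ℝ) := by positivity
      have := one_div_le_one_div_of_le h5 h4
      linarith
    have hpx : 0 ≤ Real.pi * x := by positivity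
    have h6 : (1 / √((M + 1 : ℕ) : ℝ)) * (Real.pi * x)
          * (1 / ((M + 1 : ℕ) : ℝ) - 1 / ((M + 1 + 1 : ℕ) : ℝ))
        ≤ (1 / √((N + 1 : ℕ) : ℝ)) * (Real.pi * x)
          * (1 / ((M + 1 : ℕ) : ℝ) - 1 / ((M + 1 + 1 : ℕ) : ℝ)) :=
      mul_le_mul_of_nonneg_right (mul_le_mul_of_nonneg_right h2 hpx) h3
    nlinarith [ih, h1, h6]

/-- the partial sums -/
noncomputable def P (x : ℝ) (N : ℕ) : ℝ := ∑ n ∈ Finset.Icc 1 N,
  2 / Real.sqrt (n : ℝ) * Real.cos (Real.pi * ((3 * (n : ℝ) - 1) / 4 - x / (n : ℝ)))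

lemma term_eq (x : ℝ) (n : ℕ) :
    2 / Real.sqrt (n : ℝ) * Real.cos (Real.pi * ((3 * (n : ℝ) - 1) / 4 - x / (n : ℝ)))
      = 2 * (c n * G x n).re := by
  unfold c G
  have h : E ((3 * (n : ℝ) - 1) / 8) * (((1 / √(n : ℝ) : ℝ) : ℂ) * E (-x / (2 * n)))
      = ((1 / √(n : ℝ) : ℝ) : ℂ) * E ((3 * (n : ℝ) - 1) / 8 + -x / (2 * n)) := by
    rw [E_add]; ring
  rw [h, Complex.re_ofReal_mul, E_re]
  have h2 : 2 * Real.pi * ((3 * (n : ℝ) - 1) / 8 + -x / (2 * n))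
      = Real.pi * ((3 * (n : ℝ) - 1) / 4 - x / (n : ℝ)) := by
    by_cases hn : (n : ℝ) = 0
    · rw [hn]; simp; ring
    · field_simp; ring
  rw [h2]; ring

lemma P_sub (x : ℝ) (N M : ℕ) (h : N ≤ M) :
    P x M - P x N = 2 * (∑ n ∈ Ioc N M, c n * G x n).re := by
  induction M, h using Nat.le_induction with
  | base => simp
  | succ M hM ih =>
    have h1 : P x (M + 1) = P x M + 2 * (c (M + 1) * G x (M + 1)).re := by
      unfold P
      rw [Finset.sum_Icc_succ_top (by omega), term_eq]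
    rw [Finset.sum_Ioc_succ_top hM, h1, Complex.add_re]
    linarith

/-- the tail estimate -/
lemma tail (x : ℝ) (hx : 0 ≤ x) (N M : ℕ) (h : N ≤ M) :
    |P x M - P x N| ≤ 4 * (2 + Real.pi * x / ((N + 1 : ℕ) : ℝ)) / √((N + 1 : ℕ) : ℝ) := by
  rw [P_sub x N M h, abs_mul, abs_of_pos (by norm_num : (0:ℝ) < 2)]
  have h1 := Complex.abs_re_le_norm (∑ n ∈ Ioc N M, c n * G x n)
  have h2 := abel c (G x) 2 c_bound N M h
  have h3 := G_sum x hx N M h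
  rw [norm_G, norm_G] at h2
  have h4 : 0 ≤ (1 / √((N + 1 : ℕ) : ℝ)) * (Real.pi * x) * (1 / ((M + 1 : ℕ) : ℝ)) := by
    positivity
  have h5 : 4 * (2 + Real.pi * x / ((N + 1 : ℕ) : ℝ)) / √((N + 1 : ℕ) : ℝ)
      = 4 * (1 / √((N + 1 : ℕ) : ℝ) + 1 / √((N + 1 : ℕ) : ℝ)
        + (1 / √((N + 1 : ℕ) : ℝ)) * (Real.pi * x) * (1 / ((N + 1 : ℕ) : ℝ))) := by
    ring
  rw [h5]
  have h6 : (1 / √((N + 1 : ℕ) : ℝ)) * (Real.pi * x)
        * (1 / ((N + 1 : ℕ) : ℝ) - 1 / ((M + 1 : ℕ) : ℝ))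
      = (1 / √((N + 1 : ℕ) : ℝ)) * (Real.pi * x) * (1 / ((N + 1 : ℕ) : ℝ))
      - (1 / √((N + 1 : ℕ) : ℝ)) * (Real.pi * x) * (1 / ((M + 1 : ℕ) : ℝ)) := by ring
  rw [h6] at h3
  linarith

lemma tail_tendsto (x : ℝ) : Filter.Tendsto (fun N : ℕ =>
    4 * (2 + Real.pi * x / ((N + 1 : ℕ) : ℝ)) / √((N + 1 : ℕ) : ℝ)) Filter.atTop (nhds 0) := by
  have h1 : Filter.Tendsto (fun N : ℕ => ((N + 1 : ℕ) : ℝ)) Filter.atTop Filter.atTop :=
    tendsto_natCast_atTop_atTop.comp (Filter.tendsto_add_atTop_nat 1)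
  have h2 : Filter.Tendsto (fun N : ℕ => √((N + 1 : ℕ) : ℝ)) Filter.atTop Filter.atTop :=
    Real.tendsto_sqrt_atTop.comp h1
  have h3 : Filter.Tendsto (fun N : ℕ => Real.pi * x / ((N + 1 : ℕ) : ℝ)) Filter.atTop (nhds 0) :=
    h1.const_div_atTop _
  have h4 : Filter.Tendsto (fun N : ℕ => 4 * (2 + Real.pi * x / ((N + 1 : ℕ) : ℝ)))
      Filter.atTop (nhds (4 * (2 + 0))) := (h3.const_add 2).const_mul 4
  exact h4.div_atTop h2

lemma conv (x : ℝ) (hx : 0 ≤ x) : ∃ S : ℝ, Filter.Tendsto (P x) Filter.atTop (nhds S) := by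
  apply cauchySeq_tendsto_of_complete
  refine cauchySeq_of_le_tendsto_0 (fun N : ℕ =>
    2 * (4 * (2 + Real.pi * x / ((N + 1 : ℕ) : ℝ)) / √((N + 1 : ℕ) : ℝ))) ?_ ?_
  · intro n m N hn hm
    have h1 := tail x hx N n hn
    have h2 := tail x hx N m hm
    rw [Real.dist_eq]
    have : P x n - P x m = (P x n - P x N) - (P x m - P x N) := by ring
    rw [this]
    refine (abs_sub _ _).trans ?_
    linarith
  · have := (tail_tendsto x).const_mul 2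
    simpa using this

lemma lim_bound (x : ℝ) (hx : 0 ≤ x) (S : ℝ) (hS : Filter.Tendsto (P x) Filter.atTop (nhds S))
    (N : ℕ) : |S - P x N| ≤ 4 * (2 + Real.pi * x / ((N + 1 : ℕ) : ℝ)) / √((N + 1 : ℕ) : ℝ) := by
  have h1 : Filter.Tendsto (fun M => |P x M - P x N|) Filter.atTop (nhds |S - P x N|) :=
    (hS.sub_const _).abs
  refine le_of_tendsto h1 ?_
  filter_upwards [Filter.eventually_ge_atTop N] with M hM
  exact tail x hx N M hM

end Pool.Agent.V11310.CosSer
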