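import Pool.Agent.V11310.CosSer

set_option autoImplicit false

namespace Pool.Agent.V11310.CosSer

open Finset

lemma E_sub_one_ge (n L : ℕ) (hn : 1 ≤ n) (hL : ¬ n ∣ L) :
    4 / (n : ℝ) ≤ ‖E (-(L : ℝ) / n) - 1‖ := by
  have hn0 : (0 : ℝ) < n := by exact_mod_cast hn
  set r := L % n with hr
  have hr1 : 1 ≤ r := by
    rcases Nat.eq_zero_or_pos r with h | h
    · exact absurd (Nat.dvd_of_mod_eq_zero h) hL
    · exact h
  have hr2 : r < n := Nat.mod_lt _ hn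
  have hLr : L = n * (L / n) + r := (Nat.div_add_mod L n).symm
  have h1 : E (-(L : ℝ) / n) = E (-(r : ℝ) / n) := by
    obtain ⟨q, hq⟩ : ∃ q, L = n * q + r := ⟨_, hLr⟩
    have : (-(L : ℝ) / n) = (-(r : ℝ) / n) + ((-(q : ℤ) : ℤ) : ℝ) := by
      have h2 : (L : ℝ) = n * (q : ℝ) + (r : ℝ) := by exact_mod_cast hq
      rw [h2]; push_cast; field_simp; ring
    rw [this, E_add, E_int, mul_one]
  rw [h1]
  unfold E
  rw [Complex.norm_exp_I_mul_ofReal_sub_one, Real.norm_eq_abs, abs_mul,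
    abs_of_pos (by norm_num : (0:ℝ) < 2)]
  have h2 : 2 * Real.pi * (-(r : ℝ) / n) / 2 = -(Real.pi * (r / n)) := by ring
  rw [h2, Real.sin_neg, abs_neg]
  have hr1' : (1 : ℝ) ≤ r := by exact_mod_cast hr1
  have hr2' : (r : ℝ) + 1 ≤ n := by exact_mod_cast hr2
  have hpi := Real.pi_pos
  have h3 : 2 / (n : ℝ) ≤ Real.sin (Real.pi * (r / n)) := by
    rcases le_total ((r : ℝ) / n) (1 / 2) with h | h
    · have h4 := Real.mul_le_sin (x := Real.pi * (r / n)) (by positivity) (by nlinarith)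
      have h5 : 2 / Real.pi * (Real.pi * (r / n)) = 2 * r / n := by field_simp
      rw [h5] at h4
      refine le_trans ?_ h4
      exact div_le_div_of_nonneg_right (by linarith) hn0.le
    · have h6 : Real.sin (Real.pi * (r / n)) = Real.sin (Real.pi * ((n - r) / n)) := by
        rw [← Real.sin_pi_sub]; congr 1; field_simp
      rw [h6]
      have h7 : ((n : ℝ) - r) / n = 1 - r / n := by field_simp
      have h4 := Real.mul_le_sin (x := Real.pi * (((n : ℝ) - r) / n))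
        (mul_nonneg hpi.le (div_nonneg (by linarith) hn0.le)) (by rw [h7]; nlinarith)
      have h5 : 2 / Real.pi * (Real.pi * (((n : ℝ) - r) / n)) = 2 * (n - r) / n := by field_simp
      rw [h5] at h4
      refine le_trans ?_ h4
      exact div_le_div_of_nonneg_right (by linarith) hn0.le
  have h8 : 2 / (n : ℝ) ≤ |Real.sin (Real.pi * (r / n))| := h3.trans (le_abs_self _)
  have h9 : 4 / (n : ℝ) = 2 * (2 / n) := by ring
  rw [h9]; linarith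

lemma geom_bound (n L K : ℕ) (hn : 1 ≤ n) (hL : ¬ n ∣ L) :
    ‖∑ l ∈ range K, (E (-(L : ℝ) / n)) ^ l‖ ≤ n / 2 := by
  have hn0 : (0 : ℝ) < n := by exact_mod_cast hn
  have h1 := E_sub_one_ge n L hn hL
  have h2 : (∑ l ∈ range K, (E (-(L : ℝ) / n)) ^ l) * (E (-(L : ℝ) / n) - 1)
      = (E (-(L : ℝ) / n)) ^ K - 1 := geom_sum_mul _ _
  have h3 : ‖∑ l ∈ range K, (E (-(L : ℝ) / n)) ^ l‖ * ‖E (-(L : ℝ) / n) - 1‖ ≤ 2 := by
    rw [← norm_mul, h2]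
    refine (norm_sub_le _ _).trans ?_
    rw [norm_pow, norm_E, one_pow, norm_one]; norm_num
  have h4 : ‖∑ l ∈ range K, (E (-(L : ℝ) / n)) ^ l‖ * (4 / n) ≤ 2 :=
    (mul_le_mul_of_nonneg_left h1 (norm_nonneg _)).trans h3
  rw [mul_div_assoc', div_le_iff₀ hn0] at h4
  linarith

/-- the sample points -/
noncomputable def X (L κ l : ℕ) : ℝ := (L : ℝ) * (κ + 8 * l) / 4

lemma X_nonneg (L κ l : ℕ) : 0 ≤ X L κ l := by unfold X; positivity

lemma G_X (L κ n l₁ l₂ : ℕ) (hn : 1 ≤ n) :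
    G (X L κ (l₁ + l₂)) n = (((1 / √(n : ℝ) : ℝ) : ℂ) * E (-((L : ℝ) * κ) / (8 * n)))
      * ((E (-(L : ℝ) / n)) ^ l₁ * (E (-(L : ℝ) / n)) ^ l₂) := by
  have hn0 : (0 : ℝ) < n := by exact_mod_cast hn
  unfold G
  rw [← E_nat_mul, ← E_nat_mul, ← E_add, mul_assoc, ← E_add]
  congr 2
  unfold X
  push_cast
  field_simp
  ring

lemma double_sum (L κ n K : ℕ) (hn : 1 ≤ n) :
    ∑ l₁ ∈ range K, ∑ l₂ ∈ range K, c n * G (X L κ (l₁ + l₂)) n
      = (c n * (((1 / √(n : ℝ) : ℝ) : ℂ) * E (-((L : ℝ) * κ) / (8 * n))))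
        * (∑ l ∈ range K, (E (-(L : ℝ) / n)) ^ l) ^ 2 := by
  rw [sq, Finset.sum_mul_sum, Finset.mul_sum]
  refine Finset.sum_congr rfl fun l₁ _ => ?_
  rw [Finset.mul_sum]
  refine Finset.sum_congr rfl fun l₂ _ => ?_
  rw [G_X L κ n l₁ l₂ hn]
  ring

lemma nonres (L κ n K : ℕ) (hn : 1 ≤ n) (hL : ¬ n ∣ L) :
    -(n * √(n : ℝ) / 4) ≤ (∑ l₁ ∈ range K, ∑ l₂ ∈ range K, c n * G (X L κ (l₁ + l₂)) n).re := by
  have hn0 : (0 : ℝ) < n := by exact_mod_cast hn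
  have h1 := geom_bound n L K hn hL
  rw [double_sum L κ n K hn]
  set Z := (c n * (((1 / √(n : ℝ) : ℝ) : ℂ) * E (-((L : ℝ) * κ) / (8 * n))))
        * (∑ l ∈ range K, (E (-(L : ℝ) / n)) ^ l) ^ 2 with hZ
  have h2 : ‖Z‖ ≤ n * √(n : ℝ) / 4 := by
    rw [hZ, norm_mul, norm_mul, norm_c, one_mul, norm_mul, norm_E, mul_one, Complex.norm_real,
      Real.norm_eq_abs, abs_of_nonneg (by positivity), norm_pow]
    have h3 : ‖∑ l ∈ range K, (E (-(L : ℝ) / n)) ^ l‖ ^ 2 ≤ (n / 2 : ℝ) ^ 2 :=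
      pow_le_pow_left₀ (norm_nonneg _) h1 2
    refine (mul_le_mul_of_nonneg_left h3 (by positivity)).trans (le_of_eq ?_)
    have h4 : √(n : ℝ) * √(n : ℝ) = n := Real.mul_self_sqrt hn0.le
    have h5 : √(n : ℝ) ≠ 0 := (Real.sqrt_pos.mpr hn0).ne'
    field_simp
    rw [sq, h4]
    ring
  have h3 := Complex.abs_re_le_norm Z
  have h4 := neg_abs_le Z.re
  linarith

lemma res (L κ n K : ℕ) (hn : 1 ≤ n) (hodd : Odd L) (hκ : L * κ ≡ 3 [MOD 8]) (hL : n ∣ L) :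
    (∑ l₁ ∈ range K, ∑ l₂ ∈ range K, c n * G (X L κ (l₁ + l₂)) n).re
      = (K : ℝ) ^ 2 * (√2 / 2) * (1 / √(n : ℝ)) := by
  have hn0 : (0 : ℝ) < n := by exact_mod_cast hn
  obtain ⟨d, rfl⟩ := hL
  rw [double_sum _ κ n K hn]
  have h1 : E (-(((n * d : ℕ) : ℝ)) / n) = 1 := by
    have : -(((n * d : ℕ) : ℝ)) / n = ((-(d : ℤ) : ℤ) : ℝ) := by
      push_cast; field_simp
    rw [this, E_int]
  rw [h1]
  simp only [one_pow, Finset.sum_const, Finset.card_range, nsmul_eq_mul, mul_one]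
  -- the congruence
  have hnodd : Odd n := Nat.Odd.of_mul_left hodd
  have hint : ∃ z : ℤ, (3 * (n : ℤ) - d * κ) = 8 * z := by
    have h2 : (n : ℤ) * d * κ ≡ 3 [ZMOD 8] := by
      have := (Int.natCast_modEq_iff.mpr hκ)
      push_cast at this
      exact this
    have h3 : (n : ℤ) * n ≡ 1 [ZMOD 8] := by
      obtain ⟨m, hm⟩ := hnodd
      have hm' : (n : ℤ) = 2 * m + 1 := by exact_mod_cast hm
      rw [hm']
      obtain ⟨t, ht⟩ := Int.even_mul_succ_self (m : ℤ)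
      apply Int.ModEq.symm
      rw [Int.modEq_iff_dvd]
      exact ⟨t, by nlinarith⟩
    have h4 : (n : ℤ) * (n * d * κ) ≡ n * 3 [ZMOD 8] := h2.mul_left _
    have h5 : (n : ℤ) * n * (d * κ) ≡ 1 * (d * κ) [ZMOD 8] := h3.mul_right _
    have h6 : (d : ℤ) * κ ≡ n * 3 [ZMOD 8] := by
      have : (n : ℤ) * (n * d * κ) = n * n * (d * κ) := by ring
      rw [this] at h4
      rw [one_mul] at h5
      exact h5.symm.trans h4
    obtain ⟨z, hz⟩ := (Int.modEq_iff_dvd.mp h6)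
    exact ⟨z, by linarith⟩
  obtain ⟨z, hz⟩ := hint
  have hz' : 3 * (n : ℝ) - d * κ = 8 * z := by exact_mod_cast hz
  have h7 : c n * (((1 / √(n : ℝ) : ℝ) : ℂ) * E (-(((n * d : ℕ) : ℝ) * κ) / (8 * n))) * (K : ℂ) ^ 2
      = (((K : ℝ) ^ 2 * (1 / √(n : ℝ)) : ℝ) : ℂ) * E (-1 / 8) := by
    have h8 : c n * E (-(((n * d : ℕ) : ℝ) * κ) / (8 * n)) = E (-1 / 8) := by
      unfold c
      rw [← E_add]
      have h9 : (3 * (n : ℝ) - 1) / 8 + -(((n * d : ℕ) : ℝ) * κ) / (8 * n) = -1 / 8 + (z : ℝ) := by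
        push_cast
        field_simp
        linarith
      rw [h9, E_add, E_int, mul_one]
    calc c n * (((1 / √(n : ℝ) : ℝ) : ℂ) * E (-(((n * d : ℕ) : ℝ) * κ) / (8 * n))) * (K : ℂ) ^ 2
        = (((K : ℝ) ^ 2 * (1 / √(n : ℝ)) : ℝ) : ℂ)
          * (c n * E (-(((n * d : ℕ) : ℝ) * κ) / (8 * n))) := by push_cast; ring
      _ = _ := by rw [h8]
  rw [h7, Complex.re_ofReal_mul, E_re]
  have h8 : 2 * Real.pi * (-1 / 8) = -(Real.pi / 4) := by ring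
  rw [h8, Real.cos_neg, Real.cos_pi_div_four]
  ring

/-- `σ_{-1/2}` -/
noncomputable def σ (L : ℕ) : ℝ := ∑ n ∈ L.divisors, 1 / √(n : ℝ)

lemma avg (L κ N K : ℕ) (hodd : Odd L) (hκ : L * κ ≡ 3 [MOD 8]) (hN : L ≤ N) :
    (K : ℝ) ^ 2 * √2 * σ L - N * (N * √(N : ℝ) / 2)
      ≤ ∑ l₁ ∈ range K, ∑ l₂ ∈ range K, P (X L κ (l₁ + l₂)) N := by
  have hLpos : 0 < L := hodd.pos
  have h1 : ∀ l₁ l₂ : ℕ, P (X L κ (l₁ + l₂)) N
      = ∑ n ∈ Icc 1 N, 2 * (c n * G (X L κ (l₁ + l₂)) n).re := by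
    intro l₁ l₂
    unfold P
    exact Finset.sum_congr rfl fun n _ => term_eq _ _
  have h2 : ∑ l₁ ∈ range K, ∑ l₂ ∈ range K, P (X L κ (l₁ + l₂)) N
      = ∑ n ∈ Icc 1 N, 2 * (∑ l₁ ∈ range K, ∑ l₂ ∈ range K, c n * G (X L κ (l₁ + l₂)) n).re := by
    simp only [h1]
    have h3 : ∀ l₁ ∈ range K, ∑ l₂ ∈ range K, ∑ n ∈ Icc 1 N, 2 * (c n * G (X L κ (l₁ + l₂)) n).re
        = ∑ n ∈ Icc 1 N, ∑ l₂ ∈ range K, 2 * (c n * G (X L κ (l₁ + l₂)) n).re :=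
      fun l₁ _ => Finset.sum_comm
    rw [Finset.sum_congr rfl h3, Finset.sum_comm]
    refine Finset.sum_congr rfl fun n _ => ?_
    rw [Complex.re_sum, Finset.mul_sum]
    refine Finset.sum_congr rfl fun l₁ _ => ?_
    rw [Complex.re_sum, Finset.mul_sum]
  rw [h2]
  have hsub : L.divisors ⊆ Icc 1 N := by
    intro n hn
    rw [Nat.mem_divisors] at hn
    rw [Finset.mem_Icc]
    exact ⟨Nat.pos_of_dvd_of_pos hn.1 hLpos, (Nat.le_of_dvd hLpos hn.1).trans hN⟩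
  rw [← Finset.sum_sdiff hsub]
  have h4 : ∑ n ∈ L.divisors,
      2 * (∑ l₁ ∈ range K, ∑ l₂ ∈ range K, c n * G (X L κ (l₁ + l₂)) n).re
      = (K : ℝ) ^ 2 * √2 * σ L := by
    unfold σ
    rw [Finset.mul_sum]
    refine Finset.sum_congr rfl fun n hn => ?_
    have hn' := Nat.mem_divisors.mp hn
    rw [res L κ n K (Nat.pos_of_dvd_of_pos hn'.1 hLpos) hodd hκ hn'.1]
    ring
  have h5 : -(N * (N * √(N : ℝ) / 2)) ≤ ∑ n ∈ Icc 1 N \ L.divisors,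
      2 * (∑ l₁ ∈ range K, ∑ l₂ ∈ range K, c n * G (X L κ (l₁ + l₂)) n).re := by
    have h6 : ∀ n ∈ Icc 1 N \ L.divisors, -(N * √(N : ℝ) / 2) ≤
        2 * (∑ l₁ ∈ range K, ∑ l₂ ∈ range K, c n * G (X L κ (l₁ + l₂)) n).re := by
      intro n hn
      rw [Finset.mem_sdiff, Finset.mem_Icc, Nat.mem_divisors] at hn
      have hnd : ¬ n ∣ L := fun h => hn.2 ⟨h, hLpos.ne'⟩
      have h7 := nonres L κ n K hn.1.1 hnd
      have h8 : (n : ℝ) ≤ N := by exact_mod_cast hn.1.2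
      have h9 : √(n : ℝ) ≤ √(N : ℝ) := Real.sqrt_le_sqrt h8
      have h10 : (n : ℝ) * √(n : ℝ) ≤ N * √(N : ℝ) := by gcongr
      linarith
    have h11 := Finset.sum_le_sum h6
    refine le_trans ?_ h11
    rw [Finset.sum_const, nsmul_eq_mul]
    have h12 : ((Icc 1 N \ L.divisors).card : ℝ) ≤ N := by
      have : (Icc 1 N \ L.divisors).card ≤ (Icc 1 N).card := Finset.card_le_card Finset.sdiff_subset
      rw [Nat.card_Icc] at this
      exact_mod_cast this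
    have h13 : 0 ≤ (N : ℝ) * √(N : ℝ) / 2 := by positivity
    nlinarith
  rw [h4]
  linarith

lemma exists_kappa (L : ℕ) (hodd : Odd L) : ∃ κ : ℕ, 1 ≤ κ ∧ κ ≤ 7 ∧ L * κ ≡ 3 [MOD 8] := by
  have h : L % 8 = 1 ∨ L % 8 = 3 ∨ L % 8 = 5 ∨ L % 8 = 7 := by
    have := Nat.odd_iff.mp hodd; omega
  rcases h with h | h | h | h
  · exact ⟨3, by norm_num, by norm_num, by unfold Nat.ModEq; omega⟩
  · exact ⟨1, by norm_num, by norm_num, by unfold Nat.ModEq; omega⟩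
  · exact ⟨7, by norm_num, by norm_num, by unfold Nat.ModEq; omega⟩
  · exact ⟨5, by norm_num, by norm_num, by unfold Nat.ModEq; omega⟩

/-- large values -/
theorem large (L : ℕ) (hodd : Odd L) : ∃ x : ℝ, (L : ℝ) / 4 ≤ x ∧ x ≤ 6 * (L : ℝ) ^ 9 ∧
    ∀ S : ℝ, Filter.Tendsto (P x) Filter.atTop (nhds S) → √2 * σ L - 85 ≤ S := by
  obtain ⟨κ, hκ1, hκ7, hκ⟩ := exists_kappa L hodd
  have hLpos : 1 ≤ L := hodd.pos
  have hLR : (1 : ℝ) ≤ L := by exact_mod_cast hLpos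
  have h1 := avg L κ (L ^ 6) (L ^ 8) hodd hκ (Nat.le_self_pow (by norm_num) L)
  have hsq : √(((L ^ 6 : ℕ) : ℝ)) = (L : ℝ) ^ 3 := by
    have : (((L ^ 6 : ℕ) : ℝ)) = ((L : ℝ) ^ 3) ^ 2 := by push_cast; ring
    rw [this, Real.sqrt_sq (by positivity)]
  rw [hsq] at h1
  have hex : ∃ p ∈ range (L ^ 8) ×ˢ range (L ^ 8),
      √2 * σ L - 1 / 2 ≤ P (X L κ (p.1 + p.2)) (L ^ 6) := by
    by_contra hcon
    push Not at hcon
    have hne : (range (L ^ 8) ×ˢ range (L ^ 8)).Nonempty := by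
      refine ⟨(0, 0), ?_⟩
      rw [Finset.mem_product]
      exact ⟨Finset.mem_range.mpr (by positivity), Finset.mem_range.mpr (by positivity)⟩
    have h2 := Finset.sum_lt_sum_of_nonempty hne hcon
    rw [Finset.sum_product, Finset.sum_const, Finset.card_product, Finset.card_range,
      nsmul_eq_mul] at h2
    push_cast at h1 h2
    have h3 : (L : ℝ) ^ 15 ≤ (L : ℝ) ^ 16 := pow_le_pow_right₀ hLR (by norm_num)
    have h4 : (L : ℝ) ^ 6 * ((L : ℝ) ^ 6 * (L : ℝ) ^ 3 / 2) = (L : ℝ) ^ 15 / 2 := by ring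
    rw [h4] at h1
    have h5 : ((L : ℝ) ^ 8) ^ 2 * √2 * σ L = (L : ℝ) ^ 16 * (√2 * σ L) := by ring
    rw [h5] at h1
    have h6 : (L : ℝ) ^ 8 * (L : ℝ) ^ 8 * (√2 * σ L - 1 / 2)
        = (L : ℝ) ^ 16 * (√2 * σ L) - (L : ℝ) ^ 16 / 2 := by ring
    rw [h6] at h2
    linarith
  obtain ⟨⟨l₁, l₂⟩, hp, hP⟩ := hex
  rw [Finset.mem_product, Finset.mem_range, Finset.mem_range] at hp
  refine ⟨X L κ (l₁ + l₂), ?_, ?_, ?_⟩
  · unfold X
    have hκR : (1 : ℝ) ≤ κ := by exact_mod_cast hκ1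
    have h0 : (0 : ℝ) ≤ ((l₁ + l₂ : ℕ) : ℝ) := by positivity
    have : (L : ℝ) * 1 ≤ L * (κ + 8 * ((l₁ + l₂ : ℕ) : ℝ)) :=
      mul_le_mul_of_nonneg_left (by linarith) (by linarith)
    linarith
  · unfold X
    have h2 : ((l₁ + l₂ : ℕ) : ℝ) ≤ 2 * (L : ℝ) ^ 8 := by
      have : l₁ + l₂ ≤ 2 * L ^ 8 := by
        have := hp.1; have := hp.2; simp only at *; omega
      exact_mod_cast this
    have hκR : (κ : ℝ) ≤ 7 := by exact_mod_cast hκ7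
    have h3 : (1 : ℝ) ≤ (L : ℝ) ^ 8 := one_le_pow₀ hLR
    have h4 : (κ : ℝ) + 8 * ((l₁ + l₂ : ℕ) : ℝ) ≤ 24 * (L : ℝ) ^ 8 := by linarith
    have h5 : (L : ℝ) * (κ + 8 * ((l₁ + l₂ : ℕ) : ℝ)) ≤ L * (24 * (L : ℝ) ^ 8) :=
      mul_le_mul_of_nonneg_left h4 (by linarith)
    have h6 : (L : ℝ) * (24 * (L : ℝ) ^ 8) = 24 * (L : ℝ) ^ 9 := by ring
    linarith
  · intro S hS
    have hx0 := X_nonneg L κ (l₁ + l₂)
    have h2 : X L κ (l₁ + l₂) ≤ 6 * (L : ℝ) ^ 9 := by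
      unfold X
      have h2 : ((l₁ + l₂ : ℕ) : ℝ) ≤ 2 * (L : ℝ) ^ 8 := by
        have : l₁ + l₂ ≤ 2 * L ^ 8 := by
          have := hp.1; have := hp.2; simp only at *; omega
        exact_mod_cast this
      have hκR : (κ : ℝ) ≤ 7 := by exact_mod_cast hκ7
      have h3 : (1 : ℝ) ≤ (L : ℝ) ^ 8 := one_le_pow₀ hLR
      have h4 : (κ : ℝ) + 8 * ((l₁ + l₂ : ℕ) : ℝ) ≤ 24 * (L : ℝ) ^ 8 := by linarith
      have h5 : (L : ℝ) * (κ + 8 * ((l₁ + l₂ : ℕ) : ℝ)) ≤ L * (24 * (L : ℝ) ^ 8) :=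
        mul_le_mul_of_nonneg_left h4 (by linarith)
      have h6 : (L : ℝ) * (24 * (L : ℝ) ^ 8) = 24 * (L : ℝ) ^ 9 := by ring
      linarith
    have h3 := lim_bound _ hx0 S hS (L ^ 6)
    have h4 : 4 * (2 + Real.pi * X L κ (l₁ + l₂) / ((L ^ 6 + 1 : ℕ) : ℝ)) / √((L ^ 6 + 1 : ℕ) : ℝ)
        ≤ 84 := by
      have h5 : (L : ℝ) ^ 6 ≤ ((L ^ 6 + 1 : ℕ) : ℝ) := by push_cast; linarith
      have h6 : (L : ℝ) ^ 3 ≤ √((L ^ 6 + 1 : ℕ) : ℝ) := by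
        apply Real.le_sqrt_of_sq_le
        calc ((L : ℝ) ^ 3) ^ 2 = (L : ℝ) ^ 6 := by ring
          _ ≤ _ := h5
      have h7 : Real.pi * X L κ (l₁ + l₂) / ((L ^ 6 + 1 : ℕ) : ℝ)
          ≤ Real.pi * (6 * (L : ℝ) ^ 9) / (L : ℝ) ^ 6 := by
        apply div_le_div₀ (by positivity) _ (by positivity) h5
        exact mul_le_mul_of_nonneg_left h2 Real.pi_pos.le
      have h8 : Real.pi * (6 * (L : ℝ) ^ 9) / (L : ℝ) ^ 6 = 6 * Real.pi * (L : ℝ) ^ 3 := by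
        field_simp
      rw [h8] at h7
      have h9 : (1 : ℝ) ≤ (L : ℝ) ^ 3 := one_le_pow₀ hLR
      have h10 : Real.pi < 3.15 := Real.pi_lt_d2
      rw [div_le_iff₀ (by positivity)]
      have h11 : Real.pi * X L κ (l₁ + l₂) / ((L ^ 6 + 1 : ℕ) : ℝ) ≤ 18.9 * (L : ℝ) ^ 3 := by
        refine h7.trans ?_
        have : 6 * Real.pi ≤ 18.9 := by linarith
        exact mul_le_mul_of_nonneg_right this (by positivity)
      have h12 : 4 * (2 + Real.pi * X L κ (l₁ + l₂) / ((L ^ 6 + 1 : ℕ) : ℝ))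
          ≤ 84 * (L : ℝ) ^ 3 := by linarith
      exact h12.trans (mul_le_mul_of_nonneg_left h6 (by norm_num))
    have h13 := (abs_le.mp (h3.trans h4)).1
    simp only at hP
    linarith

end Pool.Agent.V11310.CosSer
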