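import Pool.Agent.V11310.CosSer2

set_option autoImplicit false

namespace Pool.Agent.V11310.CosSer

open Finset

lemma σ_pos (L : ℕ) : 0 ≤ σ L := by
  unfold σ; exact Finset.sum_nonneg fun _ _ => by positivity

lemma σ_prime_mul (p L : ℕ) (hp : p.Prime) (hL : 0 < L) (h : ¬ p ∣ L) :
    (1 + 1 / √(p : ℝ)) * σ L ≤ σ (p * L) := by
  have hinj : Set.InjOn (fun d => p * d) (L.divisors : Set ℕ) := by
    intro a _ b _ hab
    exact Nat.eq_of_mul_eq_mul_left hp.pos hab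
  have hdisj : Disjoint L.divisors (L.divisors.image (fun d => p * d)) := by
    rw [Finset.disjoint_left]
    intro a ha hb
    rw [Finset.mem_image] at hb
    obtain ⟨d, _, rfl⟩ := hb
    rw [Nat.mem_divisors] at ha
    exact h ((Dvd.intro _ rfl).trans ha.1)
  have hsub : L.divisors ∪ L.divisors.image (fun d => p * d) ⊆ (p * L).divisors := by
    intro a ha
    have hne : p * L ≠ 0 := Nat.mul_ne_zero hp.ne_zero hL.ne'
    rw [Finset.mem_union] at ha
    rcases ha with ha | ha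
    · rw [Nat.mem_divisors] at ha ⊢
      exact ⟨ha.1.mul_left p, hne⟩
    · rw [Finset.mem_image] at ha
      obtain ⟨d, hd, rfl⟩ := ha
      rw [Nat.mem_divisors] at hd ⊢
      exact ⟨Nat.mul_dvd_mul_left p hd.1, hne⟩
  calc (1 + 1 / √(p : ℝ)) * σ L
      = ∑ n ∈ L.divisors, 1 / √(n : ℝ)
        + ∑ n ∈ L.divisors.image (fun d => p * d), 1 / √(n : ℝ) := by
        rw [Finset.sum_image hinj]
        have : ∑ x ∈ L.divisors, 1 / √((p * x : ℕ) : ℝ) = (1 / √(p : ℝ)) * σ L := by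
          unfold σ
          rw [Finset.mul_sum]
          refine Finset.sum_congr rfl fun n _ => ?_
          push_cast
          rw [Real.sqrt_mul (by positivity), one_div_mul_one_div]
        rw [this]
        unfold σ
        ring
    _ = ∑ n ∈ L.divisors ∪ L.divisors.image (fun d => p * d), 1 / √(n : ℝ) :=
        (Finset.sum_union hdisj).symm
    _ ≤ σ (p * L) := by
        unfold σ
        exact Finset.sum_le_sum_of_subset_of_nonneg hsub (fun _ _ _ => by positivity)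

lemma σ_prod (S : Finset ℕ) (y : ℝ) (hy : 0 < y) (hS : ∀ p ∈ S, p.Prime ∧ √(p : ℝ) ≤ y) :
    (1 + 1 / y) ^ S.card ≤ σ (∏ p ∈ S, p) := by
  classical
  induction S using Finset.induction_on with
  | empty => simp [σ]
  | insert p S hp ih =>
    have hS' : ∀ q ∈ S, q.Prime ∧ √(q : ℝ) ≤ y := fun q hq => hS q (Finset.mem_insert_of_mem hq)
    have ih' := ih hS'
    obtain ⟨hp1, hp2⟩ := hS p (Finset.mem_insert_self _ _)
    rw [Finset.prod_insert hp, Finset.card_insert_of_notMem hp]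
    have hpos : 0 < ∏ p ∈ S, p := Finset.prod_pos fun q hq => (hS' q hq).1.pos
    have hnd : ¬ p ∣ ∏ q ∈ S, q := by
      intro h
      rw [Prime.dvd_finsetProd_iff hp1.prime] at h
      obtain ⟨q, hq, hpq⟩ := h
      have := (Nat.prime_dvd_prime_iff_eq hp1 (hS' q hq).1).mp hpq
      exact hp (this ▸ hq)
    refine le_trans ?_ (σ_prime_mul p _ hp1 hpos hnd)
    rw [pow_succ, mul_comm]
    have h1 : 1 / y ≤ 1 / √(p : ℝ) :=
      one_div_le_one_div_of_le (Real.sqrt_pos.mpr (by exact_mod_cast hp1.pos)) hp2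
    have h2 : 0 ≤ 1 / y := by positivity
    apply mul_le_mul (by linarith) ih' (by positivity) (by positivity)

lemma pi_large (j : ℕ) (hj : 5 ≤ j) : 8 ^ j + 1 ≤ Nat.primeCounting (16 ^ j) := by
  have h := Chebyshev.pi_ge (16 ^ j)
  have hlog2 : 0 < Real.log 2 := Real.log_pos (by norm_num)
  have hjR : (5 : ℝ) ≤ j := by exact_mod_cast hj
  have h1 : Real.log ((16 ^ j : ℕ) : ℝ) = 4 * j * Real.log 2 := by
    push_cast
    rw [Real.log_pow, show (16 : ℝ) = 2 ^ 4 by norm_num, Real.log_pow]; push_cast; ring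
  have h2 : Real.log (((16 ^ j : ℕ) : ℝ) + 1) ≤ (4 * j + 1) * Real.log 2 := by
    have h3 : (((16 ^ j : ℕ) : ℝ) + 1) ≤ 2 * ((16 ^ j : ℕ) : ℝ) := by
      have : (1 : ℝ) ≤ ((16 ^ j : ℕ) : ℝ) := by exact_mod_cast Nat.one_le_pow _ _ (by norm_num)
      linarith
    have h4 := Real.log_le_log (by positivity) h3
    rw [Real.log_mul (by norm_num) (by positivity), h1] at h4
    linarith
  rw [h1] at h
  have h5 : ((16 : ℝ) ^ j - (4 * j + 1)) / (4 * j) ≤ (Nat.primeCounting (16 ^ j) : ℝ) := by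
    refine le_trans ?_ h
    rw [div_le_div_iff₀ (by positivity) (by positivity)]
    have h6 : (16 : ℝ) ^ j * Real.log 2 - (4 * j + 1) * Real.log 2
        ≤ ((16 ^ j : ℕ) : ℝ) * Real.log 2 - Real.log (((16 ^ j : ℕ) : ℝ) + 1) := by
      push_cast at h2 ⊢
      linarith
    have h7 : 0 ≤ (4 * j : ℝ) := by positivity
    calc ((16 : ℝ) ^ j - (4 * j + 1)) * (4 * j * Real.log 2)
        = ((16 : ℝ) ^ j * Real.log 2 - (4 * j + 1) * Real.log 2) * (4 * j) := by ring
      _ ≤ _ := mul_le_mul_of_nonneg_right h6 h7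
  have h8 : 4 * j * (8 ^ j + 1) + (4 * j + 1) ≤ 16 ^ j := by
    clear h h1 h2 h5
    induction j, hj using Nat.le_induction with
    | base => norm_num
    | succ j hj ih =>
      have ih' := ih (by exact_mod_cast hj)
      have h9 : 1 ≤ 8 ^ j := Nat.one_le_pow _ _ (by norm_num)
      calc 4 * (j + 1) * (8 ^ (j + 1) + 1) + (4 * (j + 1) + 1)
          = 32 * (j + 1) * 8 ^ j + (8 * j + 9) := by ring
        _ ≤ 16 * (4 * j * (8 ^ j + 1) + (4 * j + 1)) := by nlinarith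
        _ ≤ 16 * 16 ^ j := Nat.mul_le_mul_left _ ih'
        _ = 16 ^ (j + 1) := by ring
  have h8' : (4 * j * (8 ^ j + 1) + (4 * j + 1) : ℝ) ≤ 16 ^ j := by exact_mod_cast h8
  have h9 : ((8 ^ j + 1 : ℕ) : ℝ) ≤ (Nat.primeCounting (16 ^ j) : ℝ) := by
    refine le_trans ?_ h5
    rw [le_div_iff₀ (by positivity)]
    push_cast
    nlinarith
  exact_mod_cast h9

lemma exists_L (j : ℕ) (hj : 5 ≤ j) : ∃ L : ℕ, Odd L ∧ Real.log L ≤ 2 * 16 ^ j ∧
    (2 : ℝ) ^ (2 ^ j) ≤ σ L := by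
  classical
  set S : Finset ℕ := ((range (16 ^ j + 1)).filter Nat.Prime).erase 2 with hS
  have hSp : ∀ p ∈ S, p.Prime ∧ p ≠ 2 ∧ p ≤ 16 ^ j := by
    intro p hp
    rw [hS, Finset.mem_erase, Finset.mem_filter, Finset.mem_range] at hp
    exact ⟨hp.2.2, hp.1, by omega⟩
  have hcard : 8 ^ j ≤ S.card := by
    have h1 := pi_large j hj
    have h2 : Nat.primeCounting (16 ^ j) = ((range (16 ^ j + 1)).filter Nat.Prime).card := by
      unfold Nat.primeCounting Nat.primeCounting'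
      rw [Nat.count_eq_card_filter_range]
    have h3 : 2 ∈ (range (16 ^ j + 1)).filter Nat.Prime := by
      rw [Finset.mem_filter, Finset.mem_range]
      refine ⟨?_, Nat.prime_two⟩
      have : 16 ≤ 16 ^ j := Nat.le_self_pow (by omega) 16
      omega
    have h4 := Finset.card_erase_of_mem h3
    rw [← hS] at h4
    omega
  refine ⟨∏ p ∈ S, p, ?_, ?_, ?_⟩
  · rw [Nat.odd_iff]
    have : ∀ T : Finset ℕ, (∀ p ∈ T, Odd p) → Odd (∏ p ∈ T, p) := by
      intro T hT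
      exact Finset.prod_induction _ Odd (fun a b => Odd.mul) odd_one hT
    exact Nat.odd_iff.mp (this S fun p hp => (hSp p hp).1.odd_of_ne_two (hSp p hp).2.1)
  · have h1 : ∏ p ∈ S, p ≤ 4 ^ (16 ^ j) := by
      refine le_trans ?_ (primorial_le_four_pow (16 ^ j))
      unfold primorial
      refine Finset.prod_le_prod_of_subset_of_one_le' (Finset.erase_subset _ _) ?_
      intro p hp _
      exact (Finset.mem_filter.mp hp).2.one_lt.le
    have h2 : ((∏ p ∈ S, p : ℕ) : ℝ) ≤ 4 ^ (16 ^ j) := by exact_mod_cast h1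
    have h3 : (0 : ℝ) < ((∏ p ∈ S, p : ℕ) : ℝ) := by
      exact_mod_cast Finset.prod_pos fun q hq => (hSp q hq).1.pos
    have h4 := Real.log_le_log h3 h2
    rw [Real.log_pow] at h4
    have h5 : Real.log 4 ≤ 2 := by
      rw [show (4 : ℝ) = 2 ^ 2 by norm_num, Real.log_pow]
      have := Real.log_two_lt_d9
      push_cast; linarith
    push_cast at h4 ⊢
    have h6 : (0 : ℝ) ≤ 16 ^ j := by positivity
    nlinarith
  · have h1 := σ_prod S ((4 : ℝ) ^ j) (by positivity) (by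
      intro p hp
      refine ⟨(hSp p hp).1, ?_⟩
      have h2 : (p : ℝ) ≤ ((4 : ℝ) ^ j) ^ 2 := by
        have h3 : p ≤ 16 ^ j := (hSp p hp).2.2
        have h4 : (p : ℝ) ≤ 16 ^ j := by exact_mod_cast h3
        have h5 : ((4 : ℝ) ^ j) ^ 2 = 16 ^ j := by
          rw [← pow_mul, mul_comm, pow_mul]; norm_num
        rw [h5]; exact h4
      rw [← Real.sqrt_sq (by positivity : (0:ℝ) ≤ (4 : ℝ) ^ j)]
      exact Real.sqrt_le_sqrt h2)
    refine le_trans ?_ h1
    have h2 : (2 : ℝ) ≤ (1 + 1 / (4 : ℝ) ^ j) ^ (4 ^ j) := by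
      have h3 := one_add_mul_le_pow (a := 1 / (4 : ℝ) ^ j) (by
        have : 0 ≤ 1 / (4 : ℝ) ^ j := by positivity
        linarith) (4 ^ j)
      refine le_trans ?_ h3
      push_cast
      rw [mul_one_div_cancel (by positivity)]
      norm_num
    calc (2 : ℝ) ^ (2 ^ j) ≤ ((1 + 1 / (4 : ℝ) ^ j) ^ (4 ^ j)) ^ (2 ^ j) :=
          pow_le_pow_left₀ (by norm_num) h2 _
      _ = (1 + 1 / (4 : ℝ) ^ j) ^ (8 ^ j) := by
          rw [← pow_mul, ← mul_pow]; norm_num
      _ ≤ (1 + 1 / (4 : ℝ) ^ j) ^ S.card :=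
          pow_le_pow_right₀ (by
            have : 0 ≤ 1 / (4 : ℝ) ^ j := by positivity
            linarith) hcard

lemma σ_le (L : ℕ) : σ L ≤ L := by
  unfold σ
  have h1 : ∀ n ∈ L.divisors, 1 / √(n : ℝ) ≤ 1 := by
    intro n hn
    have h2 : 1 ≤ n := Nat.pos_of_mem_divisors hn
    have h3 : (1 : ℝ) ≤ √(n : ℝ) := Real.one_le_sqrt.mpr (by exact_mod_cast h2)
    exact (div_le_one (by linarith)).mpr h3
  refine (Finset.sum_le_sum h1).trans ?_
  rw [Finset.sum_const, nsmul_eq_mul, mul_one]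
  exact_mod_cast Nat.card_divisors_le_self L

lemma sq_le_two_pow (j : ℕ) (hj : 4 ≤ j) : j ^ 2 ≤ 2 ^ j := by
  induction j, hj using Nat.le_induction with
  | base => norm_num
  | succ j hj ih => rw [pow_succ 2 j]; nlinarith

/-- the main disproof -/
theorem main (k : ℝ) (hk : 0 < k) (C M : ℝ) : ∃ x : ℝ, M ≤ |x| ∧ ∃ S : ℝ,
    Filter.Tendsto (P x) Filter.atTop (nhds S) ∧ C * (Real.log |x|) ^ k < |S| := by
  obtain ⟨a, ha⟩ := exists_nat_ge k
  obtain ⟨b, hb⟩ := exists_nat_ge (|C|)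
  obtain ⟨b', hb'⟩ := exists_nat_ge M
  obtain ⟨j, hj⟩ : ∃ j : ℕ, j = 9 * a + b + b' + 20 := ⟨_, rfl⟩
  have hj5 : 5 ≤ j := by omega
  obtain ⟨L, hLodd, hLlog, hLσ⟩ := exists_L j hj5
  obtain ⟨x, hx1, hx2, hx3⟩ := large L hLodd
  have hjR : (20 : ℝ) ≤ j := by
    have : 20 ≤ j := by omega
    exact_mod_cast this
  -- size of 2^(2^j)
  have h2j : 9 * a * j + (b + b' + 20) * j ≤ 2 ^ j := by
    have h := sq_le_two_pow j (by omega)
    have h' : j ^ 2 = 9 * a * j + (b + b' + 20) * j := by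
      rw [sq]; nth_rewrite 1 [hj]; ring
    omega
  have hLbig : (2 : ℝ) ^ (2 ^ j) ≤ L := hLσ.trans (σ_le L)
  have hpow1 : (b' + b + 20 : ℝ) * 4 ≤ (2 : ℝ) ^ (2 ^ j) := by
    have h1 : b' + b + 20 < 2 ^ (b' + b + 20) := Nat.lt_two_pow_self
    have h3 : (b' + b + 20) * 4 ≤ 2 ^ (b' + b + 22) := by
      have : 2 ^ (b' + b + 22) = 2 ^ (b' + b + 20) * 4 := by rw [show b' + b + 22 = b' + b + 20 + 2 by ring, pow_add]; norm_num
      omega
    have h4 : b' + b + 22 ≤ 2 ^ j := by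
      have h5 : (b + b' + 20) * j ≤ 2 ^ j := by omega
      have h6 : (b + b' + 20) * 20 ≤ (b + b' + 20) * j := Nat.mul_le_mul_left _ (by omega)
      omega
    have h7 : (b' + b + 20) * 4 ≤ 2 ^ (2 ^ j) := h3.trans (Nat.pow_le_pow_right (by norm_num) h4)
    exact_mod_cast h7
  have hxM : M ≤ x ∧ 3 ≤ x := by
    have h0 : (0 : ℝ) ≤ b := Nat.cast_nonneg b
    have h0' : (0 : ℝ) ≤ b' := Nat.cast_nonneg b'
    constructor <;> linarith
  have hx0 : 0 ≤ x := by linarith [hxM.2]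
  obtain ⟨S, hS⟩ := conv x hx0
  refine ⟨x, ?_, S, hS, ?_⟩
  · rw [abs_of_nonneg hx0]; exact hxM.1
  rw [abs_of_nonneg hx0]
  have hS1 := hx3 S hS
  have hσ0 := σ_pos L
  have hsqrt2 : 1 ≤ √2 := Real.one_le_sqrt.mpr (by norm_num)
  have hS2 : (2 : ℝ) ^ (2 ^ j) - 85 ≤ S := by
    have h1 : 1 * σ L ≤ √2 * σ L := mul_le_mul_of_nonneg_right hsqrt2 hσ0
    linarith
  have hL1 : (1 : ℝ) ≤ L := by exact_mod_cast hLodd.pos
  -- bound of the log
  have hlogx : Real.log x ≤ 2 ^ (4 * j + 5) := by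
    have h1 : Real.log x ≤ Real.log (6 * (L : ℝ) ^ 9) := Real.log_le_log (by linarith [hxM.2]) hx2
    rw [Real.log_mul (by norm_num) (by positivity), Real.log_pow] at h1
    have h6 : Real.log 6 ≤ 2 := by
      have h7 : Real.log 6 ≤ Real.log (2 ^ 2 * 2) := Real.log_le_log (by norm_num) (by norm_num)
      have h8 : Real.log (2 ^ 2 * 2) = 3 * Real.log 2 := by
        rw [show (2 : ℝ) ^ 2 * 2 = 2 ^ 3 by norm_num, Real.log_pow]; push_cast; ring
      have h9 := Real.log_two_lt_d9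
      have h10 : Real.log 6 ≤ 2.08 := by rw [h8] at h7; linarith
      have h11 : (2.08 : ℝ) ≤ 2 + 0.08 := by norm_num
      -- improve by a direct estimate
      have h12 : Real.log 6 ≤ 2 := by
        rw [show (2 : ℝ) = Real.log (Real.exp 2) by rw [Real.log_exp]]
        apply Real.log_le_log (by norm_num)
        have h13 : (2.7182818283 : ℝ) < Real.exp 1 := Real.exp_one_gt_d9
        have h14 : Real.exp 2 = Real.exp 1 * Real.exp 1 := by rw [← Real.exp_add]; norm_num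
        rw [h14]; nlinarith
      exact h12
    have h7 : (2 : ℝ) ^ (4 * j + 5) = 32 * 16 ^ j := by
      rw [pow_add, pow_mul]; norm_num; ring
    rw [h7]
    have h8 : (1 : ℝ) ≤ 16 ^ j := one_le_pow₀ (by norm_num)
    push_cast at h1
    linarith
  have hlog0 : 0 ≤ Real.log x := Real.log_nonneg (by linarith [hxM.2])
  have hlog1 : 1 ≤ Real.log x := by
    rw [← Real.log_exp 1]
    apply Real.log_le_log (Real.exp_pos 1)
    have := Real.exp_one_lt_d9
    linarith [hxM.2]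
  have h1 : (Real.log x) ^ k ≤ (2 : ℝ) ^ ((4 * j + 5) * a) := by
    calc (Real.log x) ^ k ≤ (Real.log x) ^ (a : ℝ) :=
          Real.rpow_le_rpow_of_exponent_le hlog1 ha
      _ = (Real.log x) ^ a := Real.rpow_natCast _ _
      _ ≤ ((2 : ℝ) ^ (4 * j + 5)) ^ a := pow_le_pow_left₀ hlog0 hlogx _
      _ = _ := by rw [← pow_mul]
  have h2 : C * (Real.log x) ^ k ≤ (2 : ℝ) ^ b * (2 : ℝ) ^ ((4 * j + 5) * a) := by
    have h3 : |C| ≤ (2 : ℝ) ^ b := by
      refine hb.trans ?_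
      exact_mod_cast (Nat.lt_two_pow_self (n := b)).le
    have h4 : 0 ≤ (Real.log x) ^ k := by positivity
    calc C * (Real.log x) ^ k ≤ |C| * (Real.log x) ^ k :=
          mul_le_mul_of_nonneg_right (le_abs_self C) h4
      _ ≤ (2 : ℝ) ^ b * (2 : ℝ) ^ ((4 * j + 5) * a) :=
          mul_le_mul h3 h1 h4 (by positivity)
  have h3 : (2 : ℝ) ^ b * (2 : ℝ) ^ ((4 * j + 5) * a) + 85 < (2 : ℝ) ^ (2 ^ j) := by
    have h4 : b + (4 * j + 5) * a + 8 ≤ 2 ^ j := by
      have h5 : (4 * j + 5) * a ≤ 9 * a * j := by nlinarith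
      have h6 : (b + b' + 20) * 1 ≤ (b + b' + 20) * j := Nat.mul_le_mul_left _ (by omega)
      omega
    have h5 : (2 : ℝ) ^ (b + (4 * j + 5) * a + 8) ≤ (2 : ℝ) ^ (2 ^ j) :=
      pow_le_pow_right₀ (by norm_num) h4
    have h6 : (2 : ℝ) ^ (b + (4 * j + 5) * a + 8)
        = 256 * ((2 : ℝ) ^ b * (2 : ℝ) ^ ((4 * j + 5) * a)) := by
      rw [pow_add, pow_add]; norm_num; ring
    have h7 : (1 : ℝ) ≤ (2 : ℝ) ^ b * (2 : ℝ) ^ ((4 * j + 5) * a) := by
      rw [← pow_add]; exact one_le_pow₀ (by norm_num)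
    linarith
  have h4 : S ≤ |S| := le_abs_self S
  linarith

end Pool.Agent.V11310.CosSer
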