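import Mathlib

/-!
# Point sets with a hidden boundary mass (for MP_c36293 and MP_e1a649)

`n × n` grid in the unit square; the `s` last columns are removed and the `s n` removed points
are placed on the vertical line `x = (n-1)/n`, with ordinates `k / (2 s n)`, `k < s n`
(all points are distinct).
-/

set_option autoImplicit false

namespace Pool.Agent.V11310.Disc

open Finset MeasureTheory

/-- index type -/
abbrev Idx (n s : ℕ) := (Fin (n - s) × Fin n) ⊕ Fin (s * n)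

noncomputable def Q (n s : ℕ) : Idx n s → Fin 2 → ℝ
  | Sum.inl (i, j) => ![(i : ℝ) / n, (j : ℝ) / n]
  | Sum.inr k => ![((n : ℝ) - 1) / n, (k : ℝ) / (2 * (s * n : ℕ))]

noncomputable def e (n s : ℕ) (hs : s ≤ n) : Idx n s ≃ Fin (n * n) :=
  Fintype.equivFinOfCardEq (by
    simp only [Fintype.card_sum, Fintype.card_prod, Fintype.card_fin]
    rw [← Nat.add_mul, Nat.sub_add_cancel hs])

noncomputable def P (n s : ℕ) (hs : s ≤ n) : Fin (n * n) → Fin 2 → ℝ :=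
  fun i => Q n s ((e n s hs).symm i)

lemma P_mem (n s : ℕ) (hs : s ≤ n) (hn : 1 ≤ n) (hs1 : 1 ≤ s) :
    ∀ i j, 0 ≤ P n s hs i j ∧ P n s hs i j < 1 := by
  have hn0 : (0 : ℝ) < n := by exact_mod_cast hn
  have key : ∀ (q : Idx n s) (j : Fin 2), 0 ≤ Q n s q j ∧ Q n s q j < 1 := by
    intro q j
    rcases q with ⟨i, k⟩ | k
    · have hi : ((i : ℕ) : ℝ) < n := by
        have := i.2; exact_mod_cast (by omega : (i : ℕ) < n)
      have hk : ((k : ℕ) : ℝ) < n := by exact_mod_cast k.2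
      fin_cases j
      · change 0 ≤ (i : ℝ) / n ∧ (i : ℝ) / n < 1
        exact ⟨by positivity, (div_lt_one hn0).mpr hi⟩
      · change 0 ≤ (k : ℝ) / n ∧ (k : ℝ) / n < 1
        exact ⟨by positivity, (div_lt_one hn0).mpr hk⟩
    · have hn1 : (1 : ℝ) ≤ n := by exact_mod_cast hn
      have hsn : 1 ≤ s * n := Nat.one_le_iff_ne_zero.mpr (by positivity)
      have hk : ((k : ℕ) : ℝ) < (s * n : ℕ) := by exact_mod_cast k.2
      have hsn' : (0 : ℝ) < (s * n : ℕ) := by exact_mod_cast hsn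
      fin_cases j
      · change 0 ≤ ((n : ℝ) - 1) / n ∧ ((n : ℝ) - 1) / n < 1
        refine ⟨div_nonneg (by linarith) hn0.le, (div_lt_one hn0).mpr (by linarith)⟩
      · change 0 ≤ (k : ℝ) / (2 * (s * n : ℕ)) ∧ (k : ℝ) / (2 * (s * n : ℕ)) < 1
        exact ⟨by positivity, (div_lt_one (by positivity)).mpr (by linarith)⟩
  intro i j
  exact key _ j

/-- The points are pairwise distinct. -/
lemma P_inj (n s : ℕ) (hs : s ≤ n) (hn : 1 ≤ n) (hs1 : 1 ≤ s) :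
    Function.Injective (P n s hs) := by
  have hn0 : (0 : ℝ) < n := by exact_mod_cast hn
  have hsn : 1 ≤ s * n := Nat.one_le_iff_ne_zero.mpr (by positivity)
  have hsn' : (0 : ℝ) < (s * n : ℕ) := by exact_mod_cast hsn
  have key : Function.Injective (Q n s) := by
    intro q q' h
    have h0 := congrFun h 0
    have h1 := congrFun h 1
    rcases q with ⟨i, j⟩ | k <;> rcases q' with ⟨i', j'⟩ | k'
    · simp only [Q, Matrix.cons_val_zero, Matrix.cons_val_one] at h0 h1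
      rw [div_left_inj' hn0.ne'] at h0 h1
      have h0' : (i : ℕ) = i' := by exact_mod_cast h0
      have h1' : (j : ℕ) = j' := by exact_mod_cast h1
      rw [Fin.ext h0', Fin.ext h1']
    · exfalso
      simp only [Q, Matrix.cons_val_zero] at h0
      rw [div_left_inj' hn0.ne'] at h0
      have h2 : ((i : ℕ) : ℝ) + 1 = n := by linarith
      have h3 : (i : ℕ) + 1 = n := by exact_mod_cast h2
      have := i.2
      omega
    · exfalso
      simp only [Q, Matrix.cons_val_zero] at h0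
      rw [div_left_inj' hn0.ne'] at h0
      have h2 : ((i' : ℕ) : ℝ) + 1 = n := by linarith
      have h3 : (i' : ℕ) + 1 = n := by exact_mod_cast h2
      have := i'.2
      omega
    · change (k : ℝ) / (2 * (s * n : ℕ)) = (k' : ℝ) / (2 * (s * n : ℕ)) at h1
      rw [div_left_inj' (by positivity)] at h1
      have h1' : (k : ℕ) = k' := by exact_mod_cast h1
      rw [Fin.ext h1']
  exact key.comp (e n s hs).symm.injective

open Classical in
/-- number of `t < M` with `A t` -/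
noncomputable def cnt (M : ℕ) (A : ℕ → Prop) : ℕ := ((range M).filter A).card

lemma cnt_eq (M : ℕ) (A : ℕ → Prop) [DecidablePred A] : cnt M A = ((range M).filter A).card := by
  unfold cnt; congr

lemma cnt_le (M : ℕ) (A : ℕ → Prop) : cnt M A ≤ M := by
  classical
  rw [cnt_eq]
  exact (Finset.card_filter_le _ _).trans (by rw [Finset.card_range])

lemma cnt_congr (M : ℕ) (A B : ℕ → Prop) (h : ∀ t, A t ↔ B t) : cnt M A = cnt M B := by
  have : A = B := funext fun t => propext (h t)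
  rw [this]

/-- the counting lemma -/
lemma count (n s : ℕ) (hs : s ≤ n) (A B : ℝ → Prop) (φ : Fin (n * n) → Prop) [DecidablePred φ]
    (hφ : ∀ i, φ i ↔ A (P n s hs i 0) ∧ B (P n s hs i 1)) :
    (Finset.univ.filter φ).card
      = cnt (n - s) (fun t : ℕ => A ((t : ℝ) / n)) * cnt n (fun t : ℕ => B ((t : ℝ) / n))
        + cnt (s * n) (fun k : ℕ => A (((n : ℝ) - 1) / n) ∧
            B ((k : ℝ) / (2 * (s * n : ℕ)))) := by
  classical
  have h1 : (Finset.univ.filter φ).card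
      = (Finset.univ.filter (fun q : Idx n s => A (Q n s q 0) ∧ B (Q n s q 1))).card := by
    apply Finset.card_bij (fun i _ => (e n s hs).symm i)
    · intro i hi
      rw [Finset.mem_filter] at hi ⊢
      exact ⟨Finset.mem_univ _, (hφ i).mp hi.2⟩
    · intro i _ j _ h
      exact (e n s hs).symm.injective h
    · intro q hq
      refine ⟨(e n s hs) q, ?_, by simp⟩
      rw [Finset.mem_filter] at hq ⊢
      refine ⟨Finset.mem_univ _, ?_⟩
      rw [hφ]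
      unfold P
      rw [Equiv.symm_apply_apply]
      exact hq.2
  rw [h1, cnt_eq, cnt_eq, cnt_eq]
  rw [Finset.card_filter, Finset.card_filter, Finset.card_filter, Finset.card_filter,
    Fintype.sum_sum_type, Fintype.sum_prod_type]
  congr 1
  · rw [Finset.sum_mul_sum, ← Fin.sum_univ_eq_sum_range
      (fun i => ∑ j ∈ range n, (if A ((i : ℝ) / n) then 1 else 0) * (if B ((j : ℝ) / n) then 1 else 0))
      (n - s)]
    refine Finset.sum_congr rfl fun i _ => ?_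
    rw [← Fin.sum_univ_eq_sum_range
      (fun j => (if A ((i : ℝ) / n) then 1 else 0) * (if B ((j : ℝ) / n) then 1 else 0)) n]
    refine Finset.sum_congr rfl fun j _ => ?_
    simp only [Q, Matrix.cons_val_zero, Matrix.cons_val_one]
    by_cases hA : A ((i : ℝ) / n) <;> by_cases hB : B ((j : ℝ) / n) <;> simp [hA, hB]
  · rw [← Fin.sum_univ_eq_sum_range
      (fun k => if A (((n : ℝ) - 1) / n) ∧ B ((k : ℝ) / (2 * (s * n : ℕ))) then 1 else 0) (s * n)]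
    rfl

/-- one-dimensional count -/
lemma cI (M n : ℕ) (hn : 1 ≤ n) (u v : ℝ) :
    cnt M (fun t : ℕ => u ≤ (t : ℝ) / n ∧ (t : ℝ) / n < v)
      = min M ⌈(n : ℝ) * v⌉₊ - ⌈(n : ℝ) * u⌉₊ := by
  have hn0 : (0 : ℝ) < n := by exact_mod_cast hn
  rw [cnt_eq]
  have : (range M).filter (fun t : ℕ => u ≤ (t : ℝ) / n ∧ (t : ℝ) / n < v)
      = Ico ⌈(n : ℝ) * u⌉₊ (min M ⌈(n : ℝ) * v⌉₊) := by
    ext t
    rw [Finset.mem_filter, Finset.mem_range, Finset.mem_Ico, lt_min_iff, Nat.ceil_le,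
      Nat.lt_ceil, le_div_iff₀ hn0, div_lt_iff₀ hn0, mul_comm u, mul_comm v]
    tauto
  rw [this, Nat.card_Ico]

lemma cI_upper (M n : ℕ) (hn : 1 ≤ n) (u v : ℝ) (huv : u ≤ v) :
    (cnt M (fun t : ℕ => u ≤ (t : ℝ) / n ∧ (t : ℝ) / n < v) : ℝ)
      ≤ n * (v - u) + 1 := by
  rw [cI M n hn u v]
  have hn0 : (0 : ℝ) < n := by exact_mod_cast hn
  have h0 : 0 ≤ (n : ℝ) * (v - u) := mul_nonneg hn0.le (by linarith)
  rcases le_total (min M ⌈(n : ℝ) * v⌉₊) ⌈(n : ℝ) * u⌉₊ with h | h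
  · rw [Nat.sub_eq_zero_of_le h]; push_cast; linarith
  · rw [Nat.cast_sub h]
    rcases le_or_gt 0 ((n : ℝ) * v) with h1 | h1
    · have h2 : ((min M ⌈(n : ℝ) * v⌉₊ : ℕ) : ℝ) ≤ (⌈(n : ℝ) * v⌉₊ : ℝ) := by
        exact_mod_cast min_le_right _ _
      have h3 := Nat.ceil_lt_add_one h1
      have h4 := Nat.le_ceil ((n : ℝ) * u)
      nlinarith
    · have h2 : ⌈(n : ℝ) * v⌉₊ = 0 := Nat.ceil_eq_zero.mpr h1.le
      have h3 : min M ⌈(n : ℝ) * v⌉₊ = 0 := by rw [h2]; exact Nat.min_zero M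
      rw [h3]
      have : (0 : ℝ) ≤ (⌈(n : ℝ) * u⌉₊ : ℝ) := Nat.cast_nonneg _
      push_cast
      linarith

lemma cI_lower (M n : ℕ) (hn : 1 ≤ n) (u v r : ℝ) (hu : 0 ≤ u) (hr : 0 ≤ r)
    (hM : (n : ℝ) * v - r ≤ M) :
    n * (v - u) - 1 - r
      ≤ (cnt M (fun t : ℕ => u ≤ (t : ℝ) / n ∧ (t : ℝ) / n < v) : ℝ) := by
  rw [cI M n hn u v]
  have hn0 : (0 : ℝ) < n := by exact_mod_cast hn
  have h1 : ((min M ⌈(n : ℝ) * v⌉₊ : ℕ) : ℝ) - (⌈(n : ℝ) * u⌉₊ : ℝ)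
      ≤ ((min M ⌈(n : ℝ) * v⌉₊ - ⌈(n : ℝ) * u⌉₊ : ℕ) : ℝ) := by
    rcases le_total (min M ⌈(n : ℝ) * v⌉₊) ⌈(n : ℝ) * u⌉₊ with h | h
    · rw [Nat.sub_eq_zero_of_le h]
      have : ((min M ⌈(n : ℝ) * v⌉₊ : ℕ) : ℝ) ≤ (⌈(n : ℝ) * u⌉₊ : ℝ) := by exact_mod_cast h
      push_cast at this ⊢; linarith
    · rw [Nat.cast_sub h]
  refine le_trans ?_ h1
  have h2 : (n : ℝ) * v - r ≤ ((min M ⌈(n : ℝ) * v⌉₊ : ℕ) : ℝ) := by
    rcases min_choice M ⌈(n : ℝ) * v⌉₊ with h | h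
    · rw [h]; exact hM
    · rw [h]
      have := Nat.le_ceil ((n : ℝ) * v)
      linarith
  have h3 := Nat.ceil_lt_add_one (mul_nonneg hn0.le hu)
  nlinarith

/-- upper bound for the discrepancy of an ordinary box -/
lemma box_bound (n s : ℕ) (hs : s ≤ n) (hn : 1 ≤ n) (hs1 : 1 ≤ s) (u v : Fin 2 → ℝ)
    (hu0 : 0 ≤ u 0) (hu1 : 0 ≤ u 1) (h0 : u 0 ≤ v 0) (h1 : u 1 ≤ v 1) (hv0 : v 0 ≤ 1)
    (hv1 : v 1 ≤ 1) (φ : Fin (n * n) → Prop) [DecidablePred φ]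
    (hφ : ∀ i, φ i ↔ (u 0 ≤ P n s hs i 0 ∧ P n s hs i 0 < v 0) ∧
        (u 1 ≤ P n s hs i 1 ∧ P n s hs i 1 < v 1)) :
    |((Finset.univ.filter φ).card : ℝ)
      - ((n * n : ℕ) : ℝ) * ((v 0 - u 0) * (v 1 - u 1))|
      ≤ 2 * n + Set.indicator (Set.Ioi (1 - (s : ℝ) / n)) (fun _ => (s : ℝ) * n) (v 0) := by
  have hn0 : (0 : ℝ) < n := by exact_mod_cast hn
  have hs0 : (1 : ℝ) ≤ s := by exact_mod_cast hs1
  rw [count n s hs (fun x => u 0 ≤ x ∧ x < v 0) (fun x => u 1 ≤ x ∧ x < v 1) φ hφ]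
  have ha1 := cI_upper (n - s) n hn _ _ h0
  have hb1 := cI_upper n n hn _ _ h1
  have hb2 := cI_lower n n hn (u 1) (v 1) 0 hu1 le_rfl (by nlinarith)
  have hbn : (cnt n (fun t : ℕ => u 1 ≤ (t : ℝ) / n ∧ (t : ℝ) / n < v 1) : ℝ) ≤ n := by
    exact_mod_cast cnt_le _ _
  have hcn : (cnt (s * n) (fun k : ℕ => (u 0 ≤ ((n : ℝ) - 1) / n ∧
      ((n : ℝ) - 1) / n < v 0) ∧ (u 1 ≤ (k : ℝ) / (2 * (s * n : ℕ)) ∧
      (k : ℝ) / (2 * (s * n : ℕ)) < v 1)) : ℝ) ≤ (s : ℝ) * n := by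
    exact_mod_cast cnt_le _ _
  have hcast : ((n - s : ℕ) : ℝ) = n - s := by rw [Nat.cast_sub hs]
  have hA0 : 0 ≤ (n : ℝ) * (v 0 - u 0) := mul_nonneg hn0.le (by linarith)
  have hA1 : (n : ℝ) * (v 0 - u 0) ≤ n := by nlinarith
  have ha2 : (n : ℝ) * v 0 ≤ n - s →
      n * (v 0 - u 0) - 1 - 0 ≤ (cnt (n - s) (fun t : ℕ => u 0 ≤ (t : ℝ) / n ∧
        (t : ℝ) / n < v 0) : ℝ) := fun h =>
    cI_lower _ n hn _ _ 0 hu0 le_rfl (by rw [hcast]; linarith)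
  have ha3 : n * (v 0 - u 0) - 1 - s ≤ (cnt (n - s) (fun t : ℕ => u 0 ≤ (t : ℝ) / n ∧
        (t : ℝ) / n < v 0) : ℝ) :=
      cI_lower _ n hn _ _ s hu0 (by linarith) (by rw [hcast]; nlinarith)
  have hc00 : (n : ℝ) * v 0 ≤ n - s → cnt (s * n) (fun k : ℕ => (u 0 ≤ ((n : ℝ) - 1) / n ∧
      ((n : ℝ) - 1) / n < v 0) ∧ (u 1 ≤ (k : ℝ) / (2 * (s * n : ℕ)) ∧
      (k : ℝ) / (2 * (s * n : ℕ)) < v 1)) = 0 := by
    intro hcase'
    classical
    rw [cnt_eq, Finset.card_eq_zero, Finset.filter_eq_empty_iff]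
    rintro k - ⟨⟨-, h⟩, -⟩
    rw [div_lt_iff₀ hn0] at h
    nlinarith
  generalize cnt (n - s) (fun t : ℕ => u 0 ≤ (t : ℝ) / n ∧ (t : ℝ) / n < v 0) = a at *
  generalize cnt n (fun t : ℕ => u 1 ≤ (t : ℝ) / n ∧ (t : ℝ) / n < v 1) = b at *
  generalize cnt (s * n) (fun k : ℕ => (u 0 ≤ ((n : ℝ) - 1) / n ∧
      ((n : ℝ) - 1) / n < v 0) ∧ (u 1 ≤ (k : ℝ) / (2 * (s * n : ℕ)) ∧
      (k : ℝ) / (2 * (s * n : ℕ)) < v 1)) = c at *
  have hc0 : (0 : ℝ) ≤ c := Nat.cast_nonneg _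
  have hb0 : (0 : ℝ) ≤ b := Nat.cast_nonneg _
  have hsplit : ((a * b + c : ℕ) : ℝ) - ((n * n : ℕ) : ℝ) * ((v 0 - u 0) * (v 1 - u 1))
      = (a - n * (v 0 - u 0)) * b + (n * (v 0 - u 0)) * (b - n * (v 1 - u 1)) + c := by
    push_cast; ring
  rw [hsplit]
  by_cases hcase : (1 : ℝ) - (s : ℝ) / n < v 0
  · rw [Set.indicator_of_mem (Set.mem_Ioi.mpr hcase), abs_le]
    constructor
    · nlinarith [mul_nonneg hb0 (by linarith : (0:ℝ) ≤ (a : ℝ) - (n * (v 0 - u 0) - 1 - s)),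
        mul_nonneg hA0 (by linarith : (0:ℝ) ≤ (b : ℝ) - (n * (v 1 - u 1) - 1 - 0)),
        mul_nonneg (by linarith : (0:ℝ) ≤ 1 + (s:ℝ)) (by linarith : (0:ℝ) ≤ (n:ℝ) - b)]
    · nlinarith [mul_nonneg hb0 (by linarith : (0:ℝ) ≤ (n * (v 0 - u 0) + 1) - (a : ℝ)),
        mul_nonneg hA0 (by linarith : (0:ℝ) ≤ (n * (v 1 - u 1) + 1) - (b : ℝ))]
  · rw [Set.indicator_of_notMem (fun h => hcase (Set.mem_Ioi.mp h))]
    push Not at hcase
    have hcase' : (n : ℝ) * v 0 ≤ n - s := by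
      have := mul_le_mul_of_nonneg_left hcase hn0.le
      have h2 : (n : ℝ) * (1 - (s : ℝ) / n) = n - s := by field_simp
      linarith
    have ha2' := ha2 hcase'
    rw [hc00 hcase']
    rw [abs_le]
    push_cast
    constructor
    · nlinarith [mul_nonneg hb0 (by linarith : (0:ℝ) ≤ (a : ℝ) - (n * (v 0 - u 0) - 1 - 0)),
        mul_nonneg hA0 (by linarith : (0:ℝ) ≤ (b : ℝ) - (n * (v 1 - u 1) - 1 - 0))]
    · nlinarith [mul_nonneg hb0 (by linarith : (0:ℝ) ≤ (n * (v 0 - u 0) + 1) - (a : ℝ)),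
        mul_nonneg hA0 (by linarith : (0:ℝ) ≤ (n * (v 1 - u 1) + 1) - (b : ℝ))]

/-- lower bound for the discrepancy of some periodic boxes -/
lemma per_bound (n s : ℕ) (hs : 4 * s ≤ n) (hs' : s ≤ n) (hn : 16 ≤ n) (hs1 : 1 ≤ s)
    (x y : Fin 2 → ℝ)
    (hx0 : 1 / 2 ≤ x 0) (hx0' : x 0 ≤ 3 / 4) (hy0 : 1 / 4 ≤ y 0) (hy0' : y 0 ≤ 3 / 8)
    (hx1 : 0 ≤ x 1) (hx1' : x 1 ≤ 1 / 8) (hy1 : 3 / 8 ≤ y 1) (hy1' : y 1 ≤ 1 / 2)
    (φ : Fin (n * n) → Prop) [DecidablePred φ]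
    (hφ : ∀ i, φ i ↔ (P n s hs' i 0 < y 0 ∨ x 0 ≤ P n s hs' i 0) ∧
        (x 1 ≤ P n s hs' i 1 ∧ P n s hs' i 1 < y 1)) :
    (s : ℝ) * n / 4 - 2 * n ≤
    ((Finset.univ.filter φ).card : ℝ)
      - ((n * n : ℕ) : ℝ) * ((1 - x 0 + y 0) * (y 1 - x 1)) := by
  have hn1 : 1 ≤ n := by omega
  have hn0 : (16 : ℝ) ≤ n := by exact_mod_cast hn
  have hn00 : (0 : ℝ) < n := by linarith
  have hs0 : (1 : ℝ) ≤ s := by exact_mod_cast hs1
  have hs4 : 4 * (s : ℝ) ≤ n := by exact_mod_cast hs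
  have hcast : ((n - s : ℕ) : ℝ) = n - s := by rw [Nat.cast_sub hs']
  rw [count n s hs' (fun z => z < y 0 ∨ x 0 ≤ z) (fun z => x 1 ≤ z ∧ z < y 1) φ hφ]
  have hb2 : n * (y 1 - x 1) - 1 - 0 ≤
      (cnt n (fun t : ℕ => x 1 ≤ (t : ℝ) / n ∧ (t : ℝ) / n < y 1) : ℝ) :=
    cI_lower n n hn1 _ _ 0 hx1 le_rfl (by nlinarith)
  have hc2 : 2 * ((s : ℝ) * n) * (y 1 - x 1) - 1 ≤
      (cnt (s * n) (fun k : ℕ => (((n : ℝ) - 1) / n < y 0 ∨
      x 0 ≤ ((n : ℝ) - 1) / n) ∧ (x 1 ≤ (k : ℝ) / (2 * (s * n : ℕ)) ∧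
      (k : ℝ) / (2 * (s * n : ℕ)) < y 1)) : ℝ) := by
    have hsn : 1 ≤ 2 * (s * n) := by
      have : 1 ≤ s * n := Nat.one_le_iff_ne_zero.mpr (by positivity)
      omega
    have h1 := cI_lower (s * n) (2 * (s * n)) hsn (x 1) (y 1) 0 hx1 le_rfl (by
      push_cast
      have h2 : 0 ≤ (s : ℝ) * n := by positivity
      nlinarith)
    have h2 := cnt_congr (s * n) (fun k : ℕ => (((n : ℝ) - 1) / n < y 0 ∨
      x 0 ≤ ((n : ℝ) - 1) / n) ∧ (x 1 ≤ (k : ℝ) / (2 * (s * n : ℕ)) ∧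
      (k : ℝ) / (2 * (s * n : ℕ)) < y 1))
      (fun t : ℕ => x 1 ≤ (t : ℝ) / ((2 * (s * n) : ℕ) : ℝ) ∧
        (t : ℝ) / ((2 * (s * n) : ℕ) : ℝ) < y 1) (by
      intro k
      have h3 : x 0 ≤ ((n : ℝ) - 1) / n := by
        rw [le_div_iff₀ hn00]; nlinarith
      have h4 : ((2 * (s * n) : ℕ) : ℝ) = 2 * ((s * n : ℕ) : ℝ) := by push_cast; ring
      rw [h4]
      constructor
      · rintro ⟨-, h⟩; exact h
      · intro h; exact ⟨Or.inr h3, h⟩)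
    rw [h2]
    push_cast at h1 ⊢
    linarith
  have ha2 : n * (1 - x 0 + y 0) - s - 1 ≤
      (cnt (n - s) (fun t : ℕ => (t : ℝ) / n < y 0 ∨ x 0 ≤ (t : ℝ) / n) : ℝ) := by
    classical
    rw [cnt_eq]
    have hdisj : ((range (n - s)).filter (fun t : ℕ => (t : ℝ) / n < y 0 ∨ x 0 ≤ (t : ℝ) / n))
        = ((range (n - s)).filter (fun t : ℕ => (t : ℝ) / n < y 0))
          ∪ ((range (n - s)).filter (fun t : ℕ => x 0 ≤ (t : ℝ) / n)) := by
      rw [← Finset.filter_or]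
    have hd : Disjoint ((range (n - s)).filter (fun t : ℕ => (t : ℝ) / n < y 0))
        ((range (n - s)).filter (fun t : ℕ => x 0 ≤ (t : ℝ) / n)) := by
      rw [Finset.disjoint_filter]
      intro t _ h1 h2
      linarith
    rw [hdisj, Finset.card_union_of_disjoint hd]
    have h1 : (n : ℝ) * y 0 ≤ (((range (n - s)).filter (fun t : ℕ => (t : ℝ) / n < y 0)).card : ℝ) := by
      have hsub : range ⌈(n : ℝ) * y 0⌉₊
          ⊆ (range (n - s)).filter (fun t : ℕ => (t : ℝ) / n < y 0) := by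
        intro t ht
        rw [Finset.mem_range, Nat.lt_ceil] at ht
        rw [Finset.mem_filter, Finset.mem_range, div_lt_iff₀ hn00]
        refine ⟨?_, by linarith⟩
        have : (t : ℝ) < ((n - s : ℕ) : ℝ) := by rw [hcast]; nlinarith
        exact_mod_cast this
      have h2 := Finset.card_le_card hsub
      rw [Finset.card_range] at h2
      exact (Nat.le_ceil _).trans (by exact_mod_cast h2)
    have h2 : (n : ℝ) - s - n * x 0 - 1
        ≤ (((range (n - s)).filter (fun t : ℕ => x 0 ≤ (t : ℝ) / n)).card : ℝ) := by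
      have hsub : Ico ⌈(n : ℝ) * x 0⌉₊ (n - s)
          ⊆ (range (n - s)).filter (fun t : ℕ => x 0 ≤ (t : ℝ) / n) := by
        intro t ht
        rw [Finset.mem_Ico, Nat.ceil_le] at ht
        rw [Finset.mem_filter, Finset.mem_range, le_div_iff₀ hn00]
        exact ⟨ht.2, by linarith [ht.1]⟩
      have h3 := Finset.card_le_card hsub
      rw [Nat.card_Ico] at h3
      have h4 : ((n - s : ℕ) : ℝ) - (⌈(n : ℝ) * x 0⌉₊ : ℝ)
          ≤ ((n - s - ⌈(n : ℝ) * x 0⌉₊ : ℕ) : ℝ) := by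
        rcases le_total (n - s) ⌈(n : ℝ) * x 0⌉₊ with h | h
        · rw [Nat.sub_eq_zero_of_le h]
          have : ((n - s : ℕ) : ℝ) ≤ (⌈(n : ℝ) * x 0⌉₊ : ℝ) := by exact_mod_cast h
          push_cast; linarith
        · rw [Nat.cast_sub h]
      have h5 : ((n - s - ⌈(n : ℝ) * x 0⌉₊ : ℕ) : ℝ)
          ≤ (((range (n - s)).filter (fun t : ℕ => x 0 ≤ (t : ℝ) / n)).card : ℝ) := by
        exact_mod_cast h3
      have h6 := Nat.ceil_lt_add_one (by nlinarith : (0:ℝ) ≤ (n : ℝ) * x 0)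
      rw [hcast] at h4
      linarith
    push_cast
    linarith
  generalize cnt (n - s) (fun t : ℕ => (t : ℝ) / n < y 0 ∨ x 0 ≤ (t : ℝ) / n) = a at *
  generalize cnt n (fun t : ℕ => x 1 ≤ (t : ℝ) / n ∧ (t : ℝ) / n < y 1) = b at *
  generalize cnt (s * n) (fun k : ℕ => (((n : ℝ) - 1) / n < y 0 ∨
      x 0 ≤ ((n : ℝ) - 1) / n) ∧ (x 1 ≤ (k : ℝ) / (2 * (s * n : ℕ)) ∧
      (k : ℝ) / (2 * (s * n : ℕ)) < y 1)) = c at *
  have hw1 : 0 ≤ n * (1 - x 0 + y 0) - s - 1 := by nlinarith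
  have hw2 : 0 ≤ n * (y 1 - x 1) - 1 := by nlinarith
  have hab : (n * (1 - x 0 + y 0) - s - 1) * (n * (y 1 - x 1) - 1) ≤ (a : ℝ) * b :=
    mul_le_mul ha2 (by linarith) hw2 (Nat.cast_nonneg _)
  have h1 : (n : ℝ) * (1 - x 0 + y 0) ≤ n := by nlinarith
  have h2 : (n : ℝ) * (y 1 - x 1) ≤ n := by nlinarith
  have h3 : (s : ℝ) * n * (1 / 4) ≤ (s : ℝ) * n * (y 1 - x 1) :=
    mul_le_mul_of_nonneg_left (by linarith) (by positivity)
  have h4 : (n * (1 - x 0 + y 0) - s - 1) * (n * (y 1 - x 1) - 1)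
      = (n : ℝ) * n * ((1 - x 0 + y 0) * (y 1 - x 1)) - n * (1 - x 0 + y 0)
        - (s * n * (y 1 - x 1) + n * (y 1 - x 1)) + (s + 1) := by ring
  push_cast
  linarith

end Pool.Agent.V11310.Disc
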