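import Pool.Agent.V11310.Disc

set_option autoImplicit false

namespace Pool.Agent.V11310.Disc

open Finset MeasureTheory

abbrev Z : Set (Fin 2 → ℝ) := Set.Icc (0 : Fin 2 → ℝ) 1

lemma vol_box (a b : Fin 2 → ℝ) (h : a ≤ b) :
    (volume (Set.Icc a b)).toReal = (b 0 - a 0) * (b 1 - a 1) := by
  rw [Real.volume_Icc_pi_toReal h, Fin.prod_univ_two]

lemma vol_box_lt (a b : Fin 2 → ℝ) : volume (Set.Icc a b) < ⊤ :=
  isCompact_Icc.measure_lt_top

lemma vol_Z : (volume Z).toReal = 1 := by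
  rw [vol_box _ _ (by intro i; simp)]; simp

/-- the majorant -/
noncomputable def g (n s : ℕ) (y : Fin 2 → ℝ) : ℝ :=
  2 * n + Set.indicator (Set.Ioi (1 - (s : ℝ) / n)) (fun _ => (s : ℝ) * n) (y 0)

lemma g_eq (n s : ℕ) (y : Fin 2 → ℝ) : g n s y
    = 2 * n + Set.indicator {y : Fin 2 → ℝ | 1 - (s : ℝ) / n < y 0} (fun _ => (s : ℝ) * n) y := by
  unfold g
  congr 1

lemma meas_set (n s : ℕ) : MeasurableSet {y : Fin 2 → ℝ | 1 - (s : ℝ) / n < y 0} :=
  measurableSet_lt measurable_const (measurable_pi_apply 0)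

lemma g_int (n s : ℕ) : IntegrableOn (g n s) Z := by
  have h1 : IntegrableOn (fun _ : Fin 2 → ℝ => (2 * n : ℝ)) Z :=
    integrableOn_const (vol_box_lt _ _).ne
  have h2 : IntegrableOn (Set.indicator {y : Fin 2 → ℝ | 1 - (s : ℝ) / n < y 0}
      (fun _ => (s : ℝ) * n)) Z := by
    apply Integrable.indicator _ (meas_set n s)
    exact integrableOn_const (vol_box_lt _ _).ne
  have h3 := h1.add h2
  refine h3.congr (Filter.Eventually.of_forall fun y => ?_)
  simp only [Pi.add_apply]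
  rw [g_eq]

lemma g_integral (n s : ℕ) (hn : 1 ≤ n) (hs : s ≤ n) : ∫ y in Z, g n s y ≤ 2 * n + s * s := by
  have hn0 : (0 : ℝ) < n := by exact_mod_cast hn
  have hsn : (s : ℝ) ≤ n := by exact_mod_cast hs
  have hs0 : (0 : ℝ) ≤ s := Nat.cast_nonneg _
  have h1 : ∫ y in Z, g n s y = ∫ y in Z, ((2 * n : ℝ) +
      Set.indicator {y : Fin 2 → ℝ | 1 - (s : ℝ) / n < y 0} (fun _ => (s : ℝ) * n) y) := by
    refine integral_congr_ae (Filter.Eventually.of_forall fun y => ?_)
    exact g_eq n s y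
  have hi1 : Integrable (fun _ : Fin 2 → ℝ => (2 * n : ℝ)) (volume.restrict Z) :=
    integrableOn_const (vol_box_lt _ _).ne
  have hi2 : Integrable (Set.indicator {y : Fin 2 → ℝ | 1 - (s : ℝ) / n < y 0}
      (fun _ => (s : ℝ) * n)) (volume.restrict Z) :=
    Integrable.indicator (integrableOn_const (vol_box_lt _ _).ne) (meas_set n s)
  rw [h1, integral_add hi1 hi2, setIntegral_const, integral_indicator (meas_set n s), Measure.restrict_restrict (meas_set n s),
    setIntegral_const]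
  have h2 : (volume.real Z) = 1 := vol_Z
  rw [h2]
  have h3 : volume.real ({y : Fin 2 → ℝ | 1 - (s : ℝ) / n < y 0} ∩ Z) ≤ (s : ℝ) / n := by
    have hsub : {y : Fin 2 → ℝ | 1 - (s : ℝ) / n < y 0} ∩ Z
        ⊆ Set.Icc ![1 - (s : ℝ) / n, 0] (1 : Fin 2 → ℝ) := by
      rintro y ⟨hy, hy2⟩
      refine ⟨?_, hy2.2⟩
      intro i
      fin_cases i
      · exact le_of_lt hy
      · exact hy2.1 1
    have hle : (![1 - (s : ℝ) / n, 0] : Fin 2 → ℝ) ≤ 1 := by
      intro i
      fin_cases i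
      · change 1 - (s : ℝ) / n ≤ 1
        have : 0 ≤ (s : ℝ) / n := by positivity
        linarith
      · change (0 : ℝ) ≤ 1
        norm_num
    have h4 := measureReal_mono hsub (vol_box_lt _ _).ne
    refine h4.trans (le_of_eq ?_)
    have h5 := vol_box _ _ hle
    change (volume (Set.Icc ![1 - (s : ℝ) / n, 0] (1 : Fin 2 → ℝ))).toReal = _
    rw [h5]
    simp
  have h4 : (s : ℝ) * n * ((s : ℝ) / n) = s * s := by field_simp
  simp only [smul_eq_mul]
  have h5 := mul_le_mul_of_nonneg_right h3 (by positivity : (0:ℝ) ≤ (s : ℝ) * n)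
  linarith

/-- double integral upper bound -/
lemma upper2 (n s : ℕ) (hn : 1 ≤ n) (hs : s ≤ n) (f : (Fin 2 → ℝ) → (Fin 2 → ℝ) → ℝ)
    (h0 : ∀ x y, 0 ≤ f x y) (h : ∀ x ∈ Z, ∀ y ∈ Z, f x y ≤ g n s y) :
    ∫ x in Z, ∫ y in Z, f x y ≤ 2 * n + s * s := by
  have h1 : ∀ x ∈ Z, ∫ y in Z, f x y ≤ 2 * n + s * s := by
    intro x hx
    refine le_trans ?_ (g_integral n s hn hs)
    refine integral_mono_of_nonneg (Filter.Eventually.of_forall fun y => h0 x y) (g_int n s) ?_
    exact (ae_restrict_iff' measurableSet_Icc).mpr (Filter.Eventually.of_forall fun y hy => h x hx y hy)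
  have h2 : ∫ x in Z, (2 * n + s * s : ℝ) = 2 * n + s * s := by
    rw [setIntegral_const]
    have h2 : (volume.real Z) = 1 := vol_Z
    rw [h2]; simp
  refine le_trans ?_ h2.le
  refine integral_mono_of_nonneg
    (Filter.Eventually.of_forall fun x => integral_nonneg fun y => h0 x y)
    (integrableOn_const (vol_box_lt _ _).ne) ?_
  exact (ae_restrict_iff' measurableSet_Icc).mpr (Filter.Eventually.of_forall fun x hx => h1 x hx)

lemma upper1 (n s : ℕ) (hn : 1 ≤ n) (hs : s ≤ n) (f : (Fin 2 → ℝ) → ℝ)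
    (h0 : ∀ y, 0 ≤ f y) (h : ∀ y ∈ Z, f y ≤ g n s y) :
    ∫ y in Z, f y ≤ 2 * n + s * s := by
  refine le_trans ?_ (g_integral n s hn hs)
  refine integral_mono_of_nonneg (Filter.Eventually.of_forall fun y => h0 y) (g_int n s) ?_
  exact (ae_restrict_iff' measurableSet_Icc).mpr (Filter.Eventually.of_forall fun y hy => h y hy)

/-- double integral lower bound -/
lemma lower2 (f : (Fin 2 → ℝ) → (Fin 2 → ℝ) → ℝ) (hm : Measurable (Function.uncurry f))
    (K c : ℝ)
    (h0 : ∀ x y, 0 ≤ f x y) (hK : ∀ x ∈ Z, ∀ y ∈ Z, f x y ≤ K)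
    (h : ∀ x y : Fin 2 → ℝ, 1 / 2 ≤ x 0 → x 0 ≤ 3 / 4 → 1 / 4 ≤ y 0 → y 0 ≤ 3 / 8 → 0 ≤ x 1 →
      x 1 ≤ 1 / 8 → 3 / 8 ≤ y 1 → y 1 ≤ 1 / 2 → c ≤ f x y) :
    c / 2048 ≤ ∫ x in Z, ∫ y in Z, f x y := by
  set R1 : Set (Fin 2 → ℝ) := Set.Icc ![1 / 2, 0] ![3 / 4, 1 / 8] with hR1
  set R2 : Set (Fin 2 → ℝ) := Set.Icc ![1 / 4, 3 / 8] ![3 / 8, 1 / 2] with hR2
  have hR1Z : R1 ⊆ Z := by
    rintro x ⟨hx1, hx2⟩
    constructor
    · intro i
      fin_cases i
      · have := hx1 0; change (1:ℝ)/2 ≤ x 0 at this; change (0:ℝ) ≤ x 0; linarith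
      · have := hx1 1; change (0:ℝ) ≤ x 1 at this; exact this
    · intro i
      fin_cases i
      · have := hx2 0; change x 0 ≤ (3:ℝ)/4 at this; change x 0 ≤ (1:ℝ); linarith
      · have := hx2 1; change x 1 ≤ (1:ℝ)/8 at this; change x 1 ≤ (1:ℝ); linarith
  have hR2Z : R2 ⊆ Z := by
    rintro x ⟨hx1, hx2⟩
    constructor
    · intro i
      fin_cases i
      · have := hx1 0; change (1:ℝ)/4 ≤ x 0 at this; change (0:ℝ) ≤ x 0; linarith
      · have := hx1 1; change (3:ℝ)/8 ≤ x 1 at this; change (0:ℝ) ≤ x 1; linarith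
    · intro i
      fin_cases i
      · have := hx2 0; change x 0 ≤ (3:ℝ)/8 at this; change x 0 ≤ (1:ℝ); linarith
      · have := hx2 1; change x 1 ≤ (1:ℝ)/2 at this; change x 1 ≤ (1:ℝ); linarith
  have hv1 : volume.real R1 = 1 / 32 := by
    change (volume R1).toReal = _
    rw [hR1, vol_box _ _ (by intro i; fin_cases i <;> simp <;> norm_num)]
    simp; norm_num
  have hv2 : volume.real R2 = 1 / 64 := by
    change (volume R2).toReal = _
    rw [hR2, vol_box _ _ (by intro i; fin_cases i <;> simp <;> norm_num)]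
    simp; norm_num
  have hmx : ∀ x, Measurable (f x) := fun x => hm.comp (measurable_const.prodMk measurable_id)
  have hint : ∀ x ∈ Z, IntegrableOn (f x) Z := by
    intro x hx
    refine Measure.integrableOn_of_bounded (M := K) (vol_box_lt _ _).ne
      (hmx x).aestronglyMeasurable ?_
    refine (ae_restrict_iff' measurableSet_Icc).mpr (Filter.Eventually.of_forall fun y hy => ?_)
    rw [Real.norm_eq_abs, abs_of_nonneg (h0 x y)]
    exact hK x hx y hy
  have hF1 : ∀ x ∈ R1, c / 64 ≤ ∫ y in Z, f x y := by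
    intro x hx
    have h1 : ∫ y in R2, f x y ≤ ∫ y in Z, f x y :=
      setIntegral_mono_set (hint x (hR1Z hx)) (Filter.Eventually.of_forall fun y => h0 x y)
        (Filter.Eventually.of_forall hR2Z)
    refine le_trans ?_ h1
    have h2 : ∫ y in R2, c = c / 64 := by
      rw [setIntegral_const, hv2]; simp only [smul_eq_mul]; ring
    rw [← h2]
    refine setIntegral_mono_on (integrableOn_const (vol_box_lt _ _).ne)
      ((hint x (hR1Z hx)).mono_set hR2Z) measurableSet_Icc ?_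
    intro y hy
    exact h x y (hx.1 0) (hx.2 0) (hy.1 0) (hy.2 0) (hx.1 1) (hx.2 1) (hy.1 1) (hy.2 1)
  have hFm : StronglyMeasurable (fun x => ∫ y in Z, f x y) :=
    hm.stronglyMeasurable.integral_prod_right
  have hFb : ∀ x ∈ Z, ∫ y in Z, f x y ≤ |K| := by
    intro x hx
    have h2 : ∫ y in Z, |K| = |K| := by
      rw [setIntegral_const]
      have h2 : (volume.real Z) = 1 := vol_Z
      rw [h2]; simp
    rw [← h2]
    refine setIntegral_mono_on (hint x hx) (integrableOn_const (vol_box_lt _ _).ne)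
      measurableSet_Icc ?_
    intro y hy
    exact (hK x hx y hy).trans (le_abs_self K)
  have hFint : IntegrableOn (fun x => ∫ y in Z, f x y) Z := by
    refine Measure.integrableOn_of_bounded (M := |K|) (vol_box_lt _ _).ne
      hFm.aestronglyMeasurable ?_
    refine (ae_restrict_iff' measurableSet_Icc).mpr (Filter.Eventually.of_forall fun x hx => ?_)
    rw [Real.norm_eq_abs, abs_of_nonneg (integral_nonneg fun y => h0 x y)]
    exact hFb x hx
  have h1 : ∫ x in R1, ∫ y in Z, f x y ≤ ∫ x in Z, ∫ y in Z, f x y :=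
    setIntegral_mono_set hFint (Filter.Eventually.of_forall fun x => integral_nonneg fun y => h0 x y)
      (Filter.Eventually.of_forall hR1Z)
  refine le_trans ?_ h1
  have h2 : ∫ x in R1, c / 64 = c / 2048 := by
    rw [setIntegral_const, hv1]; simp only [smul_eq_mul]; ring
  rw [← h2]
  refine setIntegral_mono_on (integrableOn_const (vol_box_lt _ _).ne)
    (hFint.mono_set hR1Z) measurableSet_Icc ?_
  intro x hx
  exact hF1 x hx

lemma meas_card {X ι : Type*} [MeasurableSpace X] [Fintype ι] (φ : X → ι → Prop)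
    [∀ z, DecidablePred (φ z)] (h : ∀ i, MeasurableSet {z | φ z i}) :
    Measurable (fun z => ((univ.filter (φ z)).card : ℝ)) := by
  classical
  have : (fun z => ((univ.filter (φ z)).card : ℝ))
      = fun z => ∑ i, Set.indicator {z | φ z i} (fun _ => (1 : ℝ)) z := by
    ext z
    rw [Finset.card_filter]
    push_cast
    refine Finset.sum_congr rfl fun i _ => ?_
    by_cases hz : φ z i
    · rw [if_pos hz, Set.indicator_of_mem (show z ∈ {z | φ z i} from hz)]
    · rw [if_neg hz, Set.indicator_of_notMem (show z ∉ {z | φ z i} from hz)]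
  rw [this]
  exact Finset.measurable_sum _ fun i _ => measurable_const.indicator (h i)

end Pool.Agent.V11310.Disc
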